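import Mathlib
import Pool.Agent.H974R2.Circ

/-!
Lattice approximation of a connected planar set: the vertices of `εℤ²` at distance at most `ε`
form a connected set of vertices.
-/

set_option autoImplicit false

namespace Pool.Agent.Y996.RD

open H974

/-- the position of a vertex of `εℤ²` -/
def pos (ε : ℝ) (v : ℤ × ℤ) : ℂ := ⟨ε * v.1, ε * v.2⟩

/-- the vertices of `εℤ²` at distance at most `ε` from `K` -/
def near (ε : ℝ) (K : Set ℂ) : Set (ℤ × ℤ) := {v | ∃ z ∈ K, dist (pos ε v) z ≤ ε}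

theorem dist_pos_le {ε : ℝ} (hε : 0 ≤ ε) (v : ℤ × ℤ) (z : ℂ) :
    dist (pos ε v) z ≤ ε ↔ (ε * v.1 - z.re) ^ 2 + (ε * v.2 - z.im) ^ 2 ≤ ε ^ 2 := by
  rw [dist_eq_norm, ← sq_le_sq₀ (norm_nonneg _) hε, Complex.sq_norm, Complex.normSq_apply]
  simp only [pos, Complex.sub_re, Complex.sub_im]
  rw [← sq, ← sq]

/-- the nearest vertex -/
noncomputable def nv (ε : ℝ) (z : ℂ) : ℤ × ℤ := (round (z.re / ε), round (z.im / ε))

theorem abs_round_le {ε : ℝ} (hε : 0 < ε) (a : ℝ) : |ε * (round (a / ε) : ℤ) - a| ≤ ε / 2 := by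
  have h := abs_sub_round (a / ε)
  have e : ε * (round (a / ε) : ℤ) - a = -(ε * (a / ε - round (a / ε))) := by
    field_simp
    ring
  rw [e, abs_neg, abs_mul, abs_of_pos hε]
  nlinarith

theorem nv_sq {ε : ℝ} (hε : 0 < ε) (z : ℂ) :
    (ε * ((nv ε z).1 : ℝ) - z.re) ^ 2 ≤ (ε / 2) ^ 2 ∧
    (ε * ((nv ε z).2 : ℝ) - z.im) ^ 2 ≤ (ε / 2) ^ 2 := by
  have h1 := abs_le.mp (abs_round_le hε z.re)
  have h2 := abs_le.mp (abs_round_le hε z.im)
  exact ⟨sq_le_sq' h1.1 h1.2, sq_le_sq' h2.1 h2.2⟩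

/-- one coordinate: moving to the nearest point decreases the distance, in at most one step -/
theorem one_coord {ε : ℝ} (hε : 0 < ε) (a b : ℝ) (v : ℤ) (h : (ε * v - a) ^ 2 + b ^ 2 ≤ ε ^ 2) :
    (ε * (round (a / ε) : ℤ) - a) ^ 2 + b ^ 2 ≤ ε ^ 2 ∧
      (round (a / ε) = v ∨ round (a / ε) = v + 1 ∨ v = round (a / ε) + 1) := by
  have h1 := abs_round_le hε a
  have h2 : |ε * v - a| ≤ ε := by
    apply abs_le_of_sq_le_sq _ hε.le
    nlinarith [sq_nonneg b]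
  have h3 : |(ε * ((round (a / ε) : ℤ) : ℝ)) - ε * v| ≤ 3 / 2 * ε := by
    calc |(ε * ((round (a / ε) : ℤ) : ℝ)) - ε * v|
        = |(ε * ((round (a / ε) : ℤ) : ℝ) - a) - (ε * v - a)| := by congr 1; ring
      _ ≤ |ε * ((round (a / ε) : ℤ) : ℝ) - a| + |ε * v - a| := abs_sub _ _
      _ ≤ _ := by linarith
  have h4 : |((round (a / ε) - v : ℤ) : ℝ)| ≤ 3 / 2 := by
    have e : (ε * ((round (a / ε) : ℤ) : ℝ)) - ε * v = ε * ((round (a / ε) - v : ℤ) : ℝ) := by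
      push_cast; ring
    rw [e, abs_mul, abs_of_pos hε] at h3
    have := le_of_mul_le_mul_left (show ε * |((round (a / ε) - v : ℤ) : ℝ)| ≤ ε * (3 / 2) by
      linarith) hε
    exact this
  have h5 : |round (a / ε) - v| ≤ 1 := by
    have h6 : ((|round (a / ε) - v| : ℤ) : ℝ) < 2 := by
      rw [Int.cast_abs]; linarith
    have h7 : |round (a / ε) - v| < 2 := by exact_mod_cast h6
    omega
  have h8 := abs_le.mp h5
  constructor
  · rcases eq_or_ne (round (a / ε)) v with h9 | h9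
    · rw [h9]; exact h
    · have h10 : (1 : ℝ) ≤ |((round (a / ε) - v : ℤ) : ℝ)| := by
        have : 1 ≤ |round (a / ε) - v| := Int.one_le_abs (sub_ne_zero.mpr h9)
        exact_mod_cast this
      have h11 : ε / 2 ≤ |ε * v - a| := by
        have e : (ε * ((round (a / ε) : ℤ) : ℝ)) - ε * v = ε * ((round (a / ε) - v : ℤ) : ℝ) := by
          push_cast; ring
        have h12 : ε * 1 ≤ |(ε * ((round (a / ε) : ℤ) : ℝ)) - ε * v| := by
          rw [e, abs_mul, abs_of_pos hε]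
          exact mul_le_mul_of_nonneg_left h10 hε.le
        have h13 : |(ε * ((round (a / ε) : ℤ) : ℝ)) - ε * v| ≤
            |ε * ((round (a / ε) : ℤ) : ℝ) - a| + |ε * v - a| := by
          calc |(ε * ((round (a / ε) : ℤ) : ℝ)) - ε * v|
              = |(ε * ((round (a / ε) : ℤ) : ℝ) - a) - (ε * v - a)| := by congr 1; ring
            _ ≤ _ := abs_sub _ _
        linarith
      have h14 : (ε * ((round (a / ε) : ℤ) : ℝ) - a) ^ 2 ≤ (ε * v - a) ^ 2 :=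
        sq_le_sq.mpr (h1.trans h11)
      linarith
  · omega

/-- the graph of the near vertices -/
def NE (ε : ℝ) (K : Set ℂ) : Set Edg := {e | src e ∈ near ε K ∧ tgt e ∈ near ε K}

theorem adj_row {ε : ℝ} {K : Set ℂ} {x y : ℤ} (h1 : (x, y) ∈ near ε K) (h2 : (x + 1, y) ∈ near ε K) :
    Adj (NE ε K) (x, y) (x + 1, y) :=
  ⟨(x, y, true), ⟨h1, h2⟩, Or.inl ⟨rfl, rfl⟩⟩

theorem adj_col {ε : ℝ} {K : Set ℂ} {x y : ℤ} (h1 : (x, y) ∈ near ε K) (h2 : (x, y + 1) ∈ near ε K) :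
    Adj (NE ε K) (x, y) (x, y + 1) :=
  ⟨(x, y, false), ⟨h1, h2⟩, Or.inl ⟨rfl, rfl⟩⟩

theorem reach_nv {ε : ℝ} (hε : 0 < ε) {K : Set ℂ} {z : ℂ} (hz : z ∈ K) {v : ℤ × ℤ}
    (hv : dist (pos ε v) z ≤ ε) : Reach (NE ε K) v (nv ε z) := by
  obtain ⟨v1, v2⟩ := v
  rw [dist_pos_le hε.le] at hv
  simp only at hv
  obtain ⟨a1, a2⟩ := one_coord hε z.re (ε * v2 - z.im) v1 hv
  obtain ⟨b1, b2⟩ := one_coord hε z.im (ε * (round (z.re / ε) : ℤ) - z.re) v2
    (by linarith)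
  have m0 : ((v1, v2) : ℤ × ℤ) ∈ near ε K := ⟨z, hz, (dist_pos_le hε.le _ _).mpr hv⟩
  have m1 : ((round (z.re / ε), v2) : ℤ × ℤ) ∈ near ε K := ⟨z, hz, (dist_pos_le hε.le _ _).mpr a1⟩
  have m2 : ((round (z.re / ε), round (z.im / ε)) : ℤ × ℤ) ∈ near ε K :=
    ⟨z, hz, (dist_pos_le hε.le _ _).mpr (by simp only; linarith)⟩
  have s1 : Reach (NE ε K) (v1, v2) (round (z.re / ε), v2) := by
    rcases a2 with h | h | h
    · rw [h]; exact Reach.refl _ _
    · rw [h] at m1 ⊢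
      exact (adj_row m0 m1).reach
    · rw [h] at m0 ⊢
      exact (adj_row m1 m0).symm.reach
  have s2 : Reach (NE ε K) (round (z.re / ε), v2) (round (z.re / ε), round (z.im / ε)) := by
    rcases b2 with h | h | h
    · rw [h]; exact Reach.refl _ _
    · rw [h] at m2 ⊢
      exact (adj_col m1 m2).reach
    · rw [h] at m1 ⊢
      exact (adj_col m2 m1).symm.reach
  exact s1.trans s2

theorem nv_mem {ε : ℝ} (hε : 0 < ε) (z : ℂ) : dist (pos ε (nv ε z)) z ≤ ε := by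
  rw [dist_pos_le hε.le]
  obtain ⟨h1, h2⟩ := nv_sq hε z
  nlinarith

theorem nv_near {ε : ℝ} (hε : 0 < ε) {K : Set ℂ} {z : ℂ} (hz : z ∈ K) : nv ε z ∈ near ε K :=
  ⟨z, hz, nv_mem hε z⟩

/-- the nearest vertex of a point is close to the points around -/
theorem nv_close {ε : ℝ} (hε : 0 < ε) (z w : ℂ) (h : dist z w < ε / 10) :
    dist (pos ε (nv ε z)) w ≤ ε := by
  have h1 : dist (pos ε (nv ε z)) z ≤ 3 / 4 * ε := by
    obtain ⟨h1, h2⟩ := nv_sq hε z
    rw [dist_eq_norm, ← sq_le_sq₀ (norm_nonneg _) (by positivity), Complex.sq_norm,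
      Complex.normSq_apply]
    simp only [pos, Complex.sub_re, Complex.sub_im]
    nlinarith
  calc dist (pos ε (nv ε z)) w ≤ dist (pos ε (nv ε z)) z + dist z w := dist_triangle _ _ _
    _ ≤ ε := by linarith

/-- **the near vertices of a connected set are connected** -/
theorem near_conn {ε : ℝ} (hε : 0 < ε) {K : Set ℂ} (hK : IsPreconnected K) {u v : ℤ × ℤ}
    (hu : u ∈ near ε K) (hv : v ∈ near ε K) : Reach (NE ε K) u v := by
  obtain ⟨z0, hz0, hu0⟩ := hu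
  obtain ⟨z1, hz1, hv1⟩ := hv
  suffices h : ∀ z ∈ K, Reach (NE ε K) (nv ε z0) (nv ε z) from
    (reach_nv hε hz0 hu0).trans ((h z1 hz1).trans (reach_nv hε hz1 hv1).symm)
  by_contra hcon
  push Not at hcon
  obtain ⟨z2, hz2, hn2⟩ := hcon
  have step : ∀ z ∈ K, ∀ w ∈ K, dist z w < ε / 10 → Reach (NE ε K) (nv ε z) (nv ε w) := by
    intro z hz w hw h
    exact reach_nv hε hw (nv_close hε z w h)
  have hk := hK (⋃ z ∈ {z ∈ K | Reach (NE ε K) (nv ε z0) (nv ε z)}, Metric.ball z (ε / 20))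
    (⋃ z ∈ {z ∈ K | ¬ Reach (NE ε K) (nv ε z0) (nv ε z)}, Metric.ball z (ε / 20))
    (isOpen_biUnion fun _ _ => Metric.isOpen_ball) (isOpen_biUnion fun _ _ => Metric.isOpen_ball)
    (by
      intro z hz
      by_cases h : Reach (NE ε K) (nv ε z0) (nv ε z)
      · exact Or.inl (Set.mem_biUnion ⟨hz, h⟩ (Metric.mem_ball_self (by positivity)))
      · exact Or.inr (Set.mem_biUnion ⟨hz, h⟩ (Metric.mem_ball_self (by positivity))))
    ⟨z0, hz0, Set.mem_biUnion ⟨hz0, Reach.refl _ _⟩ (Metric.mem_ball_self (by positivity))⟩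
    ⟨z2, hz2, Set.mem_biUnion ⟨hz2, hn2⟩ (Metric.mem_ball_self (by positivity))⟩
  obtain ⟨w, hw, h1, h2⟩ := hk
  simp only [Set.mem_iUnion, Metric.mem_ball, exists_prop] at h1 h2
  obtain ⟨a, ⟨ha, ha'⟩, h3⟩ := h1
  obtain ⟨b, ⟨hb, hb'⟩, h4⟩ := h2
  apply hb'
  refine ha'.trans (step a ha b hb ?_)
  calc dist a b ≤ dist a w + dist w b := dist_triangle _ _ _
    _ < ε / 10 := by rw [dist_comm a w]; linarith

/-- a path in `F` and near edges, from a near vertex: some near vertex reaches the end in `F` -/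
theorem last_near {ε : ℝ} {K : Set ℂ} {F G : Set Edg} (hG : G ⊆ NE ε K) {u v : ℤ × ℤ}
    (hu : u ∈ near ε K) (h : Reach (F ∪ G) u v) : ∃ x ∈ near ε K, Reach F x v := by
  induction h with
  | refl => exact ⟨u, hu, Reach.refl _ _⟩
  | tail _ hbc ih =>
    obtain ⟨x, hx, hr⟩ := ih
    obtain ⟨e, he, hc⟩ := hbc
    rcases he with he | he
    · exact ⟨x, hx, hr.trans (Adj.reach ⟨e, he, hc⟩)⟩
    · obtain ⟨h1, h2⟩ := hG he
      rcases hc with ⟨_, h4⟩ | ⟨h3, _⟩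
      · rw [← h4]; exact ⟨_, h2, Reach.refl _ _⟩
      · rw [← h3]; exact ⟨_, h1, Reach.refl _ _⟩

end Pool.Agent.Y996.RD
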