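import Mathlib
import Pool.Agent.Y996.RD.Near
import Pool.Agent.H974R2.Glue

/-!
Percolation between two sets of vertices: arms, circuits and connected sets of vertices.
-/

set_option autoImplicit false

namespace Pool.Agent.Y996.RD

open H974 Finset

/-! ## box-to-boundary probabilities -/

theorem xarm_of_arm {m n : ℕ} (hmn : m ≤ n) {F : Finset Edg} (h : Arm n F) :
    Arm m F ∧ XArm m n F := by
  obtain ⟨w, hw, hr⟩ := h
  have h' : (m:ℤ) ≤ n := by exact_mod_cast hmn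
  constructor
  · obtain ⟨z, k1, k2, k3⟩ := first_exit (a := -m) (b := m) (c := -m) (d := m)
      (by unfold inR; simp) hr (by unfold onB at hw; omega)
    exact ⟨z, ⟨k1, k2⟩, k3.mono (by rintro g ⟨⟨k4, -⟩, k5⟩; exact ⟨k4, k5⟩)⟩
  · obtain ⟨z, k1, k2, k3⟩ := first_entry (a := -m) (b := m) (c := -m) (d := m)
      (w := w) (v := (0, 0)) (by unfold onB inR at hw; unfold inR; omega) hr.symm
      (by unfold inR; simp)
    refine ⟨z, w, ⟨k1, k2⟩, hw, k3.symm.mono ?_⟩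
    rintro g ⟨⟨k4, k5⟩, k6⟩
    refine ⟨k4, ?_⟩
    rw [Finset.mem_coe, Finset.mem_sdiff]
    exact ⟨k5, fun h => k6 (Finset.mem_coe.mpr h)⟩

theorem arm_le_mul {q : ℝ} (h0 : 0 ≤ q) (h1 : q ≤ 1) {m n : ℕ} (hmn : m ≤ n) :
    arm q n ≤ arm q m * barm q m n := by
  have ok := okq h0 h1
  have s1 : boxE m ⊆ boxE n := boxE_mono hmn
  have i1 := Pr_indep (p := fun _ => q) (U := boxE n) (S := boxE m) (T := boxE n \ boxE m)
    s1 Finset.sdiff_subset Finset.disjoint_sdiff (A := Arm m) (B := XArm m n)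
    (fun F _ => Arm_local (Finset.Subset.refl _)) (fun F _ => XArm_local (Finset.Subset.refl _))
  have i2 : arm q n ≤ Pr (fun _ => q) (boxE n) (fun F => Arm m F ∧ XArm m n F) := by
    unfold arm
    exact Pr_mono ok (fun F _ h => xarm_of_arm hmn h)
  have i3 : Pr (fun _ => q) (boxE n) (XArm m n) ≤ barm q m n := by
    unfold barm
    exact Pr_mono ok (fun F _ h => BArm_of_XArm h)
  rw [i1, pr_Arm q s1] at i2
  exact i2.trans (mul_le_mul_of_nonneg_left i3 (arm_nonneg h0 h1 _))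

/-- the one-arm estimate -/
def Sharp (c C : ℝ) : Prop := ∀ n : ℕ, 1 ≤ n →
    c * (n : ℝ) ^ (-(5 / 48 : ℝ)) ≤ arm (1 / 2) n ∧ arm (1 / 2) n ≤ C * (n : ℝ) ^ (-(5 / 48 : ℝ))

theorem hf0 : (0:ℝ) ≤ 1/2 := by norm_num
theorem hf1 : (1/2:ℝ) ≤ 1 := by norm_num

theorem barm_ge {c C : ℝ} (hc : 0 < c) (hC : 0 < C) (h : Sharp c C) {m n : ℕ} (hm : 1 ≤ m)
    (hmn : m ≤ n) : c / C * ((m : ℝ) / n) ^ ((5 : ℝ) / 48) ≤ barm (1 / 2) m n := by
  have hm0 : (0:ℝ) < m := by exact_mod_cast hm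
  have hn0 : (0:ℝ) < n := by
    have : (m:ℝ) ≤ n := by exact_mod_cast hmn
    linarith
  have i1 := arm_le_mul hf0 hf1 hmn
  have i2 := (h n (hm.trans hmn)).1
  have i3 := (h m hm).2
  have hb := barm_nonneg hf0 hf1 m n
  have i4 : c * (n : ℝ) ^ (-(5 / 48 : ℝ)) ≤ C * (m : ℝ) ^ (-(5 / 48 : ℝ)) * barm (1 / 2) m n :=
    i2.trans (i1.trans (mul_le_mul_of_nonneg_right i3 hb))
  have hmp : 0 < (m:ℝ) ^ ((5:ℝ)/48) := Real.rpow_pos_of_pos hm0 _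
  have hnp : 0 < (n:ℝ) ^ ((5:ℝ)/48) := Real.rpow_pos_of_pos hn0 _
  rw [Real.div_rpow hm0.le hn0.le]
  rw [Real.rpow_neg hn0.le, Real.rpow_neg hm0.le] at i4
  have i5 := mul_le_mul_of_nonneg_left i4 (show 0 ≤ (m:ℝ) ^ ((5:ℝ)/48) / C by positivity)
  calc c / C * ((m:ℝ) ^ ((5:ℝ)/48) / (n:ℝ) ^ ((5:ℝ)/48))
      = (m:ℝ) ^ ((5:ℝ)/48) / C * (c * ((n:ℝ) ^ ((5:ℝ)/48))⁻¹) := by field_simp
    _ ≤ (m:ℝ) ^ ((5:ℝ)/48) / C * (C * ((m:ℝ) ^ ((5:ℝ)/48))⁻¹ * barm (1 / 2) m n) := i5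
    _ = barm (1 / 2) m n := by field_simp

theorem barm_le {c C : ℝ} (hc : 0 < c) (hC : 0 < C) (h : Sharp c C) {m n : ℕ} (hm : 1 ≤ m)
    (hmn : 3 * m ≤ n) : barm (1 / 2) m n ≤ 3 * C / (c * kap) * ((m : ℝ) / n) ^ ((5 : ℝ) / 48) := by
  have hm0 : (0:ℝ) < m := by exact_mod_cast hm
  have hn0 : (0:ℝ) < n := by
    have : ((3 * m : ℕ):ℝ) ≤ n := by exact_mod_cast hmn
    push_cast at this
    linarith
  have hk := kap_pos
  have i1 : kap * (arm (1/2) (3 * m) * barm (1/2) m n) ≤ arm (1/2) n :=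
    arm_glue (p := 1/2) le_rfl hf1 hm hmn
  have i2 := (h (3 * m) (by omega)).1
  have i3 := (h n (by omega)).2
  have hb := barm_nonneg hf0 hf1 m n
  have i4 : kap * (c * ((3 * m : ℕ) : ℝ) ^ (-(5 / 48 : ℝ)) * barm (1/2) m n) ≤
      C * (n : ℝ) ^ (-(5 / 48 : ℝ)) := by
    refine le_trans ?_ (i1.trans i3)
    exact mul_le_mul_of_nonneg_left (mul_le_mul_of_nonneg_right i2 hb) hk.le
  have hmp : 0 < (m:ℝ) ^ ((5:ℝ)/48) := Real.rpow_pos_of_pos hm0 _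
  have hnp : 0 < (n:ℝ) ^ ((5:ℝ)/48) := Real.rpow_pos_of_pos hn0 _
  have i5 : ((3 * m : ℕ) : ℝ) ^ ((5:ℝ)/48) ≤ 3 * (m:ℝ) ^ ((5:ℝ)/48) := by
    push_cast
    rw [Real.mul_rpow (by norm_num) hm0.le]
    apply mul_le_mul_of_nonneg_right _ hmp.le
    calc (3:ℝ) ^ ((5:ℝ)/48) ≤ (3:ℝ) ^ (1:ℝ) :=
          Real.rpow_le_rpow_of_exponent_le (by norm_num) (by norm_num)
      _ = 3 := Real.rpow_one 3
  have h3p : 0 < ((3 * m : ℕ) : ℝ) ^ ((5:ℝ)/48) := Real.rpow_pos_of_pos (by push_cast; linarith) _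
  rw [Real.rpow_neg hn0.le, Real.rpow_neg (by positivity)] at i4
  rw [Real.div_rpow hm0.le hn0.le]
  have i6 : (3 * (m:ℝ) ^ ((5:ℝ)/48))⁻¹ ≤ (((3 * m : ℕ) : ℝ) ^ ((5:ℝ)/48))⁻¹ :=
    inv_anti₀ h3p i5
  have i7 : kap * (c * (3 * (m:ℝ) ^ ((5:ℝ)/48))⁻¹ * barm (1/2) m n) ≤
      C * ((n:ℝ) ^ ((5:ℝ)/48))⁻¹ := by
    refine le_trans ?_ i4
    apply mul_le_mul_of_nonneg_left _ hk.le
    apply mul_le_mul_of_nonneg_right _ hb
    exact mul_le_mul_of_nonneg_left i6 hc.le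
  have i8 := mul_le_mul_of_nonneg_left i7 (show 0 ≤ 3 * (m:ℝ) ^ ((5:ℝ)/48) / (c * kap) by positivity)
  calc barm (1 / 2) m n = 3 * (m:ℝ) ^ ((5:ℝ)/48) / (c * kap) *
        (kap * (c * (3 * (m:ℝ) ^ ((5:ℝ)/48))⁻¹ * barm (1/2) m n)) := by field_simp
    _ ≤ 3 * (m:ℝ) ^ ((5:ℝ)/48) / (c * kap) * (C * ((n:ℝ) ^ ((5:ℝ)/48))⁻¹) := i8
    _ = _ := by field_simp

/-! ## shifted configurations -/

/-- the configuration seen from `x` -/
def sh (x : Vtx) (F : Finset Edg) : Finset Edg := (trl (-x.1) (-x.2)).mp F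

theorem sh_mono {x : Vtx} {F G : Finset Edg} (h : F ⊆ G) : sh x F ⊆ sh x G := LSym.mp_mono _ h

/-- translated set of edges -/
def shS (x : Vtx) (G : Set Edg) : Set Edg := (trl (-x.1) (-x.2)).φ '' G

theorem coe_sh (x : Vtx) (F : Finset Edg) : (↑(sh x F) : Set Edg) = shS x ↑F := LSym.coe_mp _ _

theorem reach_shS {x u v : Vtx} {G : Set Edg} :
    Reach (shS x G) (u.1 - x.1, u.2 - x.2) (v.1 - x.1, v.2 - x.2) ↔ Reach G u v := by
  obtain ⟨u1, u2⟩ := u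
  obtain ⟨v1, v2⟩ := v
  have h := (trl (-x.1) (-x.2)).reach_iff (F := G) (u := (u1, u2)) (v := (v1, v2))
  rw [trl_ψ, trl_ψ] at h
  simp only [sub_eq_add_neg]
  exact h

theorem reach_shS' {x u v : Vtx} {G : Set Edg} :
    Reach (shS x G) u v ↔ Reach G (u.1 + x.1, u.2 + x.2) (v.1 + x.1, v.2 + x.2) := by
  have h := reach_shS (x := x) (u := (u.1 + x.1, u.2 + x.2)) (v := (v.1 + x.1, v.2 + x.2)) (G := G)
  simp only [add_sub_cancel_right, Prod.mk.eta] at h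
  exact h

theorem reach_in {G : Set Edg} {a b c d : ℤ} {u v : Vtx} (hu : inR a b c d u)
    (h : Reach (G ∩ ↑(RE a b c d)) u v) : inR a b c d v := by
  induction h with
  | refl => exact hu
  | tail _ hs _ =>
    obtain ⟨⟨x0, y0, bo⟩, ⟨_, heG⟩, hcase⟩ := hs
    unfold inR
    cases bo
    · rw [Finset.mem_coe, mem_RE_false] at heG
      simp only [src_mk, tgt_false] at hcase
      rcases hcase with ⟨_, h4⟩ | ⟨h4, _⟩
      · rw [← h4]; simp only; omega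
      · rw [← h4]; simp only; omega
    · rw [Finset.mem_coe, mem_RE_true] at heG
      simp only [src_mk, tgt_true] at hcase
      rcases hcase with ⟨_, h4⟩ | ⟨h4, _⟩
      · rw [← h4]; simp only; omega
      · rw [← h4]; simp only; omega

/-! ## connected sets of vertices -/

/-- edges inside a set of vertices -/
def EN (N : Set Vtx) : Set Edg := {e | src e ∈ N ∧ tgt e ∈ N}

theorem last_in {N : Set Vtx} {F : Set Edg} {u v : Vtx} (hu : u ∈ N) (h : Reach (F ∪ EN N) u v) :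
    ∃ x ∈ N, Reach F x v := by
  induction h with
  | refl => exact ⟨u, hu, Reach.refl _ _⟩
  | tail _ hbc ih =>
    obtain ⟨x, hx, hr⟩ := ih
    obtain ⟨e, he, hc⟩ := hbc
    rcases he with he | he
    · exact ⟨x, hx, hr.trans (Adj.reach ⟨e, he, hc⟩)⟩
    · obtain ⟨h1, h2⟩ := he
      rcases hc with ⟨_, h4⟩ | ⟨h3, _⟩
      · rw [← h4]; exact ⟨_, h2, Reach.refl _ _⟩
      · rw [← h3]; exact ⟨_, h1, Reach.refl _ _⟩

open Classical in
/-- A connected set of vertices across the annulus and an arm, in presence of a circuit. -/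
theorem hit0 {N : Set Vtx} {m : ℕ} (hm : 0 < m) {F : Finset Edg}
    (hC : Circ m ((3 * m : ℕ) : ℤ) F) {a b u v : Vtx} (ha : a ∈ N)
    (hab : Reach (EN N) a b) (ha' : inR (-m) m (-m) m a)
    (hb : b.1 ≤ -((3 * m : ℕ) : ℤ) ∨ ((3 * m : ℕ) : ℤ) ≤ b.1 ∨ b.2 ≤ -((3 * m : ℕ) : ℤ) ∨
      ((3 * m : ℕ) : ℤ) ≤ b.2)
    (hu : inR (-m) m (-m) m u)
    (hv : v.1 ≤ -((3 * m : ℕ) : ℤ) ∨ ((3 * m : ℕ) : ℤ) ≤ v.1 ∨ v.2 ≤ -((3 * m : ℕ) : ℤ) ∨
      ((3 * m : ℕ) : ℤ) ≤ v.2)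
    (h : Reach (↑F : Set Edg) u v) :
    ∃ y ∈ N, inR (-((3 * m : ℕ) : ℤ)) ((3 * m : ℕ) : ℤ) (-((3 * m : ℕ) : ℤ)) ((3 * m : ℕ) : ℤ) y ∧
      Reach (↑F : Set Edg) y v := by
  set M : ℤ := ((3 * m : ℕ) : ℤ) with hM
  have hMm : (m:ℤ) < M := by rw [hM]; push_cast; omega
  have hm0 : (0:ℤ) ≤ m := by positivity
  set F1 : Finset Edg := F ∪ (RE (-M) M (-M) M).filter (fun e => e ∈ EN N) with hF1
  obtain ⟨z, hz⟩ := circ_meet hm0 hMm (hC.mono (Finset.subset_union_left (s₂ :=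
    (RE (-M) M (-M) M).filter (fun e => e ∈ EN N))))
  rw [← hF1] at hz
  obtain ⟨w, k1, k2, k3⟩ := first_exit (a := -M) (b := M) (c := -M) (d := M)
    (by unfold inR at ha' ⊢; omega) hab hb
  have g1 : EN N ∩ ↑(RE (-M) M (-M) M) ⊆ (↑F1 : Set Edg) ∩ ↑(RE (-M) M (-M) M) := by
    rintro e ⟨h1, h2⟩
    refine ⟨?_, h2⟩
    rw [hF1, Finset.mem_coe, Finset.mem_union, Finset.mem_filter]
    exact Or.inr ⟨Finset.mem_coe.mp h2, h1⟩
  have q1 := hz a w ha' k2 (k3.mono g1)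
  obtain ⟨w', l1, l2, l3⟩ := first_exit (a := -M) (b := M) (c := -M) (d := M)
    (by unfold inR at hu ⊢; omega) h hv
  have g2 : (↑F : Set Edg) ∩ ↑(RE (-M) M (-M) M) ⊆ (↑F1 : Set Edg) ∩ ↑(RE (-M) M (-M) M) := by
    rintro e ⟨h1, h2⟩
    refine ⟨?_, h2⟩
    rw [hF1, Finset.mem_coe, Finset.mem_union]
    exact Or.inl (Finset.mem_coe.mp h1)
  have q2 := hz u w' hu l2 (l3.mono g2)
  have q3 : Reach ((↑F1 : Set Edg) ∩ ↑(RE (-M) M (-M) M)) a u := q1.trans q2.symm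
  have g3 : (↑F1 : Set Edg) ∩ ↑(RE (-M) M (-M) M) ⊆
      ((↑F : Set Edg) ∩ ↑(RE (-M) M (-M) M)) ∪ EN N := by
    rintro e ⟨h1, h2⟩
    rw [hF1, Finset.mem_coe, Finset.mem_union, Finset.mem_filter] at h1
    rcases h1 with h1 | h1
    · exact Or.inl ⟨Finset.mem_coe.mpr h1, h2⟩
    · exact Or.inr h1.2
  obtain ⟨y, hy, hr⟩ := last_in ha (q3.mono g3)
  refine ⟨y, hy, ?_, ?_⟩
  · exact reach_in (G := ↑F) (by unfold inR at hu ⊢; omega) hr.symm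
  · exact (hr.mono Set.inter_subset_left).trans h

/-- the set of vertices seen from `x` -/
def shN (x : Vtx) (N : Set Vtx) : Set Vtx := {v | (v.1 + x.1, v.2 + x.2) ∈ N}

theorem EN_shN (x : Vtx) (N : Set Vtx) : EN (shN x N) = shS x (EN N) := by
  ext ⟨a, b, c⟩
  constructor
  · rintro ⟨h1, h2⟩
    refine ⟨(a + x.1, b + x.2, c), ⟨?_, ?_⟩, ?_⟩
    · simpa [shN] using h1
    · cases c
      · have : ((a, b + 1) : Vtx) ∈ shN x N := by simpa using h2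
        have h3 : ((a + x.1, b + 1 + x.2) : Vtx) ∈ N := this
        rw [tgt_false]
        rw [show b + x.2 + 1 = b + 1 + x.2 by ring]
        exact h3
      · have : ((a + 1, b) : Vtx) ∈ shN x N := by simpa using h2
        have h3 : ((a + 1 + x.1, b + x.2) : Vtx) ∈ N := this
        rw [tgt_true]
        rw [show a + x.1 + 1 = a + 1 + x.1 by ring]
        exact h3
    · show ((trl (-x.1) (-x.2)).φ (a + x.1, b + x.2, c)) = (a, b, c)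
      simp [trl]
  · rintro ⟨⟨a', b', c'⟩, ⟨h1, h2⟩, h3⟩
    have h4 : ((a' + -x.1, b' + -x.2, c') : Edg) = (a, b, c) := h3
    simp only [Prod.mk.injEq] at h4
    obtain ⟨rfl, rfl, rfl⟩ := h4
    refine ⟨?_, ?_⟩
    · show ((a' + -x.1 + x.1, b' + -x.2 + x.2) : Vtx) ∈ N
      simpa using h1
    · cases c'
      · rw [tgt_false] at h2 ⊢
        show ((a' + -x.1 + x.1, b' + -x.2 + 1 + x.2) : Vtx) ∈ N
        rw [show a' + -x.1 + x.1 = a' by ring, show b' + -x.2 + 1 + x.2 = b' + 1 by ring]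
        exact h2
      · rw [tgt_true] at h2 ⊢
        show ((a' + -x.1 + 1 + x.1, b' + -x.2 + x.2) : Vtx) ∈ N
        rw [show a' + -x.1 + 1 + x.1 = a' + 1 by ring, show b' + -x.2 + x.2 = b' by ring]
        exact h2

/-- The event attached to a set: an arm from a box to distance `n`, and a circuit at distance
between `m` and `3m` (no condition when `m = 0`). -/
def Ev (m n : ℕ) (x : Vtx) (F : Finset Edg) : Prop :=
  (m = 0 ∨ Circ m ((3 * m : ℕ) : ℤ) (sh x F)) ∧ BArm m n (sh x F)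

theorem Ev.mono {m n : ℕ} {x : Vtx} {F G : Finset Edg} (h : F ⊆ G) (hF : Ev m n x F) :
    Ev m n x G :=
  ⟨hF.1.imp id (fun h1 => h1.mono (sh_mono h)), hF.2.mono (sh_mono h)⟩

/-- what the event gives -/
theorem Ev.use {m n : ℕ} {x : Vtx} {F : Finset Edg} (h : Ev m n x F) (hmn : 3 * m ≤ n)
    {N : Set Vtx} (hx : x ∈ N)
    (hN : 0 < m → ∃ b, Reach (EN N) x b ∧ (b.1 ≤ x.1 - (3 * m : ℕ) ∨ x.1 + (3 * m : ℕ) ≤ b.1 ∨
      b.2 ≤ x.2 - (3 * m : ℕ) ∨ x.2 + (3 * m : ℕ) ≤ b.2)) :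
    ∃ y ∈ N, inR (x.1 - (3 * m : ℕ)) (x.1 + (3 * m : ℕ)) (x.2 - (3 * m : ℕ)) (x.2 + (3 * m : ℕ)) y ∧
      ∃ v, (v.1 ≤ x.1 - n ∨ x.1 + n ≤ v.1 ∨ v.2 ≤ x.2 - n ∨ x.2 + n ≤ v.2) ∧
        Reach (↑F : Set Edg) y v := by
  obtain ⟨h1, u, v, hu, hv, hr⟩ := h
  have hr' : Reach (↑(sh x F) : Set Edg) u v := hr.mono Set.inter_subset_left
  rcases Nat.eq_zero_or_pos m with hm | hm
  · subst hm
    clear hN
    have g2 : (v.1 + x.1 ≤ x.1 - n ∨ x.1 + n ≤ v.1 + x.1 ∨ v.2 + x.2 ≤ x.2 - n ∨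
        x.2 + n ≤ v.2 + x.2) := by
      obtain ⟨-, j⟩ := hv
      omega
    refine ⟨x, hx, by unfold inR; simp, (v.1 + x.1, v.2 + x.2), g2, ?_⟩
    · have hu0 : u = (0, 0) := by
        obtain ⟨u1, u2⟩ := u
        unfold inR at hu
        simp only [Nat.cast_zero, neg_zero] at hu
        rw [Prod.mk.injEq]; omega
      subst hu0
      rw [coe_sh, reach_shS'] at hr'
      simpa using hr'
  · obtain ⟨b, hb1, hb2⟩ := hN hm
    have hC := h1.resolve_left (by omega)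
    have e1 : Reach (EN (shN x N)) (0, 0) (b.1 - x.1, b.2 - x.2) := by
      rw [EN_shN]
      have := reach_shS (x := x) (u := x) (v := b) (G := EN N)
      rw [sub_self, sub_self] at this
      exact this.mpr hb1
    have hmn' : ((3 * m : ℕ) : ℤ) ≤ n := by exact_mod_cast hmn
    obtain ⟨y, hy, hy1, hy2⟩ := hit0 hm hC (N := shN x N) (a := (0, 0))
      (b := (b.1 - x.1, b.2 - x.2)) (u := u) (v := v) (by show _ ∈ N; simpa using hx) e1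
      (by unfold inR; simp) (by simp only; omega) hu (by unfold onB at hv; omega) hr'
    rw [coe_sh, reach_shS'] at hy2
    have g1 : inR (x.1 - (3 * m : ℕ)) (x.1 + (3 * m : ℕ)) (x.2 - (3 * m : ℕ)) (x.2 + (3 * m : ℕ))
        (y.1 + x.1, y.2 + x.2) := by
      unfold inR at hy1 ⊢
      obtain ⟨⟨j1, j2⟩, ⟨j3, j4⟩⟩ := hy1
      simp only
      omega
    have g2 : (v.1 + x.1 ≤ x.1 - n ∨ x.1 + n ≤ v.1 + x.1 ∨ v.2 + x.2 ≤ x.2 - n ∨
        x.2 + n ≤ v.2 + x.2) := by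
      obtain ⟨-, j⟩ := hv
      omega
    exact ⟨(y.1 + x.1, y.2 + x.2), hy, g1, (v.1 + x.1, v.2 + x.2), g2, hy2⟩

/-- shifted box -/
noncomputable def bx (x : Vtx) (n : ℤ) : Finset Edg := RE (x.1 - n) (x.1 + n) (x.2 - n) (x.2 + n)

theorem sh_bx (x : Vtx) (n : ℤ) : sh x (bx x n) = RE (-n) n (-n) n := by
  unfold sh bx
  rw [trl_RE]
  congr 1 <;> ring

theorem pr_Ev {m n : ℕ} (hmn : 3 * m ≤ n) {x : Vtx} {S : Finset Edg} (hS : bx x n ⊆ S) :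
    kap * barm (1/2) m n ≤ Pr (fun _ => (1/2:ℝ)) S (Ev m n x) := by
  have ok := okhalf
  have hsub : boxE n ⊆ sh x S := by
    have := sh_mono (x := x) hS
    rw [sh_bx] at this
    exact this
  have e0 : Pr (fun _ => (1/2:ℝ)) S (Ev m n x) = Pr (fun _ => (1/2:ℝ)) (sh x S)
      (fun F => (m = 0 ∨ Circ m ((3 * m : ℕ) : ℤ) F) ∧ BArm m n F) := by
    unfold sh
    rw [LSym.pr]
    rfl
  rw [e0]
  have e1 : kap ≤ Pr (fun _ => (1/2:ℝ)) (sh x S) (fun F => m = 0 ∨ Circ m ((3 * m : ℕ) : ℤ) F) := by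
    rcases Nat.eq_zero_or_pos m with hm | hm
    · rw [Pr_true _ (fun F _ => Or.inl hm)]
      exact kap_le
    · refine (pr_CircP ok (fun _ => le_rfl) hm ((boxE_mono hmn).trans hsub)).trans ?_
      exact Pr_mono ok (fun F _ h => Or.inr h)
  have e2 := pr_BArm (1/2) (r := m) hsub
  have i1 := Pr_harris ok (S := sh x S) (A := fun F => m = 0 ∨ Circ m ((3 * m : ℕ) : ℤ) F)
    (B := BArm m n) (fun F G h _ hF => hF.imp id (fun h1 => h1.mono h)) (fun F G h _ hF => hF.mono h)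
  rw [e2] at i1
  exact (mul_le_mul_of_nonneg_right e1 (barm_nonneg hf0 hf1 _ _)).trans i1

/-- **Lower bound for the probability that two connected sets of vertices are joined.** -/
theorem join_lower {m1 m2 D : ℕ} (hD : 1 ≤ D) (h1 : 3 * m1 ≤ D) (h2 : 3 * m2 ≤ D) {x1 x2 : Vtx}
    (hx : |x1.1 - x2.1| ≤ D) (hy : |x1.2 - x2.2| ≤ D) {N1 N2 : Set Vtx} (hx1 : x1 ∈ N1)
    (hx2 : x2 ∈ N2)
    (hN1 : 0 < m1 → ∃ b, Reach (EN N1) x1 b ∧ (b.1 ≤ x1.1 - (3 * m1 : ℕ) ∨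
      x1.1 + (3 * m1 : ℕ) ≤ b.1 ∨ b.2 ≤ x1.2 - (3 * m1 : ℕ) ∨ x1.2 + (3 * m1 : ℕ) ≤ b.2))
    (hN2 : 0 < m2 → ∃ b, Reach (EN N2) x2 b ∧ (b.1 ≤ x2.1 - (3 * m2 : ℕ) ∨
      x2.1 + (3 * m2 : ℕ) ≤ b.1 ∨ b.2 ≤ x2.2 - (3 * m2 : ℕ) ∨ x2.2 + (3 * m2 : ℕ) ≤ b.2)) :
    kap ^ 3 * (barm (1/2) m1 (7 * D) * barm (1/2) m2 (7 * D)) ≤
      Pr (fun _ => (1/2:ℝ)) (bx x1 ((8 * D : ℕ) : ℤ)) (fun F => ∃ u ∈ N1, ∃ v ∈ N2,
        Reach (↑F : Set Edg) u v) := by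
  have ok := okhalf
  set S := bx x1 ((8 * D : ℕ) : ℤ) with hS
  have hx' := abs_le.mp hx
  have hy' := abs_le.mp hy
  have s1 : bx x1 ((7 * D : ℕ) : ℤ) ⊆ S := by
    rw [hS]; unfold bx; apply RE_subset <;> push_cast <;> omega
  have s2 : bx x2 ((7 * D : ℕ) : ℤ) ⊆ S := by
    rw [hS]; unfold bx; apply RE_subset <;> push_cast <;> omega
  have e1 := pr_Ev (m := m1) (n := 7 * D) (by omega) s1
  have e2 := pr_Ev (m := m2) (n := 7 * D) (by omega) s2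
  have s3 : boxE (3 * (2 * D)) ⊆ sh x1 S := by
    have h3 : bx x1 ((3 * (2 * D) : ℕ) : ℤ) ⊆ S := by
      rw [hS]; unfold bx; apply RE_subset <;> push_cast <;> omega
    have := sh_mono (x := x1) h3
    rw [sh_bx] at this
    exact this
  have e3 : kap ≤ Pr (fun _ => (1/2:ℝ)) S
      (fun F => Circ ((2 * D : ℕ) : ℤ) ((3 * (2 * D) : ℕ) : ℤ) (sh x1 F)) := by
    have := pr_CircP ok (fun _ => le_rfl) (r := 2 * D) (by omega) s3
    unfold sh at this ⊢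
    rw [LSym.pr] at this
    exact this
  have i1 := Pr_harris ok (S := S) (A := Ev m1 (7 * D) x1) (B := Ev m2 (7 * D) x2)
    (fun F G h _ hF => hF.mono h) (fun F G h _ hF => hF.mono h)
  have i2 := Pr_harris ok (S := S) (A := fun F => Ev m1 (7 * D) x1 F ∧ Ev m2 (7 * D) x2 F)
    (B := fun F => Circ ((2 * D : ℕ) : ℤ) ((3 * (2 * D) : ℕ) : ℤ) (sh x1 F))
    (fun F G h _ hF => ⟨hF.1.mono h, hF.2.mono h⟩) (fun F G h _ hF => hF.mono (sh_mono h))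
  have i3 : Pr (fun _ => (1/2:ℝ)) S (fun F => (Ev m1 (7 * D) x1 F ∧ Ev m2 (7 * D) x2 F) ∧
      Circ ((2 * D : ℕ) : ℤ) ((3 * (2 * D) : ℕ) : ℤ) (sh x1 F)) ≤
      Pr (fun _ => (1/2:ℝ)) S (fun F => ∃ u ∈ N1, ∃ v ∈ N2, Reach (↑F : Set Edg) u v) := by
    apply Pr_mono ok
    rintro F _ ⟨⟨k1, k2⟩, k3⟩
    obtain ⟨y1, hy1, hin1, v1, hv1, hr1⟩ := k1.use (by omega) hx1 hN1
    obtain ⟨y2, hy2, hin2, v2, hv2, hr2⟩ := k2.use (by omega) hx2 hN2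
    obtain ⟨z, hz⟩ := circ_meet (R1 := ((2 * D : ℕ) : ℤ)) (R2 := ((3 * (2 * D) : ℕ) : ℤ))
      (by omega) (by omega) k3
    refine ⟨y1, hy1, y2, hy2, ?_⟩
    have meet : ∀ y v : Vtx, inR (x1.1 - (2 * D : ℕ)) (x1.1 + (2 * D : ℕ)) (x1.2 - (2 * D : ℕ))
        (x1.2 + (2 * D : ℕ)) y → (v.1 ≤ x1.1 - (3 * (2 * D) : ℕ) ∨ x1.1 + (3 * (2 * D) : ℕ) ≤ v.1 ∨
        v.2 ≤ x1.2 - (3 * (2 * D) : ℕ) ∨ x1.2 + (3 * (2 * D) : ℕ) ≤ v.2) →
        Reach (↑F : Set Edg) y v → Reach (↑F : Set Edg) y (z.1 + x1.1, z.2 + x1.2) := by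
      intro y v hy hv hr
      have hr' : Reach (↑(sh x1 F) : Set Edg) (y.1 - x1.1, y.2 - x1.2) (v.1 - x1.1, v.2 - x1.2) := by
        rw [coe_sh, reach_shS]; exact hr
      have hin : inR (-((3 * (2 * D) : ℕ) : ℤ)) ((3 * (2 * D) : ℕ) : ℤ)
          (-((3 * (2 * D) : ℕ) : ℤ)) ((3 * (2 * D) : ℕ) : ℤ) (y.1 - x1.1, y.2 - x1.2) := by
        unfold inR at hy ⊢
        simp only
        push_cast at hy ⊢
        omega
      obtain ⟨w, l1, l2, l3⟩ := first_exit hin hr' (by simp only; omega)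
      have := hz (y.1 - x1.1, y.2 - x1.2) w (by unfold inR at hy ⊢; simp only; omega) l2 l3
      have h9 := this.mono Set.inter_subset_left
      rw [coe_sh, reach_shS'] at h9
      simpa using h9
    have q1 := meet y1 v1 (by unfold inR at hin1 ⊢; omega) (by push_cast at hv1 ⊢; omega) hr1
    have q2 := meet y2 v2 (by unfold inR at hin2 ⊢; omega) (by push_cast at hv2 ⊢; omega) hr2
    exact q1.trans q2.symm
  have hb1 := barm_nonneg hf0 hf1 m1 (7 * D)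
  have hb2 := barm_nonneg hf0 hf1 m2 (7 * D)
  have hk := kap_pos
  have n1 : 0 ≤ kap * barm (1/2) m1 (7 * D) := mul_nonneg hk.le hb1
  have n2 : 0 ≤ kap * barm (1/2) m2 (7 * D) := mul_nonneg hk.le hb2
  have j1 : (kap * barm (1/2) m1 (7 * D)) * (kap * barm (1/2) m2 (7 * D)) ≤
      Pr (fun _ => (1/2:ℝ)) S (fun F => Ev m1 (7 * D) x1 F ∧ Ev m2 (7 * D) x2 F) :=
    (mul_le_mul e1 e2 n2 (n1.trans e1)).trans i1
  have j0 : 0 ≤ (kap * barm (1/2) m1 (7 * D)) * (kap * barm (1/2) m2 (7 * D)) := mul_nonneg n1 n2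
  have j2 := (mul_le_mul j1 e3 hk.le (j0.trans j1)).trans (i2.trans i3)
  refine le_trans (le_of_eq ?_) j2
  ring

end Pool.Agent.Y996.RD
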