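import Mathlib

/-!
Lower bound for the Dirichlet energy of a function taking different values on two connected sets.
-/

set_option autoImplicit false

namespace Pool.Agent.Y996.RD

open MeasureTheory Set

/-! ## one-dimensional inequalities -/

theorem cs_w {a b : ℝ} (hab : a ≤ b) {w f : ℝ → ℝ} (hw : ContinuousOn w (Icc a b))
    (hf : ContinuousOn f (Icc a b)) (hpos : ∀ x ∈ Icc a b, 0 < w x) :
    (∫ x in a..b, f x) ^ 2 ≤ (∫ x in a..b, (w x)⁻¹) * ∫ x in a..b, w x * f x ^ 2 := by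
  have hw' : ContinuousOn (fun x => (w x)⁻¹) (Icc a b) := hw.inv₀ (fun x hx => (hpos x hx).ne')
  have i1 : IntervalIntegrable (fun x => (w x)⁻¹) volume a b :=
    (hw'.mono (by rw [uIcc_of_le hab])).intervalIntegrable
  have i2 : IntervalIntegrable f volume a b :=
    (hf.mono (by rw [uIcc_of_le hab])).intervalIntegrable
  have i3 : IntervalIntegrable (fun x => w x * f x ^ 2) volume a b :=
    ((hw.mul (hf.pow 2)).mono (by rw [uIcc_of_le hab])).intervalIntegrable
  have key : ∀ y : ℝ, 0 ≤ (∫ x in a..b, (w x)⁻¹) * (y * y) + (-2 * ∫ x in a..b, f x) * y +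
      ∫ x in a..b, w x * f x ^ 2 := by
    intro y
    have e : (∫ x in a..b, (w x)⁻¹) * (y * y) + (-2 * ∫ x in a..b, f x) * y +
        ∫ x in a..b, w x * f x ^ 2
        = ∫ x in a..b, ((w x)⁻¹ * (y * y) + (-2 * y) * f x + w x * f x ^ 2) := by
      rw [intervalIntegral.integral_add ((i1.mul_const _).add (i2.const_mul _)) i3,
        intervalIntegral.integral_add (i1.mul_const _) (i2.const_mul _),
        intervalIntegral.integral_mul_const, intervalIntegral.integral_const_mul]
      ring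
    rw [e]
    apply intervalIntegral.integral_nonneg hab
    intro x hx
    have hp := hpos x hx
    have e2 : (w x)⁻¹ * (y * y) + (-2 * y) * f x + w x * f x ^ 2 =
        (w x)⁻¹ * (y - w x * f x) ^ 2 := by
      field_simp
      ring
    rw [e2]
    positivity
  have h := discrim_le_zero key
  unfold discrim at h
  nlinarith

theorem cs_1 {a b : ℝ} (hab : a ≤ b) {f : ℝ → ℝ} (hf : ContinuousOn f (Icc a b)) :
    (∫ x in a..b, f x) ^ 2 ≤ (b - a) * ∫ x in a..b, f x ^ 2 := by
  have h := cs_w hab (w := fun _ => 1) continuousOn_const hf (fun _ _ => one_pos)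
  simpa using h

theorem osc_1 {v v' B : ℝ → ℝ} (hv : ∀ x, HasDerivAt v (v' x) x) (hv' : Continuous v')
    (hb : ∀ x, |v' x| ≤ B x) (hB : Continuous B) {a b : ℝ} {x y : ℝ}
    (hx : x ∈ Icc a b) (hy : y ∈ Icc a b) : |v y - v x| ≤ ∫ t in a..b, B t := by
  have h0 : ∀ t, 0 ≤ B t := fun t => (abs_nonneg _).trans (hb t)
  have key : ∀ x y : ℝ, x ∈ Icc a b → y ∈ Icc a b → x ≤ y →
      |v y - v x| ≤ ∫ t in a..b, B t := by
    intro x y hx hy hxy
    rw [← intervalIntegral.integral_eq_sub_of_hasDerivAt (fun t _ => hv t)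
      (hv'.intervalIntegrable _ _)]
    calc |∫ t in x..y, v' t| ≤ ∫ t in x..y, B t := by
          rw [← Real.norm_eq_abs]
          exact intervalIntegral.norm_integral_le_of_norm_le hxy
            (Filter.Eventually.of_forall fun t _ => hb t) (hB.intervalIntegrable _ _)
      _ ≤ ∫ t in a..b, B t := by
          apply intervalIntegral.integral_mono_interval hx.1 hxy hy.2
            (Filter.Eventually.of_forall h0) (hB.intervalIntegrable _ _)
  rcases le_total x y with h | h
  · exact key x y hx hy h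
  · rw [abs_sub_comm]; exact key y x hy hx h

theorem comb {x y c c' e e' : ℝ} (hc : 0 ≤ c) (hc' : 0 ≤ c') (he : 0 ≤ e) (he' : 0 ≤ e')
    (h : x ^ 2 ≤ c * e) (h' : y ^ 2 ≤ c' * e') : (x + y) ^ 2 ≤ (c + c') * (e + e') := by
  have h1 : (x * y) ^ 2 ≤ ((c * e' + c' * e) / 2) ^ 2 := by
    have : (x * y) ^ 2 ≤ (c * e) * (c' * e') := by
      rw [mul_pow]; exact mul_le_mul h h' (sq_nonneg _) (by positivity)
    nlinarith [sq_nonneg (c * e' - c' * e)]
  have h2 := abs_le_of_sq_le_sq h1 (by positivity)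
  nlinarith [le_abs_self (x * y)]

/-! ## polar coordinates -/

/-- the point at distance `r` and angle `θ` from `z0` -/
noncomputable def pc (z0 : ℂ) (r θ : ℝ) : ℂ := z0 + r * (Real.cos θ + Real.sin θ * Complex.I)

theorem pc_cont (z0 : ℂ) : Continuous (fun p : ℝ × ℝ => pc z0 p.1 p.2) := by
  unfold pc; fun_prop

theorem norm_cs (θ : ℝ) : ‖((Real.cos θ : ℂ) + Real.sin θ * Complex.I)‖ = 1 := by
  have := Complex.norm_polarCoord_symm (1, θ)
  rw [Complex.polarCoord_symm_apply] at this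
  simp

theorem dist_pc (z0 : ℂ) (r θ : ℝ) : dist (pc z0 r θ) z0 = |r| := by
  unfold pc
  rw [dist_eq_norm, add_sub_cancel_left, norm_mul, norm_cs, mul_one, Complex.norm_real,
    Real.norm_eq_abs]

theorem pc_surj (z0 z : ℂ) : ∃ θ ∈ Icc (-Real.pi) Real.pi, pc z0 (dist z z0) θ = z := by
  refine ⟨Complex.arg (z - z0), ⟨(Complex.neg_pi_lt_arg _).le, Complex.arg_le_pi _⟩, ?_⟩
  unfold pc
  rw [dist_eq_norm]
  have := Complex.norm_mul_cos_add_sin_mul_I (z - z0)
  push_cast
  rw [this]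
  ring

theorem pc_deriv_θ (z0 : ℂ) (r θ : ℝ) :
    HasDerivAt (fun t => pc z0 r t) (r * (-Real.sin θ + Real.cos θ * Complex.I)) θ := by
  unfold pc
  have h1 : HasDerivAt (fun t : ℝ => (Real.cos t : ℂ)) ((-Real.sin θ : ℝ) : ℂ) θ :=
    (Real.hasDerivAt_cos θ).ofReal_comp
  have h2 : HasDerivAt (fun t : ℝ => (Real.sin t : ℂ)) ((Real.cos θ : ℝ) : ℂ) θ :=
    (Real.hasDerivAt_sin θ).ofReal_comp
  exact (((h1.fun_add (h2.mul_const Complex.I)).const_mul (r:ℂ)).const_add z0).congr_deriv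
    (by push_cast; rfl)

theorem pc_deriv_r (z0 : ℂ) (r θ : ℝ) :
    HasDerivAt (fun t => pc z0 t θ) (Real.cos θ + Real.sin θ * Complex.I) r := by
  unfold pc
  have h1 : HasDerivAt (fun t : ℝ => (t : ℂ)) 1 r := by
    simpa using (hasDerivAt_id r).ofReal_comp
  have h3 := (h1.mul_const ((Real.cos θ : ℂ) + Real.sin θ * Complex.I)).const_add z0
  rw [one_mul] at h3
  exact h3

theorem norm_sc (r θ : ℝ) : ‖(r : ℂ) * (-Real.sin θ + Real.cos θ * Complex.I)‖ = |r| := by
  have e : (r : ℂ) * (-Real.sin θ + Real.cos θ * Complex.I) =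
      r * (Complex.I * (Real.cos θ + Real.sin θ * Complex.I)) := by
    have := Complex.I_sq
    linear_combination (-(r:ℂ) * Real.sin θ) * this
  rw [e, norm_mul, norm_mul, norm_cs, Complex.norm_I, Complex.norm_real, Real.norm_eq_abs]
  ring

section meas

open scoped ENNReal

/-- the energy measure -/
noncomputable def en (u : ℂ → ℝ) : Measure ℂ :=
  volume.withDensity (fun z => ENNReal.ofReal (‖fderiv ℝ u z‖ ^ 2))

theorem ann_meas (z0 : ℂ) (s t : ℝ) : MeasurableSet {z : ℂ | s < dist z z0 ∧ dist z z0 ≤ t} := by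
  have hd : Measurable (fun z : ℂ => dist z z0) := (continuous_id.dist continuous_const).measurable
  have h1 : MeasurableSet {z : ℂ | s < dist z z0} := measurableSet_lt measurable_const hd
  have h2 : MeasurableSet {z : ℂ | dist z z0 ≤ t} := measurableSet_le hd measurable_const
  exact h1.inter h2

theorem polar_lint (f : ℂ → ℝ≥0∞) (hf : Measurable f) (z0 : ℂ) {s t : ℝ} (hs : 0 ≤ s) :
    ∫⁻ r in Ioc s t, ∫⁻ θ in Ioc (-Real.pi) Real.pi, ENNReal.ofReal r * f (pc z0 r θ) ≤
      ∫⁻ z in {z | s < dist z z0 ∧ dist z z0 ≤ t}, f z := by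
  obtain ⟨A, hA⟩ : ∃ A : Set ℂ, A = {z | s < dist z z0 ∧ dist z z0 ≤ t} := ⟨_, rfl⟩
  rw [← hA]
  have hAm : MeasurableSet A := by
    rw [hA]
    exact ann_meas z0 s t
  have hmf : Measurable (A.indicator f) := hf.indicator hAm
  rw [← lintegral_indicator hAm, ← lintegral_add_left_eq_self (A.indicator f) z0,
    ← Complex.lintegral_comp_polarCoord_symm, polarCoord_target]
  have e1 : (volume : Measure (ℝ × ℝ)).restrict (Ioi (0:ℝ) ×ˢ Ioo (-Real.pi) Real.pi) =
      (volume.restrict (Ioi (0:ℝ))).prod (volume.restrict (Ioo (-Real.pi) Real.pi)) := by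
    rw [Measure.prod_restrict]; rfl
  rw [e1, lintegral_prod]
  · calc ∫⁻ r in Ioc s t, ∫⁻ θ in Ioc (-Real.pi) Real.pi, ENNReal.ofReal r * f (pc z0 r θ)
        = ∫⁻ r in Ioc s t, ∫⁻ θ in Ioo (-Real.pi) Real.pi,
            ENNReal.ofReal r • A.indicator f (z0 + Complex.polarCoord.symm (r, θ)) := by
          apply setLIntegral_congr_fun measurableSet_Ioc
          intro r hr
          simp only
          rw [restrict_Ioo_eq_restrict_Ioc]
          apply lintegral_congr
          intro θ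
          have hm : z0 + Complex.polarCoord.symm (r, θ) = pc z0 r θ := by
            rw [Complex.polarCoord_symm_apply]; rfl
          rw [hm, smul_eq_mul, Set.indicator_of_mem]
          rw [hA, Set.mem_ofPred_eq, dist_pc, abs_of_pos (hs.trans_lt hr.1)]
          exact hr
      _ ≤ _ := by
          apply lintegral_mono_set
          intro r hr
          exact hs.trans_lt hr.1
  · apply Measurable.aemeasurable
    have hc : Continuous (fun p : ℝ × ℝ => z0 + Complex.polarCoord.symm p) := by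
      simp only [Complex.polarCoord_symm_apply]
      fun_prop
    simp only [smul_eq_mul]
    exact (measurable_fst.ennreal_ofReal).mul (hmf.comp hc.measurable)

theorem ofReal_dbl {F : ℝ → ℝ → ℝ} (hF : Continuous (fun p : ℝ × ℝ => F p.1 p.2))
    {s t a b : ℝ} (hst : s ≤ t) (hab : a ≤ b) (h0 : ∀ x ∈ Ioc s t, ∀ y ∈ Ioc a b, 0 ≤ F x y) :
    ENNReal.ofReal (∫ x in s..t, ∫ y in a..b, F x y) =
      ∫⁻ x in Ioc s t, ∫⁻ y in Ioc a b, ENNReal.ofReal (F x y) := by
  have hc : Continuous (fun x => ∫ y in a..b, F x y) :=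
    intervalIntegral.continuous_parametric_intervalIntegral_of_continuous' hF a b
  rw [intervalIntegral.integral_of_le hst, ofReal_integral_eq_lintegral_ofReal]
  · apply setLIntegral_congr_fun measurableSet_Ioc
    intro x hx
    simp only
    have hcx : Continuous (F x) := hF.comp (Continuous.prodMk_right x)
    rw [intervalIntegral.integral_of_le hab, ofReal_integral_eq_lintegral_ofReal]
    · exact (hcx.integrableOn_Icc (a := a) (b := b)).mono_set Ioc_subset_Icc_self
    · exact (ae_restrict_iff' measurableSet_Ioc).mpr (Filter.Eventually.of_forall (h0 x hx))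
  · exact (hc.integrableOn_Icc (a := s) (b := t)).mono_set Ioc_subset_Icc_self
  · refine (ae_restrict_iff' measurableSet_Ioc).mpr (Filter.Eventually.of_forall ?_)
    intro x hx
    show 0 ≤ ∫ y in a..b, F x y
    rw [intervalIntegral.integral_of_le hab]
    exact setIntegral_nonneg measurableSet_Ioc (h0 x hx)

end meas

theorem dens_cont {u : ℂ → ℝ} (hu : ContDiff ℝ 1 u) : Continuous (fun z => ‖fderiv ℝ u z‖) :=
  (hu.continuous_fderiv one_ne_zero).norm

/-- the energy in an annulus in polar coordinates -/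
theorem polar_en {u : ℂ → ℝ} (hu : ContDiff ℝ 1 u) (hfin : en u univ ≠ ⊤) (z0 : ℂ) {s t : ℝ}
    (hs : 0 ≤ s) (hst : s ≤ t) :
    (∫ r in s..t, ∫ θ in (-Real.pi)..Real.pi, r * ‖fderiv ℝ u (pc z0 r θ)‖ ^ 2) ≤
      (en u).real {z | s < dist z z0 ∧ dist z z0 ≤ t} := by
  have hd := dens_cont hu
  have hAm := ann_meas z0 s t
  have hlt : en u {z | s < dist z z0 ∧ dist z z0 ≤ t} ≠ ⊤ :=
    ne_top_of_le_ne_top hfin (measure_mono (subset_univ _))
  rw [measureReal_def]
  have hF : Continuous (fun p : ℝ × ℝ => p.1 * ‖fderiv ℝ u (pc z0 p.1 p.2)‖ ^ 2) :=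
    continuous_fst.mul ((hd.comp (pc_cont z0)).pow 2)
  refine (ENNReal.ofReal_le_iff_le_toReal hlt).mp ?_
  rw [ofReal_dbl (F := fun r θ => r * ‖fderiv ℝ u (pc z0 r θ)‖ ^ 2) hF hst
    (by linarith [Real.pi_pos])
    (fun x hx y _ => mul_nonneg (hs.trans hx.1.le) (sq_nonneg _))]
  unfold en
  rw [withDensity_apply _ hAm]
  refine le_trans (le_of_eq ?_) (polar_lint (fun z => ENNReal.ofReal (‖fderiv ℝ u z‖ ^ 2))
    ((hd.pow 2).measurable.ennreal_ofReal) z0 hs)
  apply setLIntegral_congr_fun measurableSet_Ioc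
  intro r hr
  simp only
  apply lintegral_congr
  intro θ
  rw [ENNReal.ofReal_mul (hs.trans hr.1.le)]

/-! ## the two circle estimates -/

/-- the mean on a circle -/
noncomputable def cm (u : ℂ → ℝ) (z0 : ℂ) (r : ℝ) : ℝ :=
  (∫ θ in (-Real.pi)..Real.pi, u (pc z0 r θ)) / (2 * Real.pi)

/-- the energy of a circle -/
noncomputable def ce (u : ℂ → ℝ) (z0 : ℂ) (r : ℝ) : ℝ :=
  ∫ θ in (-Real.pi)..Real.pi, ‖fderiv ℝ u (pc z0 r θ)‖ ^ 2

theorem circle_osc {u : ℂ → ℝ} (hu : ContDiff ℝ 1 u) (z0 : ℂ) {r : ℝ} (hr : 0 ≤ r) {z : ℂ}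
    (hz : dist z z0 = r) : (cm u z0 r - u z) ^ 2 ≤ 2 * Real.pi * r ^ 2 * ce u z0 r := by
  have hpi := Real.pi_pos
  obtain ⟨α, hα, hzα⟩ := pc_surj z0 z
  rw [hz] at hzα
  have hd := dens_cont hu
  have hcθ : Continuous (fun θ => pc z0 r θ) := (pc_cont z0).comp (Continuous.prodMk_right r)
  have hdf : Differentiable ℝ u := hu.differentiable one_ne_zero
  have hder : ∀ θ, HasDerivAt (fun t => u (pc z0 r t))
      (fderiv ℝ u (pc z0 r θ) (r * (-Real.sin θ + Real.cos θ * Complex.I))) θ := fun θ =>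
    (hdf (pc z0 r θ)).hasFDerivAt.comp_hasDerivAt θ (pc_deriv_θ z0 r θ)
  have hder_c : Continuous (fun θ : ℝ =>
      fderiv ℝ u (pc z0 r θ) (r * (-Real.sin θ + Real.cos θ * Complex.I))) := by
    apply Continuous.clm_apply
    · exact (hu.continuous_fderiv one_ne_zero).comp hcθ
    · fun_prop
  have hBc : Continuous (fun θ => r * ‖fderiv ℝ u (pc z0 r θ)‖) :=
    continuous_const.mul (hd.comp hcθ)
  have hosc : ∀ β ∈ Icc (-Real.pi) Real.pi, |u (pc z0 r β) - u (pc z0 r α)| ≤
      ∫ θ in (-Real.pi)..Real.pi, r * ‖fderiv ℝ u (pc z0 r θ)‖ := by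
    intro β hβ
    refine osc_1 hder hder_c ?_ hBc hα hβ
    intro θ
    rw [← Real.norm_eq_abs]
    refine (ContinuousLinearMap.le_opNorm _ _).trans ?_
    rw [norm_sc, abs_of_nonneg hr, mul_comm]
  obtain ⟨D, hD⟩ : ∃ D, D = ∫ θ in (-Real.pi)..Real.pi, r * ‖fderiv ℝ u (pc z0 r θ)‖ := ⟨_, rfl⟩
  rw [← hD] at hosc
  have hcu : Continuous (fun θ => u (pc z0 r θ)) := hu.continuous.comp hcθ
  have h1 : |cm u z0 r - u z| ≤ D := by
    have e : cm u z0 r - u z =
        (∫ θ in (-Real.pi)..Real.pi, (u (pc z0 r θ) - u (pc z0 r α))) / (2 * Real.pi) := by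
      rw [intervalIntegral.integral_sub (hcu.intervalIntegrable _ _)
        (continuous_const.intervalIntegrable _ _), intervalIntegral.integral_const, hzα]
      unfold cm
      rw [smul_eq_mul]
      field_simp
      ring
    rw [e, abs_div, abs_of_pos (show 0 < 2 * Real.pi by positivity), div_le_iff₀ (by positivity)]
    have := intervalIntegral.norm_integral_le_of_norm_le_const (a := -Real.pi) (b := Real.pi)
      (f := fun θ => u (pc z0 r θ) - u (pc z0 r α)) (C := D) (by
        intro x hx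
        rw [Real.norm_eq_abs]
        apply hosc
        rw [uIoc_of_le (by linarith)] at hx
        exact Ioc_subset_Icc_self hx)
    rw [Real.norm_eq_abs] at this
    refine this.trans (le_of_eq ?_)
    rw [abs_of_nonneg (by linarith)]
    ring
  have h2 : D ^ 2 ≤ 2 * Real.pi * (r ^ 2 * ce u z0 r) := by
    have := cs_1 (a := -Real.pi) (b := Real.pi) (by linarith) hBc.continuousOn
    rw [← hD] at this
    refine this.trans (le_of_eq ?_)
    have e : ∫ θ in (-Real.pi)..Real.pi, (r * ‖fderiv ℝ u (pc z0 r θ)‖) ^ 2 = r ^ 2 * ce u z0 r := by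
      unfold ce
      rw [← intervalIntegral.integral_const_mul]
      congr 1
      ext θ
      ring
    rw [e]
    ring
  calc (cm u z0 r - u z) ^ 2 = |cm u z0 r - u z| ^ 2 := (sq_abs _).symm
    _ ≤ D ^ 2 := pow_le_pow_left₀ (abs_nonneg _) h1 2
    _ ≤ _ := by rw [← mul_assoc] at h2; exact h2

theorem dbl_swap {F : ℝ → ℝ → ℝ} (hF : Continuous (fun p : ℝ × ℝ => F p.1 p.2))
    {s t a b : ℝ} (hst : s ≤ t) (hab : a ≤ b) :
    (∫ x in s..t, ∫ y in a..b, F x y) = ∫ y in a..b, ∫ x in s..t, F x y := by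
  simp only [intervalIntegral.integral_of_le hst, intervalIntegral.integral_of_le hab]
  rw [integral_integral_swap]
  rw [Measure.prod_restrict]
  have : IntegrableOn (Function.uncurry F) (Icc s t ×ˢ Icc a b) (volume.prod volume) :=
    ContinuousOn.integrableOn_compact (isCompact_Icc.prod isCompact_Icc)
      (Continuous.continuousOn hF)
  exact this.mono_set (prod_mono Ioc_subset_Icc_self Ioc_subset_Icc_self)

theorem radial {u : ℂ → ℝ} (hu : ContDiff ℝ 1 u) (hfin : en u univ ≠ ⊤) (z0 : ℂ) {s t : ℝ}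
    (hs : 0 < s) (hst : s ≤ t) :
    (cm u z0 t - cm u z0 s) ^ 2 ≤ Real.log (t / s) / (2 * Real.pi) *
      (en u).real {z | s < dist z z0 ∧ dist z z0 ≤ t} := by
  have hpi := Real.pi_pos
  have hd := dens_cont hu
  have hdf : Differentiable ℝ u := hu.differentiable one_ne_zero
  have hen := polar_en hu hfin z0 hs.le hst
  obtain ⟨E, hE⟩ : ∃ E, E = (en u).real {z | s < dist z z0 ∧ dist z z0 ≤ t} := ⟨_, rfl⟩
  rw [← hE] at hen ⊢
  have hFc : Continuous (fun p : ℝ × ℝ => p.1 * ‖fderiv ℝ u (pc z0 p.1 p.2)‖ ^ 2) :=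
    continuous_fst.mul ((hd.comp (pc_cont z0)).pow 2)
  rw [dbl_swap (F := fun r θ => r * ‖fderiv ℝ u (pc z0 r θ)‖ ^ 2) hFc hst (by linarith)] at hen
  -- the radial bound for each angle
  have hL : ∫ x in s..t, x⁻¹ = Real.log (t / s) := by
    rw [integral_inv_of_pos hs (hs.trans_le hst)]
  have hcr : ∀ θ, Continuous (fun r => pc z0 r θ) := fun θ =>
    (pc_cont z0).comp (Continuous.prodMk_left θ)
  have hrad : ∀ θ, (u (pc z0 t θ) - u (pc z0 s θ)) ^ 2 ≤ Real.log (t / s) *
      ∫ r in s..t, r * ‖fderiv ℝ u (pc z0 r θ)‖ ^ 2 := by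
    intro θ
    have h1 : |u (pc z0 t θ) - u (pc z0 s θ)| ≤ ∫ r in s..t, ‖fderiv ℝ u (pc z0 r θ)‖ := by
      refine osc_1 (v := fun r => u (pc z0 r θ))
        (v' := fun r => fderiv ℝ u (pc z0 r θ) (Real.cos θ + Real.sin θ * Complex.I))
        (fun r => (hdf (pc z0 r θ)).hasFDerivAt.comp_hasDerivAt r (pc_deriv_r z0 r θ))
        (Continuous.clm_apply ((hu.continuous_fderiv one_ne_zero).comp (hcr θ)) continuous_const)
        ?_ (hd.comp (hcr θ)) ⟨le_rfl, hst⟩ ⟨hst, le_rfl⟩
      intro r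
      rw [← Real.norm_eq_abs]
      refine (ContinuousLinearMap.le_opNorm _ _).trans ?_
      rw [norm_cs, mul_one]
      rfl
    have h2 := cs_w hst (w := fun x => x) (f := fun r => ‖fderiv ℝ u (pc z0 r θ)‖)
      continuousOn_id (hd.comp (hcr θ)).continuousOn (fun x hx => hs.trans_le hx.1)
    rw [hL] at h2
    refine le_trans ?_ h2
    rw [← sq_abs]
    exact pow_le_pow_left₀ (abs_nonneg _) h1 2
  have hcθ : ∀ r, Continuous (fun θ => u (pc z0 r θ)) := fun r =>
    hu.continuous.comp ((pc_cont z0).comp (Continuous.prodMk_right r))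
  have e : cm u z0 t - cm u z0 s =
      (∫ θ in (-Real.pi)..Real.pi, (u (pc z0 t θ) - u (pc z0 s θ))) / (2 * Real.pi) := by
    rw [intervalIntegral.integral_sub ((hcθ t).intervalIntegrable _ _)
      ((hcθ s).intervalIntegrable _ _)]
    unfold cm
    ring
  have h3 := cs_1 (a := -Real.pi) (b := Real.pi) (by linarith)
    (f := fun θ => u (pc z0 t θ) - u (pc z0 s θ)) ((hcθ t).sub (hcθ s)).continuousOn
  have hlog : 0 ≤ Real.log (t / s) := Real.log_nonneg (by rw [le_div_iff₀ hs]; linarith)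
  have hin : Continuous (fun θ => ∫ r in s..t, r * ‖fderiv ℝ u (pc z0 r θ)‖ ^ 2) := by
    apply intervalIntegral.continuous_parametric_intervalIntegral_of_continuous'
      (f := fun θ r => r * ‖fderiv ℝ u (pc z0 r θ)‖ ^ 2)
    exact hFc.comp continuous_swap
  have h4 : ∫ θ in (-Real.pi)..Real.pi, (u (pc z0 t θ) - u (pc z0 s θ)) ^ 2 ≤
      Real.log (t / s) * E := by
    calc ∫ θ in (-Real.pi)..Real.pi, (u (pc z0 t θ) - u (pc z0 s θ)) ^ 2
        ≤ ∫ θ in (-Real.pi)..Real.pi, Real.log (t / s) *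
            ∫ r in s..t, r * ‖fderiv ℝ u (pc z0 r θ)‖ ^ 2 := by
          apply intervalIntegral.integral_mono_on (by linarith)
          · exact (((hcθ t).sub (hcθ s)).pow 2).intervalIntegrable _ _
          · exact (continuous_const.mul hin).intervalIntegrable _ _
          · intro θ _
            exact hrad θ
      _ = Real.log (t / s) * ∫ θ in (-Real.pi)..Real.pi,
            ∫ r in s..t, r * ‖fderiv ℝ u (pc z0 r θ)‖ ^ 2 := by
          rw [intervalIntegral.integral_const_mul]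
      _ ≤ Real.log (t / s) * E := mul_le_mul_of_nonneg_left hen hlog
  rw [e, div_pow, div_le_iff₀ (by positivity)]
  calc (∫ θ in (-Real.pi)..Real.pi, (u (pc z0 t θ) - u (pc z0 s θ))) ^ 2
      ≤ (Real.pi - -Real.pi) * (Real.log (t / s) * E) :=
        h3.trans (mul_le_mul_of_nonneg_left h4 (by linarith))
    _ = Real.log (t / s) / (2 * Real.pi) * E * (2 * Real.pi) ^ 2 := by field_simp; ring

end Pool.Agent.Y996.RD
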