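import Mathlib
import Pool.Agent.Y996.RD.Polar

/-!
Lower bound for the Dirichlet energy, continued: the two discs and the region between them.
-/

set_option autoImplicit false

namespace Pool.Agent.Y996.RD

open MeasureTheory Set

open scoped ENNReal

theorem mr_mono {μ : Measure ℂ} [IsFiniteMeasure μ] {s t : Set ℂ} (h : s ⊆ t) :
    μ.real s ≤ μ.real t := measureReal_mono h

theorem ce_cont {u : ℂ → ℝ} (hu : ContDiff ℝ 1 u) (z0 : ℂ) : Continuous (ce u z0) := by
  unfold ce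
  apply intervalIntegral.continuous_parametric_intervalIntegral_of_continuous'
    (f := fun r θ => ‖fderiv ℝ u (pc z0 r θ)‖ ^ 2)
  exact ((dens_cont hu).comp (pc_cont z0)).pow 2

theorem polar_ce {u : ℂ → ℝ} (hu : ContDiff ℝ 1 u) (hfin : en u univ ≠ ⊤) (z0 : ℂ) {s t : ℝ}
    (hs : 0 ≤ s) (hst : s ≤ t) :
    (∫ r in s..t, r * ce u z0 r) ≤ (en u).real {z | s < dist z z0 ∧ dist z z0 ≤ t} := by
  refine le_trans (le_of_eq ?_) (polar_en hu hfin z0 hs hst)
  unfold ce
  congr 1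
  ext r
  rw [intervalIntegral.integral_const_mul]

theorem log_eighth {s t : ℝ} (hs : 0 < s) (hst : s ≤ t) (h : t ≤ 2 * s) :
    Real.log (t / s) / (2 * Real.pi) ≤ 1 / 8 := by
  have h1 : Real.log (t / s) ≤ Real.log 2 :=
    Real.log_le_log (by have := hs.trans_le hst; positivity) (by rw [div_le_iff₀ hs]; linarith)
  have h2 := Real.log_two_lt_d9
  have h3 := Real.pi_gt_three
  rw [div_le_iff₀ (by positivity)]
  linarith

theorem inner_step {u : ℂ → ℝ} (hu : ContDiff ℝ 1 u) (hfin : en u univ ≠ ⊤) (z0 : ℂ) {σ κ : ℝ}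
    (hσ : 0 < σ) (hK : ∀ r ∈ Icc (σ / 2) σ, ∃ z, dist z z0 = r ∧ u z = κ) :
    (cm u z0 σ - κ) ^ 2 ≤ 26 * (en u).real {z | σ / 2 < dist z z0 ∧ dist z z0 ≤ σ} := by
  have : IsFiniteMeasure (en u) := ⟨lt_top_iff_ne_top.mpr hfin⟩
  have hpi := Real.pi_pos
  obtain ⟨E, hE⟩ : ∃ E, E = (en u).real {z | σ / 2 < dist z z0 ∧ dist z z0 ≤ σ} := ⟨_, rfl⟩
  have hJ := polar_ce hu hfin z0 (s := σ / 2) (t := σ) (by positivity) (by linarith)
  rw [← hE] at hJ ⊢
  have hE0 : 0 ≤ E := by rw [hE]; exact measureReal_nonneg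
  have hce := ce_cont hu z0
  have key : ∀ r ∈ Icc (σ / 2) σ, (cm u z0 σ - κ) ^ 2 ≤
      E / 4 + 4 * Real.pi * σ * (r * ce u z0 r) := by
    intro r hr
    have hr0 : 0 < r := lt_of_lt_of_le (by positivity) hr.1
    obtain ⟨z, hz, hκ⟩ := hK r hr
    have h1 := circle_osc hu z0 hr0.le hz
    rw [hκ] at h1
    have h2 := radial hu hfin z0 hr0 hr.2
    have h3 := log_eighth hr0 hr.2 (by linarith [hr.1])
    have h4 : (en u).real {z | r < dist z z0 ∧ dist z z0 ≤ σ} ≤ E := by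
      rw [hE]
      refine mr_mono ?_
      · rintro w ⟨h5, h6⟩
        exact ⟨lt_of_le_of_lt hr.1 h5, h6⟩
    have h5 : (cm u z0 σ - cm u z0 r) ^ 2 ≤ 1 / 8 * E :=
      h2.trans (mul_le_mul h3 h4 measureReal_nonneg (by norm_num))
    have h6 : 0 ≤ ce u z0 r :=
      intervalIntegral.integral_nonneg (by linarith) (fun x _ => sq_nonneg _)
    have h7 : 2 * Real.pi * r ^ 2 * ce u z0 r ≤ 2 * Real.pi * σ * (r * ce u z0 r) := by
      have : r * ce u z0 r * r ≤ r * ce u z0 r * σ :=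
        mul_le_mul_of_nonneg_left hr.2 (mul_nonneg hr0.le h6)
      nlinarith
    nlinarith [sq_nonneg ((cm u z0 σ - cm u z0 r) - (cm u z0 r - κ))]
  have h1 : ∫ _r in (σ / 2)..σ, (cm u z0 σ - κ) ^ 2 ≤
      ∫ r in (σ / 2)..σ, (E / 4 + 4 * Real.pi * σ * (r * ce u z0 r)) := by
    apply intervalIntegral.integral_mono_on (by linarith)
    · exact continuous_const.intervalIntegrable _ _
    · apply Continuous.intervalIntegrable
      exact continuous_const.add (continuous_const.mul (continuous_id.mul hce))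
    · exact key
  have i0 : IntervalIntegrable (fun _ : ℝ => E / 4) volume (σ / 2) σ :=
    continuous_const.intervalIntegrable _ _
  have i1 : IntervalIntegrable (fun r => 4 * Real.pi * σ * (r * ce u z0 r)) volume (σ / 2) σ :=
    (continuous_const.mul (continuous_id.mul hce)).intervalIntegrable _ _
  rw [intervalIntegral.integral_const, intervalIntegral.integral_add i0 i1,
    intervalIntegral.integral_const, intervalIntegral.integral_const_mul, smul_eq_mul,
    smul_eq_mul] at h1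
  have h2 : 4 * Real.pi * σ * (∫ r in (σ / 2)..σ, r * ce u z0 r) ≤ 4 * Real.pi * σ * E :=
    mul_le_mul_of_nonneg_left hJ (by positivity)
  have h3 : σ * ((cm u z0 σ - κ) ^ 2) ≤ σ * (E / 4 + 8 * Real.pi * E) := by nlinarith
  have h4 := le_of_mul_le_mul_left h3 hσ
  have h5 := Real.pi_lt_d2
  nlinarith

/-! ## the middle region -/

theorem lint_rot (f : ℂ → ℝ≥0∞) (hf : Measurable f) (z1 ω : ℂ) (hω : ‖ω‖ = 1) :
    ∫⁻ x : ℝ, ∫⁻ y : ℝ, f (z1 + ω * (x + y * Complex.I)) = ∫⁻ z, f z := by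
  obtain ⟨a, ha⟩ : ∃ a : Circle, (a : ℂ) = ω := ⟨⟨ω, mem_sphere_zero_iff_norm.mpr hω⟩, rfl⟩
  have hg : Measurable (fun z => f (z1 + z)) := hf.comp (measurable_const_add z1)
  rw [← lintegral_add_left_eq_self f z1,
    ← (rotation a).measurePreserving.lintegral_comp hg]
  have hg2 : Measurable (fun z : ℂ => f (z1 + rotation a z)) :=
    hg.comp (rotation a).continuous.measurable
  rw [← Complex.volume_preserving_equiv_real_prod.symm.lintegral_comp hg2,
    Measure.volume_eq_prod, lintegral_prod]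
  · apply lintegral_congr
    intro x
    apply lintegral_congr
    intro y
    congr 2
    rw [rotation_apply, ha]
    congr 1
    apply Complex.ext <;> simp
  · exact (hg2.comp (MeasurableEquiv.measurable _)).aemeasurable

theorem rect_en {u : ℂ → ℝ} (hu : ContDiff ℝ 1 u) (hfin : en u univ ≠ ⊤) (z1 ω : ℂ)
    (hω : ‖ω‖ = 1) {a b s t : ℝ} (hab : a ≤ b) (hst : s ≤ t) {M : Set ℂ} (hM : MeasurableSet M)
    (hsub : ∀ x ∈ Ioc a b, ∀ y ∈ Ioc s t, z1 + ω * (x + y * Complex.I) ∈ M) :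
    (∫ y in s..t, ∫ x in a..b, ‖fderiv ℝ u (z1 + ω * (x + y * Complex.I))‖ ^ 2) ≤
      (en u).real M := by
  have hd := dens_cont hu
  have hlt : en u M ≠ ⊤ := ne_top_of_le_ne_top hfin (measure_mono (subset_univ _))
  have hF : Continuous (fun p : ℝ × ℝ =>
      ‖fderiv ℝ u (z1 + ω * (p.1 + p.2 * Complex.I))‖ ^ 2) :=
    (hd.comp (by fun_prop)).pow 2
  rw [← dbl_swap (F := fun x y => ‖fderiv ℝ u (z1 + ω * (x + y * Complex.I))‖ ^ 2) hF hab hst,
    measureReal_def]
  refine (ENNReal.ofReal_le_iff_le_toReal hlt).mp ?_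
  rw [ofReal_dbl (F := fun x y => ‖fderiv ℝ u (z1 + ω * (x + y * Complex.I))‖ ^ 2) hF hab hst
    (fun x hx y _ => sq_nonneg _)]
  have hmd : Measurable (fun z => ENNReal.ofReal (‖fderiv ℝ u z‖ ^ 2)) :=
    (hd.pow 2).measurable.ennreal_ofReal
  unfold en
  rw [withDensity_apply _ hM, ← lintegral_indicator hM,
    ← lint_rot _ (hmd.indicator hM) z1 ω hω]
  calc ∫⁻ x in Ioc a b, ∫⁻ y in Ioc s t,
        ENNReal.ofReal (‖fderiv ℝ u (z1 + ω * (x + y * Complex.I))‖ ^ 2)
      = ∫⁻ x in Ioc a b, ∫⁻ y in Ioc s t,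
        M.indicator (fun z => ENNReal.ofReal (‖fderiv ℝ u z‖ ^ 2))
          (z1 + ω * (x + y * Complex.I)) := by
        apply setLIntegral_congr_fun measurableSet_Ioc
        intro x hx
        apply setLIntegral_congr_fun measurableSet_Ioc
        intro y hy
        simp only
        rw [Set.indicator_of_mem (hsub x hx y hy)]
    _ ≤ ∫⁻ x in Ioc a b, ∫⁻ y : ℝ,
        M.indicator (fun z => ENNReal.ofReal (‖fderiv ℝ u z‖ ^ 2))
          (z1 + ω * (x + y * Complex.I)) := by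
        apply lintegral_mono
        intro x
        exact setLIntegral_le_lintegral _ _
    _ ≤ _ := setLIntegral_le_lintegral _ _

theorem segment_osc {u : ℂ → ℝ} (hu : ContDiff ℝ 1 u) (z1 ω : ℂ) (hω : ‖ω‖ = 1) {d : ℝ}
    (hd : 0 ≤ d) (y : ℝ) :
    (u (z1 + ω * ((d:ℝ) + y * Complex.I)) - u (z1 + ω * ((0:ℝ) + y * Complex.I))) ^ 2 ≤
      d * ∫ x in (0:ℝ)..d, ‖fderiv ℝ u (z1 + ω * (x + y * Complex.I))‖ ^ 2 := by
  have hdc := dens_cont hu
  have hdf : Differentiable ℝ u := hu.differentiable one_ne_zero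
  have hp : Continuous (fun x : ℝ => z1 + ω * ((x:ℂ) + y * Complex.I)) := by fun_prop
  have hder : ∀ x : ℝ, HasDerivAt (fun x : ℝ => z1 + ω * ((x:ℂ) + y * Complex.I)) ω x := by
    intro x
    have h1 : HasDerivAt (fun t : ℝ => (t : ℂ)) 1 x := by
      simpa using (hasDerivAt_id x).ofReal_comp
    have h2 := ((h1.add_const (y * Complex.I)).const_mul ω).const_add z1
    rw [mul_one] at h2
    exact h2
  have h1 : |u (z1 + ω * ((d:ℝ) + y * Complex.I)) - u (z1 + ω * ((0:ℝ) + y * Complex.I))| ≤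
      ∫ x in (0:ℝ)..d, ‖fderiv ℝ u (z1 + ω * (x + y * Complex.I))‖ := by
    refine osc_1 (v := fun x : ℝ => u (z1 + ω * ((x:ℂ) + y * Complex.I)))
      (v' := fun x : ℝ => fderiv ℝ u (z1 + ω * ((x:ℂ) + y * Complex.I)) ω)
      (fun x => (hdf _).hasFDerivAt.comp_hasDerivAt x (hder x))
      (Continuous.clm_apply ((hu.continuous_fderiv one_ne_zero).comp hp) continuous_const)
      ?_ (hdc.comp hp) ⟨le_rfl, hd⟩ ⟨hd, le_rfl⟩
    intro x
    rw [← Real.norm_eq_abs]
    refine (ContinuousLinearMap.le_opNorm _ _).trans ?_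
    rw [hω, mul_one]
    rfl
  have h2 := cs_1 hd (hdc.comp hp).continuousOn
  rw [← sq_abs]
  rw [sub_zero] at h2
  exact (pow_le_pow_left₀ (abs_nonneg _) h1 2).trans h2

theorem middle_step {u : ℂ → ℝ} (hu : ContDiff ℝ 1 u) (hfin : en u univ ≠ ⊤) {z1 z2 : ℂ} {δ : ℝ}
    (hδ : 0 < δ) (h12 : dist z1 z2 = 8 * δ) :
    (cm u z1 δ - cm u z2 δ) ^ 2 ≤
      168 * (en u).real {z | δ < dist z z1 ∧ δ < dist z z2} := by
  have : IsFiniteMeasure (en u) := ⟨lt_top_iff_ne_top.mpr hfin⟩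
  have hpi := Real.pi_pos
  obtain ⟨M, hM⟩ : ∃ M : Set ℂ, M = {z | δ < dist z z1 ∧ δ < dist z z2} := ⟨_, rfl⟩
  obtain ⟨E, hE⟩ : ∃ E, E = (en u).real M := ⟨_, rfl⟩
  rw [← hM, ← hE]
  have hMm : MeasurableSet M := by
    rw [hM]
    have h1 : MeasurableSet {z : ℂ | δ < dist z z1} :=
      measurableSet_lt measurable_const (continuous_id.dist continuous_const).measurable
    have h2 : MeasurableSet {z : ℂ | δ < dist z z2} :=
      measurableSet_lt measurable_const (continuous_id.dist continuous_const).measurable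
    exact h1.inter h2
  have hE0 : 0 ≤ E := by rw [hE]; exact measureReal_nonneg
  obtain ⟨ω, hω⟩ : ∃ ω : ℂ, ω = (z2 - z1) / ((8 * δ : ℝ) : ℂ) := ⟨_, rfl⟩
  have hω1 : ‖ω‖ = 1 := by
    rw [hω, norm_div, ← dist_eq_norm, dist_comm, h12, Complex.norm_real, Real.norm_eq_abs,
      abs_of_pos (by positivity), div_self (by positivity)]
  have hz2 : z2 = z1 + ω * ((8 * δ : ℝ) : ℂ) := by
    have : ((8 * δ : ℝ) : ℂ) ≠ 0 := by
      rw [Complex.ofReal_ne_zero]; positivity
    rw [hω, div_mul_cancel₀ _ this]; ring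
  -- the annuli are in the middle region
  have hA1 : ∀ t ≤ 2 * δ, (en u).real {z | δ < dist z z1 ∧ dist z z1 ≤ t} ≤ E := by
    intro t ht
    rw [hE, hM]
    refine mr_mono ?_
    rintro z ⟨h1, h2⟩
    refine ⟨h1, ?_⟩
    have := dist_triangle z1 z z2
    rw [dist_comm z1 z] at this
    linarith
  have hA2 : ∀ t ≤ 2 * δ, (en u).real {z | δ < dist z z2 ∧ dist z z2 ≤ t} ≤ E := by
    intro t ht
    rw [hE, hM]
    refine mr_mono ?_
    rintro z ⟨h1, h2⟩
    refine ⟨?_, h1⟩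
    have := dist_triangle z1 z z2
    rw [dist_comm z1 z] at this
    linarith
  have hJ1 : (∫ r in δ..(2 * δ), r * ce u z1 r) ≤ E :=
    (polar_ce hu hfin z1 hδ.le (by linarith)).trans (hA1 _ le_rfl)
  have hJ2 : (∫ r in δ..(2 * δ), r * ce u z2 r) ≤ E :=
    (polar_ce hu hfin z2 hδ.le (by linarith)).trans (hA2 _ le_rfl)
  have hR : (∫ y in δ..(2 * δ), ∫ x in (0:ℝ)..(8 * δ),
      ‖fderiv ℝ u (z1 + ω * (x + y * Complex.I))‖ ^ 2) ≤ E := by
    rw [hE]
    apply rect_en hu hfin z1 ω hω1 (by positivity) (by linarith) hMm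
    intro x _ y hy
    have him : ∀ c : ℝ, y ≤ ‖ω * (((x - c : ℝ) : ℂ) + y * Complex.I)‖ := by
      intro c
      rw [norm_mul, hω1, one_mul]
      have := Complex.abs_im_le_norm (((x - c : ℝ) : ℂ) + y * Complex.I)
      simp only [Complex.add_im, Complex.ofReal_im, Complex.mul_im, Complex.I_re, Complex.I_im,
        Complex.ofReal_re, mul_zero, mul_one, zero_add, add_zero] at this
      exact (le_abs_self y).trans this
    rw [hM]
    constructor
    · refine lt_of_lt_of_le hy.1 ?_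
      rw [dist_eq_norm, show z1 + ω * ((x:ℂ) + y * Complex.I) - z1 =
        ω * (((x - 0 : ℝ) : ℂ) + y * Complex.I) by push_cast; ring]
      exact him 0
    · refine lt_of_lt_of_le hy.1 ?_
      rw [dist_eq_norm, hz2, show z1 + ω * ((x:ℂ) + y * Complex.I) - (z1 + ω * ((8 * δ : ℝ) : ℂ)) =
        ω * (((x - 8 * δ : ℝ) : ℂ) + y * Complex.I) by push_cast; ring]
      exact him _
  have hRc : Continuous (fun y : ℝ => ∫ x in (0:ℝ)..(8 * δ),
      ‖fderiv ℝ u (z1 + ω * (x + y * Complex.I))‖ ^ 2) := by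
    apply intervalIntegral.continuous_parametric_intervalIntegral_of_continuous'
      (f := fun y x : ℝ => ‖fderiv ℝ u (z1 + ω * (x + y * Complex.I))‖ ^ 2)
    exact ((dens_cont hu).comp (by fun_prop)).pow 2
  obtain ⟨R, hRR⟩ : ∃ R : ℝ → ℝ, R = fun y : ℝ => ∫ x in (0:ℝ)..(8 * δ),
      ‖fderiv ℝ u (z1 + ω * ((x:ℂ) + (y:ℂ) * Complex.I))‖ ^ 2 := ⟨_, rfl⟩
  have hR' : (∫ y in δ..(2 * δ), R y) ≤ E := by rw [hRR]; exact hR
  rw [← hRR] at hRc
  have key : ∀ r ∈ Icc δ (2 * δ), (cm u z1 δ - cm u z2 δ) ^ 2 ≤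
      5 * (E / 4 + 4 * Real.pi * δ * (r * ce u z1 r) + 4 * Real.pi * δ * (r * ce u z2 r) +
        8 * δ * R r) := by
    intro r hr
    have hr0 : 0 < r := hδ.trans_le hr.1
    have hn : ‖ω * ((r : ℂ) * Complex.I)‖ = r := by
      rw [norm_mul, hω1, norm_mul, Complex.norm_I, Complex.norm_real, Real.norm_eq_abs,
        abs_of_pos hr0]; ring
    have c1 := circle_osc hu z1 hr0.le (z := z1 + ω * ((0:ℝ) + r * Complex.I)) (by
      rw [dist_eq_norm, Complex.ofReal_zero, zero_add, add_sub_cancel_left]; exact hn)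
    have c2 := circle_osc hu z2 hr0.le (z := z1 + ω * (((8 * δ : ℝ) : ℂ) + r * Complex.I)) (by
      rw [dist_eq_norm, hz2, show z1 + ω * (((8 * δ : ℝ) : ℂ) + r * Complex.I) -
        (z1 + ω * ((8 * δ : ℝ) : ℂ)) = ω * ((r : ℂ) * Complex.I) by ring]; exact hn)
    have c3 := segment_osc hu z1 ω hω1 (d := 8 * δ) (by positivity) r
    have e3 : (∫ x in (0:ℝ)..(8 * δ), ‖fderiv ℝ u (z1 + ω * (x + r * Complex.I))‖ ^ 2) = R r := by
      rw [hRR]
    rw [e3] at c3
    have l := log_eighth hδ hr.1 hr.2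
    have r1 : (cm u z1 r - cm u z1 δ) ^ 2 ≤ 1 / 8 * E :=
      (radial hu hfin z1 hδ hr.1).trans (mul_le_mul l (hA1 _ hr.2) measureReal_nonneg (by norm_num))
    have r2 : (cm u z2 r - cm u z2 δ) ^ 2 ≤ 1 / 8 * E :=
      (radial hu hfin z2 hδ hr.1).trans (mul_le_mul l (hA2 _ hr.2) measureReal_nonneg (by norm_num))
    have g : ∀ z, 0 ≤ ce u z r := fun z =>
      intervalIntegral.integral_nonneg (by linarith) (fun x _ => sq_nonneg _)
    have g' : ∀ z, 2 * Real.pi * r ^ 2 * ce u z r ≤ 4 * Real.pi * δ * (r * ce u z r) := by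
      intro z
      have : r * ce u z r * r ≤ r * ce u z r * (2 * δ) :=
        mul_le_mul_of_nonneg_left hr.2 (mul_nonneg hr0.le (g z))
      nlinarith
    have g1 := c1.trans (g' z1)
    have g2 := c2.trans (g' z2)
    obtain ⟨A, hA⟩ : ∃ A, A = u (z1 + ω * ((0:ℝ) + r * Complex.I)) := ⟨_, rfl⟩
    obtain ⟨B, hB⟩ : ∃ B, B = u (z1 + ω * (((8 * δ : ℝ) : ℂ) + r * Complex.I)) := ⟨_, rfl⟩
    rw [← hA] at g1 c3
    rw [← hB] at g2 c3
    have five : ∀ a b c d e : ℝ, (a + b + c + d + e) ^ 2 ≤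
        5 * (a ^ 2 + b ^ 2 + c ^ 2 + d ^ 2 + e ^ 2) := by
      intro a b c d e
      nlinarith [sq_nonneg (a - b), sq_nonneg (a - c), sq_nonneg (a - d), sq_nonneg (a - e),
        sq_nonneg (b - c), sq_nonneg (b - d), sq_nonneg (b - e), sq_nonneg (c - d),
        sq_nonneg (c - e), sq_nonneg (d - e)]
    have h5 := five (cm u z1 δ - cm u z1 r) (cm u z1 r - A) (A - B) (B - cm u z2 r)
      (cm u z2 r - cm u z2 δ)
    have e5 : cm u z1 δ - cm u z1 r + (cm u z1 r - A) + (A - B) + (B - cm u z2 r) +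
        (cm u z2 r - cm u z2 δ) = cm u z1 δ - cm u z2 δ := by ring
    rw [e5] at h5
    refine h5.trans ?_
    have s1 : (cm u z1 δ - cm u z1 r) ^ 2 = (cm u z1 r - cm u z1 δ) ^ 2 := by ring
    have s2 : (A - B) ^ 2 = (B - A) ^ 2 := by ring
    have s3 : (B - cm u z2 r) ^ 2 = (cm u z2 r - B) ^ 2 := by ring
    rw [s1, s2, s3]
    linarith
  have hc1 := ce_cont hu z1
  have hc2 := ce_cont hu z2
  have i1 : IntervalIntegrable (fun r => 4 * Real.pi * δ * (r * ce u z1 r)) volume δ (2 * δ) :=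
    (continuous_const.mul (continuous_id.mul hc1)).intervalIntegrable _ _
  have i2 : IntervalIntegrable (fun r => 4 * Real.pi * δ * (r * ce u z2 r)) volume δ (2 * δ) :=
    (continuous_const.mul (continuous_id.mul hc2)).intervalIntegrable _ _
  have i3 : IntervalIntegrable (fun r => 8 * δ * R r) volume δ (2 * δ) :=
    (continuous_const.mul hRc).intervalIntegrable _ _
  have i0 : IntervalIntegrable (fun _ : ℝ => E / 4) volume δ (2 * δ) :=
    continuous_const.intervalIntegrable _ _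
  have h1 : ∫ _r in δ..(2 * δ), (cm u z1 δ - cm u z2 δ) ^ 2 ≤
      ∫ r in δ..(2 * δ), 5 * (E / 4 + 4 * Real.pi * δ * (r * ce u z1 r) +
        4 * Real.pi * δ * (r * ce u z2 r) + 8 * δ * R r) := by
    apply intervalIntegral.integral_mono_on (by linarith)
    · exact continuous_const.intervalIntegrable _ _
    · exact (((i0.add i1).add i2).add i3).const_mul 5
    · exact key
  rw [intervalIntegral.integral_const, intervalIntegral.integral_const_mul,
    intervalIntegral.integral_add ((i0.add i1).add i2) i3,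
    intervalIntegral.integral_add (i0.add i1) i2, intervalIntegral.integral_add i0 i1,
    intervalIntegral.integral_const, intervalIntegral.integral_const_mul,
    intervalIntegral.integral_const_mul, intervalIntegral.integral_const_mul, smul_eq_mul,
    smul_eq_mul] at h1
  have q1 : 4 * Real.pi * δ * (∫ r in δ..(2 * δ), r * ce u z1 r) ≤ 4 * Real.pi * δ * E :=
    mul_le_mul_of_nonneg_left hJ1 (by positivity)
  have q2 : 4 * Real.pi * δ * (∫ r in δ..(2 * δ), r * ce u z2 r) ≤ 4 * Real.pi * δ * E :=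
    mul_le_mul_of_nonneg_left hJ2 (by positivity)
  have q3 : 8 * δ * (∫ r in δ..(2 * δ), R r) ≤ 8 * δ * E :=
    mul_le_mul_of_nonneg_left hR' (by positivity)
  have h3 : δ * ((cm u z1 δ - cm u z2 δ) ^ 2) ≤ δ * (5 * (E / 4 + 8 * Real.pi * E + 8 * E)) := by
    nlinarith
  have h4 := le_of_mul_le_mul_left h3 hδ
  have h5 := Real.pi_lt_d2
  nlinarith

/-- **Energy lower bound**: a function equal to `κ1` on a set meeting the circles of radius about
`σ1` around `z1` and to `κ2` on a set meeting the circles of radius about `σ2` around `z2`. -/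
theorem energy_lower {u : ℂ → ℝ} (hu : ContDiff ℝ 1 u) (hfin : en u univ ≠ ⊤) {z1 z2 : ℂ}
    {δ σ1 σ2 κ1 κ2 : ℝ} (hσ1 : 0 < σ1) (hσ2 : 0 < σ2) (h1δ : σ1 ≤ δ) (h2δ : σ2 ≤ δ)
    (h12 : dist z1 z2 = 8 * δ)
    (hK1 : ∀ r ∈ Icc (σ1 / 2) σ1, ∃ z, dist z z1 = r ∧ u z = κ1)
    (hK2 : ∀ r ∈ Icc (σ2 / 2) σ2, ∃ z, dist z z2 = r ∧ u z = κ2) :
    (κ1 - κ2) ^ 2 ≤ (220 + (Real.log (δ / σ1) + Real.log (δ / σ2)) / (2 * Real.pi)) *
      (en u).real univ := by
  have : IsFiniteMeasure (en u) := ⟨lt_top_iff_ne_top.mpr hfin⟩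
  have hpi := Real.pi_pos
  have hδ : 0 < δ := hσ1.trans_le h1δ
  have a1 := inner_step hu hfin z1 hσ1 hK1
  have a2 := inner_step hu hfin z2 hσ2 hK2
  have b1 := radial hu hfin z1 hσ1 h1δ
  have b2 := radial hu hfin z2 hσ2 h2δ
  have m := middle_step hu hfin hδ h12
  have l1 : 0 ≤ Real.log (δ / σ1) / (2 * Real.pi) :=
    div_nonneg (Real.log_nonneg (by rw [le_div_iff₀ hσ1]; linarith)) (by positivity)
  have l2 : 0 ≤ Real.log (δ / σ2) / (2 * Real.pi) :=
    div_nonneg (Real.log_nonneg (by rw [le_div_iff₀ hσ2]; linarith)) (by positivity)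
  have dm : Measurable (fun z : ℂ => dist z z1) := (continuous_id.dist continuous_const).measurable
  have dm2 : Measurable (fun z : ℂ => dist z z2) :=
    (continuous_id.dist continuous_const).measurable
  -- energies
  have u1 : (en u).real {z | σ1 / 2 < dist z z1 ∧ dist z z1 ≤ σ1} +
      (en u).real {z | σ1 < dist z z1 ∧ dist z z1 ≤ δ} ≤ (en u).real {z | dist z z1 ≤ δ} := by
    rw [← measureReal_union _ (ann_meas z1 σ1 δ)]
    · refine mr_mono ?_
      rintro z (⟨-, h⟩ | ⟨-, h⟩)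
      · exact h.trans h1δ
      · exact h
    · rw [Set.disjoint_left]
      rintro z ⟨-, h⟩ ⟨h', -⟩
      linarith
  have u2 : (en u).real {z | σ2 / 2 < dist z z2 ∧ dist z z2 ≤ σ2} +
      (en u).real {z | σ2 < dist z z2 ∧ dist z z2 ≤ δ} ≤ (en u).real {z | dist z z2 ≤ δ} := by
    rw [← measureReal_union _ (ann_meas z2 σ2 δ)]
    · refine mr_mono ?_
      rintro z (⟨-, h⟩ | ⟨-, h⟩)
      · exact h.trans h2δ
      · exact h
    · rw [Set.disjoint_left]
      rintro z ⟨-, h⟩ ⟨h', -⟩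
      linarith
  have u3 : (en u).real {z | dist z z1 ≤ δ} + (en u).real {z | dist z z2 ≤ δ} +
      (en u).real {z | δ < dist z z1 ∧ δ < dist z z2} ≤ (en u).real univ := by
    have hm2 : MeasurableSet {z : ℂ | dist z z2 ≤ δ} := measurableSet_le dm2 measurable_const
    have hm3 : MeasurableSet {z : ℂ | δ < dist z z1 ∧ δ < dist z z2} :=
      (measurableSet_lt measurable_const dm).inter (measurableSet_lt measurable_const dm2)
    rw [← measureReal_union _ hm2, ← measureReal_union _ hm3]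
    · exact mr_mono (subset_univ _)
    · rw [Set.disjoint_left]
      rintro z (h | h) ⟨h1, h2⟩
      · exact absurd h (not_le.mpr h1)
      · exact absurd h (not_le.mpr h2)
    · rw [Set.disjoint_left]
      intro z h h'
      have h1 : dist z z1 ≤ δ := h
      have h2 : dist z z2 ≤ δ := h'
      have := dist_triangle z1 z z2
      rw [dist_comm z1 z] at this
      linarith
  have n : ∀ s : Set ℂ, 0 ≤ (en u).real s := fun s => measureReal_nonneg
  have a1' : (κ1 - cm u z1 σ1) ^ 2 ≤ 26 * (en u).real {z | σ1 / 2 < dist z z1 ∧ dist z z1 ≤ σ1} := by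
    rw [show (κ1 - cm u z1 σ1) ^ 2 = (cm u z1 σ1 - κ1) ^ 2 by ring]; exact a1
  have b1' : (cm u z1 σ1 - cm u z1 δ) ^ 2 ≤ Real.log (δ / σ1) / (2 * Real.pi) *
      (en u).real {z | σ1 < dist z z1 ∧ dist z z1 ≤ δ} := by
    rw [show (cm u z1 σ1 - cm u z1 δ) ^ 2 = (cm u z1 δ - cm u z1 σ1) ^ 2 by ring]; exact b1
  have c1 := comb (by norm_num) l1 (n _) (n _) a1' b1'
  have c2 := comb l2 (by norm_num) (n _) (n _) b2 a2
  have c3 := comb (add_nonneg (by norm_num) l1) (by norm_num) (add_nonneg (n _) (n _)) (n _) c1 m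
  have c4 := comb (add_nonneg (add_nonneg (by norm_num) l1) (by norm_num))
    (add_nonneg l2 (by norm_num))
    (add_nonneg (add_nonneg (n _) (n _)) (n _)) (add_nonneg (n _) (n _)) c3 c2
  have e : κ1 - cm u z1 σ1 + (cm u z1 σ1 - cm u z1 δ) + (cm u z1 δ - cm u z2 δ) +
      (cm u z2 δ - cm u z2 σ2 + (cm u z2 σ2 - κ2)) = κ1 - κ2 := by ring
  rw [e] at c4
  refine c4.trans ?_
  apply mul_le_mul _ _ (by positivity) (by
    have : (Real.log (δ / σ1) + Real.log (δ / σ2)) / (2 * Real.pi) =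
      Real.log (δ / σ1) / (2 * Real.pi) + Real.log (δ / σ2) / (2 * Real.pi) := by ring
    rw [this]; linarith)
  · have : (Real.log (δ / σ1) + Real.log (δ / σ2)) / (2 * Real.pi) =
      Real.log (δ / σ1) / (2 * Real.pi) + Real.log (δ / σ2) / (2 * Real.pi) := by ring
    rw [this]; linarith
  · linarith

end Pool.Agent.Y996.RD
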