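import Mathlib
import Pool.Agent.Y996.RD.Perc
import Pool.Agent.H974R2.Infinite

/-!
The probability that two disjoint continua are joined by an open path, up to constants.
-/

set_option autoImplicit false

namespace Pool.Agent.Y996.RD

open H974 Finset MeasureTheory

/-- the parameter `1/2` -/
noncomputable def hlf : unitInterval := ⟨1/2, by norm_num, by norm_num⟩

/-- the probability that an open path joins the two sets -/
noncomputable def cross (ε : ℝ) (K L : Set ℂ) : ℝ :=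
  (bondLaw hlf).real {ω | ∃ u ∈ near ε K, ∃ v ∈ near ε L, (openGraph ω).Reachable u v}

/-- The size `ρ` of a set seen from its point `z` at scale `d`. -/
structure Size (K : Set ℂ) (z : ℂ) (d ρ : ℝ) : Prop where
  mem : z ∈ K
  pos : 0 < ρ
  le : ρ ≤ d
  far : ∃ x ∈ K, ρ / 2 ≤ dist x z
  bd : ρ = d ∨ K ⊆ Metric.closedBall z ρ

theorem far_coord {a b r : ℝ} (hr : 0 ≤ r) (h : r ^ 2 ≤ a ^ 2 + b ^ 2) :
    7 / 10 * r ≤ |a| ∨ 7 / 10 * r ≤ |b| := by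
  by_contra hcon
  push Not at hcon
  obtain ⟨h1, h2⟩ := hcon
  have h3 : |a| ^ 2 ≤ (7 / 10 * r) ^ 2 := pow_le_pow_left₀ (abs_nonneg _) h1.le 2
  have h4 : |b| ^ 2 ≤ (7 / 10 * r) ^ 2 := pow_le_pow_left₀ (abs_nonneg _) h2.le 2
  rw [sq_abs] at h3 h4
  have h5 : r ^ 2 ≤ 0 := by nlinarith
  have h6 : r = 0 := by
    have := sq_nonneg r
    have h7 : r ^ 2 = 0 := le_antisymm h5 this
    exact pow_eq_zero_iff (by norm_num) |>.mp h7
  subst h6
  simp at h1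
  linarith [abs_nonneg a]

theorem sq_dist (z w : ℂ) : dist z w ^ 2 = (z.re - w.re) ^ 2 + (z.im - w.im) ^ 2 := by
  rw [dist_eq_norm, Complex.sq_norm, Complex.normSq_apply]
  simp only [Complex.sub_re, Complex.sub_im]
  ring

theorem abs_re_le (z w : ℂ) : |z.re - w.re| ≤ dist z w := by
  rw [dist_eq_norm, ← Complex.sub_re]; exact Complex.abs_re_le_norm _

theorem abs_im_le (z w : ℂ) : |z.im - w.im| ≤ dist z w := by
  rw [dist_eq_norm, ← Complex.sub_im]; exact Complex.abs_im_le_norm _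

theorem nv_abs {ε : ℝ} (hε : 0 < ε) (z : ℂ) :
    |ε * ((nv ε z).1 : ℝ) - z.re| ≤ ε / 2 ∧ |ε * ((nv ε z).2 : ℝ) - z.im| ≤ ε / 2 :=
  ⟨abs_round_le hε z.re, abs_round_le hε z.im⟩

/-- two vertices near far points are far apart -/
theorem lat_far {ε : ℝ} (hε : 0 < ε) {r e1 e2 : ℝ} {z w : ℂ} (hr : 0 ≤ r) (h : r ≤ dist z w)
    {x y : ℤ × ℤ} (hx : |ε * (x.1 : ℝ) - z.re| ≤ e1 ∧ |ε * (x.2 : ℝ) - z.im| ≤ e1)
    (hy : |ε * (y.1 : ℝ) - w.re| ≤ e2 ∧ |ε * (y.2 : ℝ) - w.im| ≤ e2) {n : ℕ}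
    (hn : ε * n ≤ 7 / 10 * r - e1 - e2) :
    y.1 ≤ x.1 - n ∨ x.1 + n ≤ y.1 ∨ y.2 ≤ x.2 - n ∨ x.2 + n ≤ y.2 := by
  have h1 : r ^ 2 ≤ (z.re - w.re) ^ 2 + (z.im - w.im) ^ 2 := by
    rw [← sq_dist]; exact pow_le_pow_left₀ hr h 2
  have key : ∀ a b : ℤ, ∀ p q : ℝ, |ε * (a : ℝ) - p| ≤ e1 → |ε * (b : ℝ) - q| ≤ e2 →
      7 / 10 * r ≤ |p - q| → b ≤ a - n ∨ a + n ≤ b := by
    intro a b p q ha hb hpq
    have ha' := abs_le.mp ha
    have hb' := abs_le.mp hb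
    rcases le_abs.mp hpq with h2 | h2
    · left
      have h3 : ε * ((b : ℝ) + n) ≤ ε * a := by nlinarith
      have h4 : (b : ℝ) + n ≤ a := le_of_mul_le_mul_left h3 hε
      have h5 : b + (n : ℤ) ≤ a := by exact_mod_cast h4
      omega
    · right
      have h3 : ε * ((a : ℝ) + n) ≤ ε * b := by nlinarith
      have h4 : (a : ℝ) + n ≤ b := le_of_mul_le_mul_left h3 hε
      exact_mod_cast h4
  rcases far_coord hr h1 with h2 | h2
  · rcases key x.1 y.1 z.re w.re hx.1 hy.1 h2 with h3 | h3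
    · exact Or.inl h3
    · exact Or.inr (Or.inl h3)
  · rcases key x.2 y.2 z.im w.im hx.2 hy.2 h2 with h3 | h3
    · exact Or.inr (Or.inr (Or.inl h3))
    · exact Or.inr (Or.inr (Or.inr h3))

/-- two vertices near close points are close -/
theorem lat_close {ε : ℝ} (hε : 0 < ε) {r e1 e2 : ℝ} {z w : ℂ} (h : dist z w ≤ r)
    {x y : ℤ × ℤ} (hx : |ε * (x.1 : ℝ) - z.re| ≤ e1 ∧ |ε * (x.2 : ℝ) - z.im| ≤ e1)
    (hy : |ε * (y.1 : ℝ) - w.re| ≤ e2 ∧ |ε * (y.2 : ℝ) - w.im| ≤ e2) {n : ℕ}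
    (hn : r + e1 + e2 ≤ ε * n) :
    |x.1 - y.1| ≤ n ∧ |x.2 - y.2| ≤ n := by
  have key : ∀ a b : ℤ, ∀ p q : ℝ, |ε * (a : ℝ) - p| ≤ e1 → |ε * (b : ℝ) - q| ≤ e2 →
      |p - q| ≤ dist z w → |a - b| ≤ (n : ℤ) := by
    intro a b p q ha hb hpq
    have h1 : ε * |((a - b : ℤ) : ℝ)| ≤ ε * n := by
      rw [← abs_of_pos hε, ← abs_mul, abs_of_pos hε]
      calc |ε * ((a - b : ℤ) : ℝ)| = |(ε * (a : ℝ) - p) - (ε * (b : ℝ) - q) + (p - q)| := by
            congr 1; push_cast; ring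
        _ ≤ |(ε * (a : ℝ) - p) - (ε * (b : ℝ) - q)| + |p - q| := abs_add_le _ _
        _ ≤ |ε * (a : ℝ) - p| + |ε * (b : ℝ) - q| + |p - q| := by
            gcongr; exact abs_sub _ _
        _ ≤ ε * n := by linarith
    have h2 := le_of_mul_le_mul_left h1 hε
    exact_mod_cast h2
  exact ⟨key _ _ _ _ hx.1 hy.1 (abs_re_le z w), key _ _ _ _ hx.2 hy.2 (abs_im_le z w)⟩

theorem near_coord {ε : ℝ} {v : ℤ × ℤ} {z : ℂ} (h : dist (pos ε v) z ≤ ε) :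
    |ε * (v.1 : ℝ) - z.re| ≤ ε ∧ |ε * (v.2 : ℝ) - z.im| ≤ ε :=
  ⟨(abs_re_le (pos ε v) z).trans h, (abs_im_le (pos ε v) z).trans h⟩

/-! ## lower bound -/

theorem barm_ge' {c C : ℝ} (hc : 0 < c) (hC : 0 < C) (h : Sharp c C) {m n : ℕ} (hn : 1 ≤ n)
    (hmn : m ≤ n) :
    min c (c / C) * (((max m 1 : ℕ) : ℝ) / n) ^ ((5 : ℝ) / 48) ≤ barm (1 / 2) m n := by
  have hn0 : (0:ℝ) < n := by exact_mod_cast hn
  rcases Nat.eq_zero_or_pos m with hm | hm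
  · subst hm
    rw [barm_zero]
    refine le_trans ?_ (h n hn).1
    have e : (((max 0 1 : ℕ) : ℝ) / n) ^ ((5 : ℝ) / 48) = (n : ℝ) ^ (-(5 / 48 : ℝ)) := by
      rw [Real.rpow_neg hn0.le, ← Real.inv_rpow hn0.le]
      congr 1
      simp
    rw [e]
    exact mul_le_mul_of_nonneg_right (min_le_left _ _) (by positivity)
  · rw [max_eq_left hm]
    exact le_trans (mul_le_mul_of_nonneg_right (min_le_right _ _) (by positivity))
      (barm_ge hc hC h hm hmn)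

/-- some point of `K` at distance at least `ρ / 2` is reached from `z` by near edges -/
def Chain (ε : ℝ) (K : Set ℂ) (z : ℂ) (ρ : ℝ) : Prop :=
  ∃ x ∈ K, ρ / 2 ≤ dist x z ∧ Reach (NE ε K) (nv ε z) (nv ε x)

theorem chain_conn {ε : ℝ} (hε : 0 < ε) {K : Set ℂ} (hK : IsPreconnected K) {z : ℂ} {d ρ : ℝ}
    (hS : Size K z d ρ) : Chain ε K z ρ := by
  obtain ⟨x, hx, hd⟩ := hS.far
  exact ⟨x, hx, hd, near_conn hε hK (nv_near hε hS.mem) (nv_near hε hx)⟩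

/-- the set reaches distance `3m` -/
theorem size_reach {ε : ℝ} (hε : 0 < ε) {K : Set ℂ} {z : ℂ} {d ρ : ℝ}
    (hS : Size K z d ρ) (hK : Chain ε K z ρ) (hm : 0 < ⌊ρ / (16 * ε)⌋₊) :
    ∃ b, Reach (EN (near ε K)) (nv ε z) b ∧
      (b.1 ≤ (nv ε z).1 - (3 * ⌊ρ / (16 * ε)⌋₊ : ℕ) ∨ (nv ε z).1 + (3 * ⌊ρ / (16 * ε)⌋₊ : ℕ) ≤ b.1 ∨
      b.2 ≤ (nv ε z).2 - (3 * ⌊ρ / (16 * ε)⌋₊ : ℕ) ∨
        (nv ε z).2 + (3 * ⌊ρ / (16 * ε)⌋₊ : ℕ) ≤ b.2) := by
  obtain ⟨x, hx, hd, hreach⟩ := hK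
  have hρ := hS.pos
  refine ⟨nv ε x, hreach, ?_⟩
  have h1 : (⌊ρ / (16 * ε)⌋₊ : ℝ) ≤ ρ / (16 * ε) := Nat.floor_le (by positivity)
  have h2 : (1 : ℝ) ≤ ⌊ρ / (16 * ε)⌋₊ := by exact_mod_cast hm
  have h3 : ε * (⌊ρ / (16 * ε)⌋₊ : ℝ) ≤ ρ / 16 := by
    calc ε * (⌊ρ / (16 * ε)⌋₊ : ℝ) ≤ ε * (ρ / (16 * ε)) := mul_le_mul_of_nonneg_left h1 hε.le
      _ = ρ / 16 := by field_simp
  have h4 : 16 * ε ≤ ρ := by nlinarith
  refine lat_far hε (r := ρ / 2) (e1 := ε / 2) (e2 := ε / 2) (by positivity)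
    (by rw [dist_comm]; exact hd) (nv_abs hε z) (nv_abs hε x) ?_
  push_cast
  nlinarith

theorem ratio_ge {ε d ρ : ℝ} (hε : 0 < ε) (hρ : 0 < ρ) (hd : ρ ≤ d) :
    ρ / d / 672 ≤ ((max ⌊ρ / (16 * ε)⌋₊ 1 : ℕ) : ℝ) / ((7 * (⌈d / ε⌉₊ + 1) : ℕ) : ℝ) := by
  have hd0 : 0 < d := hρ.trans_le hd
  obtain ⟨t, ht⟩ : ∃ t, t = ρ / ε := ⟨_, rfl⟩
  obtain ⟨s, hs⟩ : ∃ s, s = d / ε := ⟨_, rfl⟩
  have ht0 : 0 < t := by rw [ht]; positivity
  have hs0 : 0 < s := by rw [hs]; positivity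
  have hts : t ≤ s := by rw [ht, hs]; gcongr
  have e1 : ρ / (16 * ε) = t / 16 := by rw [ht]; field_simp
  have e2 : ρ / d = t / s := by rw [ht, hs]; field_simp
  rw [e1, e2, ← hs]
  have h1 : t / 32 ≤ ((max ⌊t / 16⌋₊ 1 : ℕ) : ℝ) := by
    push_cast
    rcases le_total t 32 with h | h
    · exact le_trans (by linarith) (le_max_right _ _)
    · refine le_trans ?_ (le_max_left _ _)
      have := Nat.lt_floor_add_one (t / 16)
      linarith
  have h2 : ((7 * (⌈s⌉₊ + 1) : ℕ) : ℝ) ≤ 7 * (s + 2) := by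
    push_cast
    have := (Nat.ceil_lt_add_one hs0.le).le
    linarith
  have h0 : (0:ℝ) < ((7 * (⌈s⌉₊ + 1) : ℕ) : ℝ) := by positivity
  rcases le_total 1 s with h | h
  · rw [div_div, div_le_div_iff₀ (by positivity) h0]
    calc t * ((7 * (⌈s⌉₊ + 1) : ℕ) : ℝ) ≤ t * (21 * s) := by
          apply mul_le_mul_of_nonneg_left _ ht0.le
          linarith
      _ = t / 32 * (s * 672) := by ring
      _ ≤ _ := mul_le_mul_of_nonneg_right h1 (by positivity)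
  · have h3 : (1:ℝ) ≤ ((max ⌊t / 16⌋₊ 1 : ℕ) : ℝ) := by
      push_cast; exact le_max_right _ _
    have h4 : t / s ≤ 1 := by rw [div_le_one hs0]; exact hts
    calc t / s / 672 ≤ 1 / 21 := by linarith
      _ ≤ 1 / ((7 * (⌈s⌉₊ + 1) : ℕ) : ℝ) := by
          apply one_div_le_one_div_of_le h0
          linarith
      _ ≤ _ := by gcongr

theorem cross_lower {c C : ℝ} (hc : 0 < c) (hC : 0 < C) (h : Sharp c C) :
    ∃ c' : ℝ, 0 < c' ∧ ∀ (ε : ℝ) (K L : Set ℂ) (z w : ℂ) (ρ σ : ℝ), 0 < ε →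
      Chain ε K z ρ → Chain ε L w σ → Size K z (dist z w) ρ → Size L w (dist z w) σ →
      c' * (ρ / dist z w * (σ / dist z w)) ^ ((5 : ℝ) / 48) ≤ cross ε K L := by
  obtain ⟨m0, hm0⟩ : ∃ m0, m0 = min c (c / C) := ⟨_, rfl⟩
  have hm0p : 0 < m0 := by rw [hm0]; exact lt_min hc (by positivity)
  have hk := kap_pos
  refine ⟨kap ^ 3 * (m0 * ((672:ℝ) ^ ((5:ℝ)/48))⁻¹) ^ 2,
    mul_pos (pow_pos hk 3) (pow_pos (mul_pos hm0p (inv_pos.mpr (Real.rpow_pos_of_pos (by norm_num) _))) 2), ?_⟩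
  intro ε K L z w ρ σ hε hK hL hSK hSL
  obtain ⟨d, hd⟩ : ∃ d, d = dist z w := ⟨_, rfl⟩
  rw [← hd] at hSK hSL ⊢
  have hd0 : 0 < d := hSK.pos.trans_le hSK.le
  have hρ := hSK.pos
  have hσ := hSL.pos
  set D := ⌈d / ε⌉₊ + 1 with hD
  have hDr : d / ε + 1 ≤ D := by
    rw [hD]; push_cast
    linarith [Nat.le_ceil (d / ε)]
  have hDε : d + ε ≤ ε * D := by
    calc d + ε = ε * (d / ε + 1) := by field_simp
      _ ≤ _ := mul_le_mul_of_nonneg_left hDr hε.le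
  have hclose := lat_close hε (r := d) (e1 := ε / 2) (e2 := ε / 2) (z := z) (w := w)
    (by rw [hd]) (nv_abs hε z) (nv_abs hε w) (n := D) (by linarith)
  have hfl : ∀ r : ℝ, 0 < r → r ≤ d → 3 * ⌊r / (16 * ε)⌋₊ ≤ D := by
    intro r hr hrd
    have h1 : (⌊r / (16 * ε)⌋₊ : ℝ) ≤ r / (16 * ε) := Nat.floor_le (by positivity)
    have h2 : ((3 * ⌊r / (16 * ε)⌋₊ : ℕ) : ℝ) ≤ D := by
      push_cast
      calc 3 * (⌊r / (16 * ε)⌋₊ : ℝ) ≤ 3 * (r / (16 * ε)) := by linarith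
        _ = 3 / 16 * (r / ε) := by field_simp
        _ ≤ 3 / 16 * (d / ε) := by gcongr
        _ ≤ D := by
            have : 0 ≤ d / ε := by positivity
            linarith
    exact_mod_cast h2
  have hj := join_lower (m1 := ⌊ρ / (16 * ε)⌋₊) (m2 := ⌊σ / (16 * ε)⌋₊) (D := D) (by omega)
    (hfl ρ hρ hSK.le) (hfl σ hσ hSL.le) (x1 := nv ε z) (x2 := nv ε w) hclose.1 hclose.2
    (N1 := near ε K) (N2 := near ε L) (nv_near hε hSK.mem) (nv_near hε hSL.mem)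
    (size_reach hε hSK hK) (size_reach hε hSL hL)
  have hlow : ∀ r : ℝ, 0 < r → r ≤ d → m0 * ((672:ℝ) ^ ((5:ℝ)/48))⁻¹ * (r / d) ^ ((5:ℝ)/48) ≤
      barm (1/2) ⌊r / (16 * ε)⌋₊ (7 * D) := by
    intro r hr hrd
    have h1 := barm_ge' hc hC h (m := ⌊r / (16 * ε)⌋₊) (n := 7 * D) (by omega)
      (by have := hfl r hr hrd; omega)
    rw [← hm0] at h1
    refine le_trans ?_ h1
    rw [mul_assoc]
    apply mul_le_mul_of_nonneg_left _ hm0p.le
    have h2 := ratio_ge hε hr hrd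
    have e : ((672:ℝ) ^ ((5:ℝ)/48))⁻¹ * (r / d) ^ ((5:ℝ)/48) = (r / d / 672) ^ ((5:ℝ)/48) := by
      rw [Real.div_rpow (x := r / d) (y := 672) (by positivity) (by norm_num),
        div_eq_mul_inv (a := (r / d) ^ ((5:ℝ)/48)), mul_comm]
    rw [e]
    exact Real.rpow_le_rpow (by positivity) h2 (by norm_num)
  have l1 := hlow ρ hρ hSK.le
  have l2 := hlow σ hσ hSL.le
  have hcr : Pr (fun _ => (1/2:ℝ)) (bx (nv ε z) ((8 * D : ℕ) : ℤ)) (fun F => ∃ u ∈ near ε K,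
      ∃ v ∈ near ε L, Reach (↑F : Set Edg) u v) ≤ cross ε K L := by
    have e : (fun _ : Edg => (1/2:ℝ)) = fun _ => (hlf : ℝ) := rfl
    rw [e, ← law_event hlf]
    unfold cross
    refine measureReal_mono ?_
    rintro ω ⟨u, hu, v, hv, hr⟩
    refine ⟨u, hu, v, hv, (open_reach ω _ _).mpr (hr.mono ?_)⟩
    rw [FF_coe]
    exact Set.inter_subset_left
  refine le_trans ?_ (hj.trans hcr)
  rw [mul_assoc]
  apply mul_le_mul_of_nonneg_left _ (pow_pos hk 3).le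
  rw [Real.mul_rpow (by positivity) (by positivity)]
  have n1 : 0 ≤ m0 * ((672:ℝ) ^ ((5:ℝ)/48))⁻¹ * (σ / d) ^ ((5:ℝ)/48) := by positivity
  have n2 : 0 ≤ m0 * ((672:ℝ) ^ ((5:ℝ)/48))⁻¹ * (ρ / d) ^ ((5:ℝ)/48) := by positivity
  refine le_trans (le_of_eq ?_) (mul_le_mul l1 l2 n1 (n2.trans l1))
  ring

/-! ## upper bound -/

theorem shS_inter (x : Vtx) (G : Set Edg) (S : Finset Edg) :
    shS x (G ∩ ↑S) = shS x G ∩ ↑(sh x S) := by
  rw [coe_sh]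
  unfold shS
  exact Set.image_inter (Equiv.injective _)

/-- an open path from near `K` to near `L` crosses an annulus around `K` -/
theorem up_event {ε : ℝ} (hε : 0 < ε) {K L : Set ℂ} {z : ℂ} {d ρ : ℝ}
    (hK : K ⊆ Metric.closedBall z ρ) (hερ : ε ≤ ρ) (hρd : 64 * ρ < d)
    (hL : ∀ w ∈ L, d ≤ dist z w) {S : Finset Edg}
    (hS : bx (nv ε z) ((⌊d / (4 * ε)⌋₊ : ℕ) : ℤ) ⊆ S) {G : Set Edg} {u v : Vtx}
    (hu : u ∈ near ε K) (hv : v ∈ near ε L) (h : Reach G u v) {F : Finset Edg}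
    (hF : G ∩ ↑S ⊆ ↑F) :
    BArm (⌈ρ / ε⌉₊ + 2) ⌊d / (4 * ε)⌋₊ (sh (nv ε z) F) := by
  obtain ⟨m, hm⟩ : ∃ m, m = ⌈ρ / ε⌉₊ + 2 := ⟨_, rfl⟩
  obtain ⟨n, hn⟩ : ∃ n, n = ⌊d / (4 * ε)⌋₊ := ⟨_, rfl⟩
  rw [← hm, ← hn]
  rw [← hn] at hS
  have hρ : 0 < ρ := hε.trans_le hερ
  have hm1 : ρ + 2 * ε ≤ ε * m := by
    have : ρ / ε + 2 ≤ m := by rw [hm]; push_cast; linarith [Nat.le_ceil (ρ / ε)]
    calc ρ + 2 * ε = ε * (ρ / ε + 2) := by field_simp
      _ ≤ _ := mul_le_mul_of_nonneg_left this hε.le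
  have hm2 : ε * m ≤ ρ + 3 * ε := by
    have : (m:ℝ) ≤ ρ / ε + 3 := by
      rw [hm]; push_cast; linarith [(Nat.ceil_lt_add_one (show 0 ≤ ρ / ε by positivity)).le]
    calc ε * m ≤ ε * (ρ / ε + 3) := mul_le_mul_of_nonneg_left this hε.le
      _ = _ := by field_simp
  have hn1 : ε * n ≤ d / 4 := by
    have : (n:ℝ) ≤ d / (4 * ε) := by
      rw [hn]; exact Nat.floor_le (div_nonneg (by linarith) (by linarith))
    calc ε * n ≤ ε * (d / (4 * ε)) := mul_le_mul_of_nonneg_left this hε.le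
      _ = _ := by field_simp
  have hn2 : d / 4 - ε ≤ ε * n := by
    have : d / (4 * ε) - 1 ≤ n := by rw [hn]; linarith [Nat.lt_floor_add_one (d / (4 * ε))]
    calc d / 4 - ε = ε * (d / (4 * ε) - 1) := by field_simp
      _ ≤ _ := mul_le_mul_of_nonneg_left this hε.le
  have hmn : m ≤ n := by
    have : ε * (m:ℝ) ≤ ε * n := by linarith
    exact_mod_cast le_of_mul_le_mul_left this hε
  obtain ⟨a, ha, hua⟩ := hu
  obtain ⟨b, hb, hvb⟩ := hv
  have hza : dist z a ≤ ρ := by rw [dist_comm]; exact hK ha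
  have h1 := lat_close hε hza (nv_abs hε z) (near_coord hua) (n := m) (by linarith)
  have h2 := lat_far hε (by linarith) (hL b hb) (nv_abs hε z) (near_coord hvb) (n := n)
    (by linarith)
  have hr := (reach_shS (x := nv ε z)).mpr h
  have h3 := abs_le.mp h1.1
  have h4 := abs_le.mp h1.2
  have hmn' : (m:ℤ) ≤ n := by exact_mod_cast hmn
  obtain ⟨y, k1, k2, k3⟩ := first_exit (a := -n) (b := n) (c := -n) (d := n)
    (by unfold inR; simp only; omega) hr (by simp only; omega)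
  refine ⟨_, y, by unfold inR; simp only; omega, ⟨k1, k2⟩, k3.mono ?_⟩
  rintro e ⟨he1, he2⟩
  refine ⟨?_, he2⟩
  have h5 : e ∈ (↑(sh (nv ε z) S) : Set Edg) := by
    have := sh_mono (x := nv ε z) hS
    rw [sh_bx] at this
    exact this he2
  have h6 : e ∈ shS (nv ε z) (G ∩ ↑S) := by
    rw [shS_inter]; exact ⟨he1, h5⟩
  rw [coe_sh]
  exact Set.image_mono hF h6

theorem pr_shift_barm {m n : ℕ} {x : Vtx} {S : Finset Edg} (hS : bx x n ⊆ S) :
    Pr (fun _ => (1/2:ℝ)) S (fun F => BArm m n (sh x F)) = barm (1/2) m n := by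
  have hsub : boxE n ⊆ sh x S := by
    have := sh_mono (x := x) hS
    rw [sh_bx] at this
    exact this
  rw [← pr_BArm (1/2) (r := m) hsub]
  unfold sh
  rw [LSym.pr]

theorem barm_shift_local {m n : ℕ} {x : Vtx} {F : Finset Edg} :
    BArm m n (sh x F) ↔ BArm m n (sh x (F ∩ bx x n)) := by
  have e : sh x (F ∩ bx x n) = sh x F ∩ boxE n := by
    unfold sh
    rw [LSym.mp_inter]
    congr 1
    exact sh_bx x n
  rw [e]
  exact BArm_local (Finset.Subset.refl _)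

/-- the probability bound used in the upper estimate -/
theorem barm_up {c C : ℝ} (hc : 0 < c) (hC : 0 < C) (h : Sharp c C) {ε d ρ : ℝ} (hε : 0 < ε)
    (hερ : ε ≤ ρ) (hρd : 64 * ρ < d) :
    barm (1/2) (⌈ρ / ε⌉₊ + 2) ⌊d / (4 * ε)⌋₊ ≤
      3 * C / (c * kap) * (32:ℝ) ^ ((5:ℝ)/48) * (ρ / d) ^ ((5:ℝ)/48) := by
  obtain ⟨m, hm⟩ : ∃ m, m = ⌈ρ / ε⌉₊ + 2 := ⟨_, rfl⟩
  obtain ⟨n, hn⟩ : ∃ n, n = ⌊d / (4 * ε)⌋₊ := ⟨_, rfl⟩
  rw [← hm, ← hn]
  have hρ : 0 < ρ := hε.trans_le hερ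
  have hd : 0 < d := by linarith
  have hm2 : ε * m ≤ 4 * ρ := by
    have : (m:ℝ) ≤ ρ / ε + 3 := by
      rw [hm]; push_cast; linarith [(Nat.ceil_lt_add_one (show 0 ≤ ρ / ε by positivity)).le]
    calc ε * m ≤ ε * (ρ / ε + 3) := mul_le_mul_of_nonneg_left this hε.le
      _ = ρ + 3 * ε := by field_simp
      _ ≤ 4 * ρ := by linarith
  have hn2 : d / 4 - ε ≤ ε * n := by
    have : d / (4 * ε) - 1 ≤ n := by rw [hn]; linarith [Nat.lt_floor_add_one (d / (4 * ε))]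
    calc d / 4 - ε = ε * (d / (4 * ε) - 1) := by field_simp
      _ ≤ _ := mul_le_mul_of_nonneg_left this hε.le
  have hmn : 3 * m ≤ n := by
    have : ε * ((3 * m : ℕ):ℝ) ≤ ε * n := by push_cast; linarith
    exact_mod_cast le_of_mul_le_mul_left this hε
  have h1 := barm_le hc hC h (m := m) (n := n) (by omega) hmn
  refine h1.trans ?_
  rw [mul_assoc]
  have hk := kap_pos
  apply mul_le_mul_of_nonneg_left _ (div_nonneg (by positivity) (mul_pos hc hk).le)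
  rw [← Real.mul_rpow (by norm_num) (by positivity)]
  apply Real.rpow_le_rpow (by positivity) _ (by norm_num)
  have hn0 : 0 < ε * (n:ℝ) := by linarith
  have hn0' : (0:ℝ) < n := (mul_pos_iff_of_pos_left hε).mp hn0
  have e : (m:ℝ) / n = (ε * m) / (ε * n) := by field_simp
  rw [e, div_le_iff₀ hn0]
  calc ε * m ≤ 4 * ρ := hm2
    _ = 32 * (ρ / d) * (d / 8) := by field_simp; norm_num
    _ ≤ 32 * (ρ / d) * (ε * n) := by
        apply mul_le_mul_of_nonneg_left _ (by positivity)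
        linarith

theorem bx_disjoint {x y : Vtx} {n : ℕ} (h : y.1 ≤ x.1 - (2 * n + 1 : ℕ) ∨
    x.1 + (2 * n + 1 : ℕ) ≤ y.1 ∨ y.2 ≤ x.2 - (2 * n + 1 : ℕ) ∨ x.2 + (2 * n + 1 : ℕ) ≤ y.2) :
    Disjoint (bx x n) (bx y n) := by
  rw [Finset.disjoint_left]
  rintro ⟨a, b, c⟩ h1 h2
  unfold bx at h1 h2
  push_cast at h
  cases c
  · rw [mem_RE_false] at h1 h2; omega
  · rw [mem_RE_true] at h1 h2; omega

theorem cross_upper {c C : ℝ} (hc : 0 < c) (hC : 0 < C) (h : Sharp c C) :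
    ∃ C' : ℝ, 0 < C' ∧ ∀ (ε : ℝ) (K L : Set ℂ) (z w : ℂ) (ρ σ : ℝ), 0 < ε →
      Size K z (dist z w) ρ → Size L w (dist z w) σ →
      (∀ x ∈ K, ∀ y ∈ L, dist z w ≤ dist x y) → (ε ≤ ρ ∨ ρ = dist z w) →
      (ε ≤ σ ∨ σ = dist z w) →
      cross ε K L ≤ C' * (ρ / dist z w * (σ / dist z w)) ^ ((5 : ℝ) / 48) := by
  have hk := kap_pos
  obtain ⟨B, hB1, hB2⟩ : ∃ B : ℝ, 1 ≤ B ∧ 3 * C / (c * kap) * (32:ℝ) ^ ((5:ℝ)/48) ≤ B :=
    ⟨max 1 (3 * C / (c * kap) * (32:ℝ) ^ ((5:ℝ)/48)), le_max_left _ _, le_max_right _ _⟩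
  obtain ⟨A, hAB, hA64⟩ : ∃ A : ℝ, B ≤ A ∧ (64:ℝ) ^ ((5:ℝ)/48) ≤ A :=
    ⟨max B ((64:ℝ) ^ ((5:ℝ)/48)), le_max_left _ _, le_max_right _ _⟩
  have hA0 : 0 < A := lt_of_lt_of_le zero_lt_one (hB1.trans hAB)
  refine ⟨A * A, by positivity, ?_⟩
  intro ε K L z w ρ σ hε hSK hSL hd hρ' hσ'
  obtain ⟨d, hdd⟩ : ∃ d, d = dist z w := ⟨_, rfl⟩
  rw [← hdd] at hSK hSL hd hρ' hσ' ⊢
  have hd0 : 0 < d := hSK.pos.trans_le hSK.le
  have hρ := hSK.pos
  have hσ := hSL.pos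
  obtain ⟨n, hn⟩ : ∃ n, n = ⌊d / (4 * ε)⌋₊ := ⟨_, rfl⟩
  have hle1 : cross ε K L ≤ 1 := measureReal_le_one
  rw [Real.mul_rpow (by positivity) (by positivity)]
  -- the factor of a large set
  have big : ∀ r : ℝ, 0 < r → d ≤ 64 * r → 1 ≤ A * (r / d) ^ ((5:ℝ)/48) := by
    intro r hr h64
    have h1 : (1 / 64 : ℝ) ≤ r / d := by rw [div_le_div_iff₀ (by norm_num) hd0]; linarith
    have h2 : (1 / 64 : ℝ) ^ ((5:ℝ)/48) ≤ (r / d) ^ ((5:ℝ)/48) :=
      Real.rpow_le_rpow (by norm_num) h1 (by norm_num)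
    have h3 : (64:ℝ) ^ ((5:ℝ)/48) * (1 / 64 : ℝ) ^ ((5:ℝ)/48) = 1 := by
      rw [← Real.mul_rpow (by norm_num) (by norm_num)]; norm_num
    calc (1:ℝ) = (64:ℝ) ^ ((5:ℝ)/48) * (1 / 64 : ℝ) ^ ((5:ℝ)/48) := h3.symm
      _ ≤ A * (r / d) ^ ((5:ℝ)/48) := mul_le_mul hA64 h2 (by positivity) (by positivity)
  have small : ∀ r : ℝ, 0 < r → ε ≤ r → 64 * r < d →
      barm (1/2) (⌈r / ε⌉₊ + 2) n ≤ A * (r / d) ^ ((5:ℝ)/48) := by
    intro r hr h1 h2
    rw [hn]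
    refine (barm_up hc hC h hε h1 h2).trans ?_
    apply mul_le_mul_of_nonneg_right _ (by positivity)
    exact hB2.trans hAB
  have bnd : ∀ r : ℝ, 0 < r → r ≤ d → 0 ≤ A * (r / d) ^ ((5:ℝ)/48) := by
    intro r hr _; positivity
  have eps : ∀ r : ℝ, (ε ≤ r ∨ r = d) → 64 * r < d → ε ≤ r := by
    intro r h1 h2
    rcases h1 with h1 | h1
    · exact h1
    · rw [h1] at h2; linarith
  have ball : ∀ (K' : Set ℂ) (z' : ℂ) (r : ℝ), Size K' z' d r → 64 * r < d →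
      K' ⊆ Metric.closedBall z' r := by
    intro K' z' r h1 h2
    rcases h1.bd with h3 | h3
    · have := h1.pos; rw [h3] at h2; linarith
    · exact h3
  have ok := okhalf
  have ehl : (fun _ : Edg => (1/2:ℝ)) = fun _ => (hlf : ℝ) := rfl
  rcases le_or_gt d (64 * ρ) with h1 | h1
  · rcases le_or_gt d (64 * σ) with h2 | h2
    · -- both large
      have i1 := big ρ hρ h1
      have i2 := big σ hσ h2
      calc cross ε K L ≤ 1 * 1 := by linarith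
        _ ≤ (A * (ρ / d) ^ ((5:ℝ)/48)) * (A * (σ / d) ^ ((5:ℝ)/48)) :=
            mul_le_mul i1 i2 zero_le_one (by positivity)
        _ = _ := by ring
    · -- `L` small
      have h3 := eps σ hσ' h2
      have i1 := big ρ hρ h1
      have i2 := small σ hσ h3 h2
      have i3 : cross ε K L ≤ barm (1/2) (⌈σ / ε⌉₊ + 2) n := by
        rw [← pr_shift_barm (x := nv ε w) (S := bx (nv ε w) n) (Finset.Subset.refl _), ehl,
          ← law_event hlf]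
        unfold cross
        refine measureReal_mono ?_
        rintro ω ⟨u, hu, v, hv, hr⟩
        rw [hn]
        refine up_event hε (ball L w σ hSL h2) h3 h2 (L := K)
          (fun y hy => by rw [dist_comm]; exact hd y hy w hSL.mem) (S := bx (nv ε w) n)
          (by rw [hn]) hv hu ((open_reach ω _ _).mp hr).symm ?_
        rw [FF_coe]
        rw [hn]
      have hb := barm_nonneg hf0 hf1 (⌈σ / ε⌉₊ + 2) n
      calc cross ε K L ≤ 1 * barm (1/2) (⌈σ / ε⌉₊ + 2) n := by linarith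
        _ ≤ (A * (ρ / d) ^ ((5:ℝ)/48)) * (A * (σ / d) ^ ((5:ℝ)/48)) :=
            mul_le_mul i1 i2 hb (by positivity)
        _ = _ := by ring
  · have h3 := eps ρ hρ' h1
    have i1 := small ρ hρ h3 h1
    rcases le_or_gt d (64 * σ) with h2 | h2
    · -- `K` small
      have i2 := big σ hσ h2
      have i3 : cross ε K L ≤ barm (1/2) (⌈ρ / ε⌉₊ + 2) n := by
        rw [← pr_shift_barm (x := nv ε z) (S := bx (nv ε z) n) (Finset.Subset.refl _), ehl,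
          ← law_event hlf]
        unfold cross
        refine measureReal_mono ?_
        rintro ω ⟨u, hu, v, hv, hr⟩
        rw [hn]
        refine up_event hε (ball K z ρ hSK h1) h3 h1 (L := L)
          (fun y hy => hd z hSK.mem y hy) (S := bx (nv ε z) n)
          (by rw [hn]) hu hv ((open_reach ω _ _).mp hr) ?_
        rw [FF_coe]
        rw [hn]
      have hb := barm_nonneg hf0 hf1 (⌈ρ / ε⌉₊ + 2) n
      calc cross ε K L ≤ barm (1/2) (⌈ρ / ε⌉₊ + 2) n * 1 := by linarith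
        _ ≤ (A * (ρ / d) ^ ((5:ℝ)/48)) * (A * (σ / d) ^ ((5:ℝ)/48)) :=
            mul_le_mul i1 i2 zero_le_one (by positivity)
        _ = _ := by ring
    · -- both small
      have h4 := eps σ hσ' h2
      have i2 := small σ hσ h4 h2
      obtain ⟨S, hS⟩ : ∃ S : Finset Edg, S = bx (nv ε z) n ∪ bx (nv ε w) n := ⟨_, rfl⟩
      have s1 : bx (nv ε z) n ⊆ S := by rw [hS]; exact Finset.subset_union_left
      have s2 : bx (nv ε w) n ⊆ S := by rw [hS]; exact Finset.subset_union_right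
      have hn1 : ε * n ≤ d / 4 := by
        have : (n:ℝ) ≤ d / (4 * ε) := by rw [hn]; exact Nat.floor_le (by positivity)
        calc ε * n ≤ ε * (d / (4 * ε)) := mul_le_mul_of_nonneg_left this hε.le
          _ = _ := by field_simp
      have hdis : Disjoint (bx (nv ε z) n) (bx (nv ε w) n) := by
        apply bx_disjoint
        refine lat_far hε hd0.le (by rw [hdd] : d ≤ dist z w) (nv_abs hε z) (nv_abs hε w) ?_
        push_cast
        nlinarith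
      have i3 : cross ε K L ≤ Pr (fun _ => (1/2:ℝ)) S (fun F =>
          BArm (⌈ρ / ε⌉₊ + 2) n (sh (nv ε z) F) ∧ BArm (⌈σ / ε⌉₊ + 2) n (sh (nv ε w) F)) := by
        rw [ehl, ← law_event hlf]
        unfold cross
        refine measureReal_mono ?_
        rintro ω ⟨u, hu, v, hv, hr⟩
        have hr' := (open_reach ω _ _).mp hr
        constructor
        · rw [hn]
          refine up_event hε (ball K z ρ hSK h1) h3 h1 (L := L)
            (fun y hy => hd z hSK.mem y hy) (S := S) (by rw [← hn]; exact s1) hu hv hr' ?_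
          rw [FF_coe]
        · rw [hn]
          refine up_event hε (ball L w σ hSL h2) h4 h2 (L := K)
            (fun y hy => by rw [dist_comm]; exact hd y hy w hSL.mem) (S := S)
            (by rw [← hn]; exact s2) hv hu hr'.symm ?_
          rw [FF_coe]
      have i4 := Pr_indep (p := fun _ => (1/2:ℝ)) (U := S) (S := bx (nv ε z) n)
        (T := bx (nv ε w) n) s1 s2 hdis
        (A := fun F => BArm (⌈ρ / ε⌉₊ + 2) n (sh (nv ε z) F))
        (B := fun F => BArm (⌈σ / ε⌉₊ + 2) n (sh (nv ε w) F))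
        (fun F _ => barm_shift_local (m := ⌈ρ / ε⌉₊ + 2) (n := n) (x := nv ε z) (F := F))
        (fun F _ => barm_shift_local (m := ⌈σ / ε⌉₊ + 2) (n := n) (x := nv ε w) (F := F))
      rw [i4, pr_shift_barm s1, pr_shift_barm s2] at i3
      have hb1 := barm_nonneg hf0 hf1 (⌈ρ / ε⌉₊ + 2) n
      have hb2 := barm_nonneg hf0 hf1 (⌈σ / ε⌉₊ + 2) n
      refine i3.trans ((mul_le_mul i1 i2 hb2 (hb1.trans i1)).trans (le_of_eq ?_))
      ring

end Pool.Agent.Y996.RD
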