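import Mathlib
import Pool.Agent.Y996.RD.Polar

/-!
A function of small Dirichlet energy separating two sets.
-/

set_option autoImplicit false

namespace Pool.Agent.Y996.RD

open MeasureTheory Set

open scoped ENNReal

/-- a trapezoidal function -/
noncomputable def kk (l t : ℝ) : ℝ := max 0 (min 1 (min t (l - t)))

theorem kk_cont (l : ℝ) : Continuous (kk l) := by
  unfold kk
  exact continuous_const.max (continuous_const.min (continuous_id.min
    (continuous_const.sub continuous_id)))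

theorem kk_nonneg (l t : ℝ) : 0 ≤ kk l t := le_max_left _ _

theorem kk_le_one (l t : ℝ) : kk l t ≤ 1 := max_le zero_le_one (min_le_left _ _)

theorem kk_left {l t : ℝ} (h : t ≤ 0) : kk l t = 0 := by
  unfold kk
  exact max_eq_left ((min_le_right _ _).trans ((min_le_left _ _).trans h))

theorem kk_right {l t : ℝ} (h : l ≤ t) : kk l t = 0 := by
  unfold kk
  exact max_eq_left ((min_le_right _ _).trans ((min_le_right _ _).trans (by linarith)))

theorem kk_one {l t : ℝ} (h1 : 1 ≤ t) (h2 : t ≤ l - 1) : kk l t = 1 := by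
  unfold kk
  rw [min_eq_left (le_min h1 (by linarith)), max_eq_right zero_le_one]

theorem kk_small {l : ℝ} (h : l ≤ 0) (t : ℝ) : kk l t = 0 := by
  rcases le_total t 0 with h1 | h1
  · exact kk_left h1
  · exact kk_right (h.trans h1)

/-- its primitive -/
noncomputable def HH (l s : ℝ) : ℝ := ∫ t in (0:ℝ)..s, kk l t

theorem HH_deriv (l s : ℝ) : HasDerivAt (HH l) (kk l s) s :=
  intervalIntegral.integral_hasDerivAt_right ((kk_cont l).intervalIntegrable _ _)
    ((kk_cont l).stronglyMeasurableAtFilter _ _) (kk_cont l).continuousAt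

theorem HH_left {l s : ℝ} (h : s ≤ 0) : HH l s = 0 := by
  unfold HH
  rw [intervalIntegral.integral_symm, neg_eq_zero]
  apply intervalIntegral.integral_zero_ae
  refine Filter.Eventually.of_forall fun t ht => ?_
  rw [uIoc_of_le h] at ht
  exact kk_left ht.2

theorem HH_right {l s : ℝ} (h : l ≤ s) : HH l s = HH l l := by
  unfold HH
  rw [← intervalIntegral.integral_add_adjacent_intervals (b := l)
    ((kk_cont l).intervalIntegrable _ _) ((kk_cont l).intervalIntegrable _ _), add_eq_left]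
  apply intervalIntegral.integral_zero_ae
  refine Filter.Eventually.of_forall fun t ht => ?_
  rw [uIoc_of_le h] at ht
  exact kk_right ht.1.le

theorem HH_small {l : ℝ} (h : l ≤ 0) (s : ℝ) : HH l s = 0 := by
  unfold HH
  simp [kk_small h]

theorem HH_nonneg (l : ℝ) : 0 ≤ HH l l := by
  rcases le_total l 0 with h | h
  · rw [HH_small h]
  · exact intervalIntegral.integral_nonneg h (fun _ _ => kk_nonneg _ _)

theorem HH_tot (l : ℝ) : l - 2 ≤ HH l l := by
  rcases le_total l 2 with h | h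
  · linarith [HH_nonneg l]
  · calc l - 2 = ∫ t in (1:ℝ)..(l - 1), (1:ℝ) := by
          rw [intervalIntegral.integral_const, smul_eq_mul]; ring
      _ = ∫ t in (1:ℝ)..(l - 1), kk l t := by
          apply intervalIntegral.integral_congr
          intro t ht
          rw [uIcc_of_le (by linarith)] at ht
          exact (kk_one ht.1 ht.2).symm
      _ ≤ HH l l := by
          unfold HH
          apply intervalIntegral.integral_mono_interval (by norm_num) (by linarith) (by linarith)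
            (Filter.Eventually.of_forall (kk_nonneg l)) ((kk_cont l).intervalIntegrable _ _)

theorem HH_contDiff (l : ℝ) : ContDiff ℝ 1 (HH l) := by
  rw [contDiff_one_iff_deriv]
  refine ⟨fun s => (HH_deriv l s).differentiableAt, ?_⟩
  have : deriv (HH l) = kk l := funext fun s => (HH_deriv l s).deriv
  rw [this]
  exact kk_cont l

/-- the radial function -/
noncomputable def Ph (z0 : ℂ) (ρ l : ℝ) (z : ℂ) : ℝ := HH l (Real.log (‖z - z0‖ / ρ))

theorem log_le_zero {z z0 : ℂ} {ρ : ℝ} (hρ : 0 < ρ) (h : ‖z - z0‖ ≤ ρ) :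
    Real.log (‖z - z0‖ / ρ) ≤ 0 :=
  Real.log_nonpos (by positivity) (by rw [div_le_one hρ]; exact h)

theorem Ph_zero {z z0 : ℂ} {ρ l : ℝ} (hρ : 0 < ρ) (h : ‖z - z0‖ ≤ ρ) : Ph z0 ρ l z = 0 :=
  HH_left (log_le_zero hρ h)

theorem Ph_near (z0 : ℂ) {ρ : ℝ} (hρ : 0 < ρ) (l : ℝ) :
    Ph z0 ρ l =ᶠ[nhds z0] fun _ => 0 := by
  filter_upwards [Metric.ball_mem_nhds z0 hρ] with z hz
  apply Ph_zero hρ
  rw [← dist_eq_norm]
  exact (Metric.mem_ball.mp hz).le

theorem Ph_contDiff (z0 : ℂ) {ρ : ℝ} (hρ : 0 < ρ) (l : ℝ) : ContDiff ℝ 1 (Ph z0 ρ l) := by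
  rw [contDiff_iff_contDiffAt]
  intro z
  by_cases h : z = z0
  · rw [h]
    exact contDiffAt_const.congr_of_eventuallyEq (Ph_near z0 hρ l)
  · have h1 : z - z0 ≠ 0 := sub_ne_zero.mpr h
    unfold Ph
    apply (HH_contDiff l).contDiffAt.comp z
    apply ContDiffAt.log
    · apply ContDiffAt.div_const
      exact (contDiffAt_id.sub contDiffAt_const).norm ℝ h1
    · have := norm_pos_iff.mpr h1
      positivity

theorem Ph_fderiv (z0 : ℂ) {ρ : ℝ} (hρ : 0 < ρ) (l : ℝ) (z : ℂ) :
    ‖fderiv ℝ (Ph z0 ρ l) z‖ ≤ kk l (Real.log (‖z - z0‖ / ρ)) / ‖z - z0‖ := by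
  by_cases h : z = z0
  · subst h
    rw [(Ph_near z hρ l).fderiv_eq]
    simp
  · have h1 : z - z0 ≠ 0 := sub_ne_zero.mpr h
    have hn := norm_pos_iff.mpr h1
    have hN : DifferentiableAt ℝ (fun w : ℂ => ‖w - z0‖) z :=
      ((contDiffAt_id.sub contDiffAt_const).norm ℝ h1).differentiableAt one_ne_zero
    have hN1 : ‖fderiv ℝ (fun w : ℂ => ‖w - z0‖) z‖ ≤ 1 := by
      have hl : LipschitzWith 1 (fun w : ℂ => ‖w - z0‖) := by
        apply LipschitzWith.of_dist_le_mul
        intro a b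
        rw [NNReal.coe_one, one_mul, Real.dist_eq, dist_eq_norm]
        refine (abs_norm_sub_norm_le _ _).trans (le_of_eq ?_)
        congr 1; ring
      simpa using norm_fderiv_le_of_lipschitz ℝ hl (x₀ := z)
    have hd : HasFDerivAt (Ph z0 ρ l)
        ((kk l (Real.log (‖z - z0‖ / ρ)) * (‖z - z0‖)⁻¹) •
          fderiv ℝ (fun w : ℂ => ‖w - z0‖) z) z := by
      have h2 : HasDerivAt (fun t : ℝ => HH l (Real.log (t / ρ)))
          (kk l (Real.log (‖z - z0‖ / ρ)) * (‖z - z0‖)⁻¹) ‖z - z0‖ := by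
        have h3 : HasDerivAt (fun t : ℝ => Real.log (t / ρ)) (‖z - z0‖)⁻¹ ‖z - z0‖ := by
          have h4 := (Real.hasDerivAt_log (x := ‖z - z0‖ / ρ) (by positivity)).comp ‖z - z0‖
            ((hasDerivAt_id ‖z - z0‖).div_const ρ)
          refine h4.congr_deriv ?_
          field_simp
        exact (HH_deriv l _).comp _ h3
      exact HasDerivAt.comp_hasFDerivAt (h₂ := fun t : ℝ => HH l (Real.log (t / ρ)))
        (f := fun w : ℂ => ‖w - z0‖) z h2 hN.hasFDerivAt
    rw [hd.fderiv, norm_smul, Real.norm_eq_abs, abs_of_nonneg (mul_nonneg (kk_nonneg _ _)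
      (by positivity)), div_eq_mul_inv]
    exact mul_le_of_le_one_right (mul_nonneg (kk_nonneg _ _) (by positivity)) hN1

theorem polar_full (f : ℂ → ℝ≥0∞) (hf : Measurable f) (z0 : ℂ) :
    ∫⁻ z, f z = ∫⁻ r in Ioi (0:ℝ), ∫⁻ θ in Ioo (-Real.pi) Real.pi,
      ENNReal.ofReal r * f (pc z0 r θ) := by
  rw [← lintegral_add_left_eq_self f z0, ← Complex.lintegral_comp_polarCoord_symm,
    polarCoord_target]
  have e1 : (volume : Measure (ℝ × ℝ)).restrict (Ioi (0:ℝ) ×ˢ Ioo (-Real.pi) Real.pi) =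
      (volume.restrict (Ioi (0:ℝ))).prod (volume.restrict (Ioo (-Real.pi) Real.pi)) := by
    rw [Measure.prod_restrict]; rfl
  rw [e1, lintegral_prod]
  · apply lintegral_congr
    intro r
    apply lintegral_congr
    intro θ
    have hm : z0 + Complex.polarCoord.symm (r, θ) = pc z0 r θ := by
      rw [Complex.polarCoord_symm_apply]; rfl
    rw [hm, smul_eq_mul]
  · apply Measurable.aemeasurable
    have hc : Continuous (fun p : ℝ × ℝ => z0 + Complex.polarCoord.symm p) := by
      simp only [Complex.polarCoord_symm_apply]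
      fun_prop
    simp only [smul_eq_mul]
    exact (measurable_fst.ennreal_ofReal).mul (hf.comp hc.measurable)

/-- the Dirichlet energy -/
noncomputable def energy (u : ℂ → ℝ) : ℝ≥0∞ := ∫⁻ z, ENNReal.ofReal (‖fderiv ℝ u z‖ ^ 2)

theorem Ph_energy (z0 : ℂ) {ρ : ℝ} (hρ : 0 < ρ) (l : ℝ) :
    energy (Ph z0 ρ l) ≤ ENNReal.ofReal (2 * Real.pi * HH l l) := by
  have hpi := Real.pi_pos
  have hfm : Measurable (fun z : ℂ => ENNReal.ofReal
      (kk l (Real.log (‖z - z0‖ / ρ)) / ‖z - z0‖ ^ 2)) := by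
    have h1 : Measurable (fun z : ℂ => ‖z - z0‖) :=
      (continuous_id.sub continuous_const).norm.measurable
    exact ((((kk_cont l).measurable.comp (Real.measurable_log.comp (h1.div_const ρ))).div
      (h1.pow_const 2))).ennreal_ofReal
  have step1 : energy (Ph z0 ρ l) ≤ ∫⁻ z, ENNReal.ofReal
      (kk l (Real.log (‖z - z0‖ / ρ)) / ‖z - z0‖ ^ 2) := by
    apply lintegral_mono
    intro z
    apply ENNReal.ofReal_le_ofReal
    have h1 := Ph_fderiv z0 hρ l z
    have h2 := kk_nonneg l (Real.log (‖z - z0‖ / ρ))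
    have h3 := kk_le_one l (Real.log (‖z - z0‖ / ρ))
    calc ‖fderiv ℝ (Ph z0 ρ l) z‖ ^ 2 ≤ (kk l (Real.log (‖z - z0‖ / ρ)) / ‖z - z0‖) ^ 2 :=
          pow_le_pow_left₀ (norm_nonneg _) h1 2
      _ = kk l (Real.log (‖z - z0‖ / ρ)) ^ 2 / ‖z - z0‖ ^ 2 := div_pow _ _ _
      _ ≤ _ := by
          apply div_le_div_of_nonneg_right _ (sq_nonneg _)
          nlinarith
  refine step1.trans ?_
  rw [polar_full _ hfm z0]
  have step2 : ∫⁻ r in Ioi (0:ℝ), ∫⁻ θ in Ioo (-Real.pi) Real.pi, ENNReal.ofReal r *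
      ENNReal.ofReal (kk l (Real.log (‖pc z0 r θ - z0‖ / ρ)) / ‖pc z0 r θ - z0‖ ^ 2) =
      ∫⁻ r in Ioi (0:ℝ), ENNReal.ofReal (2 * Real.pi * (kk l (Real.log (r / ρ)) * r⁻¹)) := by
    apply setLIntegral_congr_fun measurableSet_Ioi
    intro r hr
    have hr0 : (0:ℝ) < r := hr
    simp only
    have e : ∀ θ, ENNReal.ofReal r *
        ENNReal.ofReal (kk l (Real.log (‖pc z0 r θ - z0‖ / ρ)) / ‖pc z0 r θ - z0‖ ^ 2) =
        ENNReal.ofReal (kk l (Real.log (r / ρ)) * r⁻¹) := by
      intro θ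
      rw [← dist_eq_norm, dist_pc, abs_of_pos hr0, ← ENNReal.ofReal_mul hr0.le]
      congr 1
      field_simp
    simp only [e]
    rw [setLIntegral_const, Real.volume_Ioo, mul_comm, ← ENNReal.ofReal_mul (by linarith)]
    congr 1
    ring
  rw [step2]
  rcases le_or_gt l 0 with hl | hl
  · simp [kk_small hl]
  · have hle : ρ ≤ ρ * Real.exp l := by
      have := Real.one_le_exp hl.le
      nlinarith
    have hpos : ∀ r ∈ Icc ρ (ρ * Real.exp l), 0 < r := fun r hr => hρ.trans_le hr.1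
    have hzero : ∀ r ∈ Ioi (0:ℝ), r ∉ Ioc ρ (ρ * Real.exp l) →
        kk l (Real.log (r / ρ)) = 0 := by
      intro r hr hn
      have hr0 : (0:ℝ) < r := hr
      rw [Set.mem_Ioc, not_and_or, not_lt, not_le] at hn
      rcases hn with hn | hn
      · apply kk_left
        exact Real.log_nonpos (by positivity) (by rw [div_le_one hρ]; exact hn)
      · apply kk_right
        rw [Real.le_log_iff_exp_le (by positivity), le_div_iff₀ hρ, mul_comm]
        exact hn.le
    have step3 : ∫⁻ r in Ioi (0:ℝ), ENNReal.ofReal (2 * Real.pi * (kk l (Real.log (r / ρ)) * r⁻¹))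
        ≤ ∫⁻ r in Ioc ρ (ρ * Real.exp l),
          ENNReal.ofReal (2 * Real.pi * (kk l (Real.log (r / ρ)) * r⁻¹)) := by
      rw [← lintegral_indicator measurableSet_Ioi, ← lintegral_indicator measurableSet_Ioc]
      apply lintegral_mono
      intro r
      by_cases h1 : r ∈ Ioi (0:ℝ)
      · by_cases h2 : r ∈ Ioc ρ (ρ * Real.exp l)
        · rw [Set.indicator_of_mem h1, Set.indicator_of_mem h2]
        · rw [Set.indicator_of_mem h1, hzero r h1 h2]
          simp
      · rw [Set.indicator_of_notMem h1]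
        exact zero_le
    refine step3.trans ?_
    have hco : ContinuousOn (fun r => 2 * Real.pi * (kk l (Real.log (r / ρ)) * r⁻¹))
        (Icc ρ (ρ * Real.exp l)) := by
      apply continuousOn_const.mul
      apply ContinuousOn.mul
      · apply (kk_cont l).comp_continuousOn
        apply ContinuousOn.log
        · exact continuousOn_id.div_const ρ
        · intro r hr
          have := hpos r hr
          positivity
      · exact continuousOn_id.inv₀ (fun r hr => (hpos r hr).ne')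
    have hint : ∫ r in ρ..(ρ * Real.exp l), 2 * Real.pi * (kk l (Real.log (r / ρ)) * r⁻¹) =
        2 * Real.pi * HH l l := by
      rw [intervalIntegral.integral_const_mul]
      rw [intervalIntegral.integral_eq_sub_of_hasDerivAt (f := fun r => HH l (Real.log (r / ρ)))]
      · rw [mul_div_cancel_left₀ _ hρ.ne', Real.log_exp, div_self hρ.ne', Real.log_one,
          HH_left le_rfl, sub_zero]
      · intro r hr
        rw [uIcc_of_le hle] at hr
        have hr0 := hpos r hr
        have h3 : HasDerivAt (fun t : ℝ => Real.log (t / ρ)) r⁻¹ r := by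
          have h4 := (Real.hasDerivAt_log (x := r / ρ) (by positivity)).comp r
            ((hasDerivAt_id r).div_const ρ)
          refine h4.congr_deriv ?_
          field_simp
        exact (HH_deriv l _).comp _ h3
      · have h5 : ContinuousOn (fun r => kk l (Real.log (r / ρ)) * r⁻¹)
            (Icc ρ (ρ * Real.exp l)) := by
          apply ContinuousOn.mul
          · apply (kk_cont l).comp_continuousOn
            apply ContinuousOn.log
            · exact continuousOn_id.div_const ρ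
            · intro r hr
              have := hpos r hr
              positivity
          · exact continuousOn_id.inv₀ (fun r hr => (hpos r hr).ne')
        exact (h5.mono (by rw [uIcc_of_le hle])).intervalIntegrable
    rw [← hint, intervalIntegral.integral_of_le hle, ofReal_integral_eq_lintegral_ofReal]
    · exact (hco.integrableOn_Icc).mono_set Ioc_subset_Icc_self
    · refine (ae_restrict_iff' measurableSet_Ioc).mpr (Filter.Eventually.of_forall ?_)
      intro r hr
      have hr0 : 0 < r := hρ.trans hr.1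
      exact mul_nonneg (by positivity) (mul_nonneg (kk_nonneg _ _) (by positivity))

/-- the derivative of the radial function vanishes outside an annulus -/
theorem Ph_fderiv_zero (z0 : ℂ) {ρ : ℝ} (hρ : 0 < ρ) (l : ℝ) (z : ℂ)
    (h : ρ * Real.exp l ≤ ‖z - z0‖) : fderiv ℝ (Ph z0 ρ l) z = 0 := by
  have h1 := Ph_fderiv z0 hρ l z
  have h2 : kk l (Real.log (‖z - z0‖ / ρ)) = 0 := by
    apply kk_right
    have hp : 0 < ‖z - z0‖ := lt_of_lt_of_le (by positivity) h
    rw [Real.le_log_iff_exp_le (by positivity), le_div_iff₀ hρ, mul_comm]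
    exact h
  rw [h2, zero_div] at h1
  exact norm_le_zero_iff.mp h1

theorem Ph_tot {z0 : ℂ} {ρ : ℝ} (hρ : 0 < ρ) (l : ℝ) {z : ℂ}
    (h : ρ * Real.exp l ≤ ‖z - z0‖) : Ph z0 ρ l z = HH l l := by
  unfold Ph
  apply HH_right
  have hp : 0 < ‖z - z0‖ := lt_of_lt_of_le (by positivity) h
  rw [Real.le_log_iff_exp_le (by positivity), le_div_iff₀ hρ, mul_comm]
  exact h

/-- **The separating function.** -/
theorem test_fun {K L : Set ℂ} {z1 z2 : ℂ} {d ρ1 ρ2 : ℝ} (hd : dist z1 z2 = d) (h1 : 0 < ρ1)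
    (h2 : 0 < ρ2) (hd0 : 0 < d)
    (hK : ρ1 = d ∨ K ⊆ Metric.closedBall z1 ρ1) (hL : ρ2 = d ∨ L ⊆ Metric.closedBall z2 ρ2)
    (hK2 : ∀ x ∈ K, d ≤ dist x z2) (hL1 : ∀ x ∈ L, d ≤ dist x z1) {l1 l2 : ℝ}
    (hl1 : ρ1 * Real.exp l1 = d / 2) (hl2 : ρ2 * Real.exp l2 = d / 2)
    (hW : 0 < HH l1 l1 + HH l2 l2) :
    ∃ u : ℂ → ℝ, ContDiff ℝ 1 u ∧ (∀ x ∈ K, u x = 0) ∧ (∀ x ∈ L, u x = 1) ∧
      energy u ≤ ENNReal.ofReal (2 * Real.pi / (HH l1 l1 + HH l2 l2)) := by
  obtain ⟨W, hWW⟩ : ∃ W, W = HH l1 l1 + HH l2 l2 := ⟨_, rfl⟩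
  rw [← hWW] at hW ⊢
  have hpi := Real.pi_pos
  have c1 := Ph_contDiff z1 h1 l1
  have c2 := Ph_contDiff z2 h2 l2
  have neg : ∀ ρ l : ℝ, ρ = d → ρ * Real.exp l = d / 2 → l ≤ 0 := by
    intro ρ l hρ hl
    rw [hρ] at hl
    have h3 : Real.exp l = 1 / 2 := by
      have : d * Real.exp l = d * (1 / 2) := by linarith
      exact mul_left_cancel₀ hd0.ne' this
    by_contra hcon
    have := Real.one_lt_exp_iff.mpr (not_le.mp hcon)
    linarith
  refine ⟨fun z => W⁻¹ * (Ph z1 ρ1 l1 z + HH l2 l2 - Ph z2 ρ2 l2 z), ?_, ?_, ?_, ?_⟩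
  · exact contDiff_const.mul ((c1.add contDiff_const).sub c2)
  · intro x hx
    have e1 : Ph z1 ρ1 l1 x = 0 := by
      rcases hK with hK | hK
      · exact HH_small (neg _ _ hK hl1) _
      · apply Ph_zero h1
        rw [← dist_eq_norm]
        exact Metric.mem_closedBall.mp (hK hx)
    have e2 : Ph z2 ρ2 l2 x = HH l2 l2 := by
      apply Ph_tot h2
      rw [hl2, ← dist_eq_norm]
      linarith [hK2 x hx]
    simp only [e1, e2]
    ring
  · intro x hx
    have e1 : Ph z2 ρ2 l2 x = 0 := by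
      rcases hL with hL | hL
      · exact HH_small (neg _ _ hL hl2) _
      · apply Ph_zero h2
        rw [← dist_eq_norm]
        exact Metric.mem_closedBall.mp (hL hx)
    have e2 : Ph z1 ρ1 l1 x = HH l1 l1 := by
      apply Ph_tot h1
      rw [hl1, ← dist_eq_norm]
      linarith [hL1 x hx]
    simp only [e1, e2, sub_zero, ← hWW]
    exact inv_mul_cancel₀ hW.ne'
  · have hder : ∀ z, ‖fderiv ℝ (fun z => W⁻¹ * (Ph z1 ρ1 l1 z + HH l2 l2 - Ph z2 ρ2 l2 z)) z‖ ^ 2 ≤
        (W⁻¹) ^ 2 * (‖fderiv ℝ (Ph z1 ρ1 l1) z‖ ^ 2 + ‖fderiv ℝ (Ph z2 ρ2 l2) z‖ ^ 2) := by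
      intro z
      have d1 := ((c1.differentiable one_ne_zero) z).hasFDerivAt
      have d2 := ((c2.differentiable one_ne_zero) z).hasFDerivAt
      have d3 := ((d1.add_const (HH l2 l2)).fun_sub d2).const_mul W⁻¹
      rw [d3.fderiv, norm_smul, mul_pow, Real.norm_eq_abs, sq_abs]
      apply mul_le_mul_of_nonneg_left _ (sq_nonneg _)
      rcases le_or_gt (d / 2) ‖z - z1‖ with h | h
      · rw [Ph_fderiv_zero z1 h1 l1 z (by rw [hl1]; exact h)]
        simp
      · have h' : d / 2 ≤ ‖z - z2‖ := by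
          have := dist_triangle z1 z z2
          rw [dist_comm z1 z, dist_eq_norm z z1, dist_eq_norm z z2] at this
          linarith
        rw [Ph_fderiv_zero z2 h2 l2 z (by rw [hl2]; exact h')]
        simp
    have m1 : Measurable (fun z => ENNReal.ofReal (‖fderiv ℝ (Ph z1 ρ1 l1) z‖ ^ 2)) :=
      ((dens_cont c1).pow 2).measurable.ennreal_ofReal
    have m2 : Measurable (fun z => ENNReal.ofReal (‖fderiv ℝ (Ph z2 ρ2 l2) z‖ ^ 2)) :=
      ((dens_cont c2).pow 2).measurable.ennreal_ofReal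
    calc energy (fun z => W⁻¹ * (Ph z1 ρ1 l1 z + HH l2 l2 - Ph z2 ρ2 l2 z))
        ≤ ∫⁻ z, ENNReal.ofReal ((W⁻¹) ^ 2) * (ENNReal.ofReal (‖fderiv ℝ (Ph z1 ρ1 l1) z‖ ^ 2) +
            ENNReal.ofReal (‖fderiv ℝ (Ph z2 ρ2 l2) z‖ ^ 2)) := by
          apply lintegral_mono
          intro z
          simp only
          rw [← ENNReal.ofReal_add (sq_nonneg _) (sq_nonneg _),
            ← ENNReal.ofReal_mul (sq_nonneg _)]
          exact ENNReal.ofReal_le_ofReal (hder z)
      _ = ENNReal.ofReal ((W⁻¹) ^ 2) * (energy (Ph z1 ρ1 l1) + energy (Ph z2 ρ2 l2)) := by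
          have m3 : Measurable (fun z => ENNReal.ofReal (‖fderiv ℝ (Ph z1 ρ1 l1) z‖ ^ 2) +
            ENNReal.ofReal (‖fderiv ℝ (Ph z2 ρ2 l2) z‖ ^ 2)) := m1.add m2
          rw [lintegral_const_mul _ m3, lintegral_add_left m1]
          rfl
      _ ≤ ENNReal.ofReal ((W⁻¹) ^ 2) * (ENNReal.ofReal (2 * Real.pi * HH l1 l1) +
            ENNReal.ofReal (2 * Real.pi * HH l2 l2)) := by
          gcongr
          · exact Ph_energy z1 h1 l1
          · exact Ph_energy z2 h2 l2
      _ = ENNReal.ofReal (2 * Real.pi / W) := by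
          rw [← ENNReal.ofReal_add (mul_nonneg (by positivity) (HH_nonneg _))
            (mul_nonneg (by positivity) (HH_nonneg _)), ← ENNReal.ofReal_mul (sq_nonneg _)]
          congr 1
          rw [← mul_add, ← hWW]
          field_simp

end Pool.Agent.Y996.RD
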