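import Mathlib
import Pool.Agent.Y996.RD.Perc2
import Pool.Agent.Y996.RD.Energy
import Pool.Agent.Y996.RD.Test
import Pool.Agent.H160R2.SA.Arm

/-!
The crossing probability of a doubly connected domain and its modulus.
-/

set_option autoImplicit false

namespace Pool.Agent.Y996.RD

open MeasureTheory Set H974

open scoped ENNReal

/-- the capacity of the condenser with plates `K` and `L` -/
noncomputable def capacity (K L : Set ℂ) : ℝ≥0∞ :=
  ⨅ (u : ℂ → ℝ) (_ : ContDiff ℝ 1 u ∧ (∀ z ∈ K, u z = 0) ∧ ∀ z ∈ L, u z = 1), energy u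

/-- the modulus -/
noncomputable def modulus (K L : Set ℂ) : ℝ := (capacity K L).toReal⁻¹

theorem sharp : ∃ c C : ℝ, 0 < c ∧ 0 < C ∧ Sharp c C := by
  obtain ⟨c, C, hc, hC, h⟩ := H160R2.SA.arSharp
  exact ⟨c, C, hc, hC, fun n hn => h n hn⟩

theorem size_exists {K : Set ℂ} (hK : IsClosed K) {z : ℂ} (hz : z ∈ K) {d ε : ℝ} (hd : 0 < d)
    (hε : 0 < ε) (h : ∃ x ∈ K, ∃ y ∈ K, ε ≤ dist x y) :
    ∃ ρ, Size K z d ρ ∧ (ε ≤ ρ ∨ ρ = d) := by
  by_cases h1 : ∃ x ∈ K, d / 2 ≤ dist x z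
  · exact ⟨d, ⟨hz, hd, le_rfl, h1, Or.inl rfl⟩, Or.inr rfl⟩
  · push Not at h1
    have hsub : K ⊆ Metric.closedBall z (d / 2) := fun x hx => (h1 x hx).le
    have hc : IsCompact K := (isCompact_closedBall z (d / 2)).of_isClosed_subset hK hsub
    have hcd : ContinuousOn (fun x : ℂ => dist x z) K :=
      (continuous_id.dist continuous_const).continuousOn
    obtain ⟨x0, hx0, hmax⟩ := hc.exists_isMaxOn ⟨z, hz⟩ hcd
    have hm : ∀ x ∈ K, dist x z ≤ dist x0 z := fun x hx => hmax hx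
    obtain ⟨x, hx, y, hy, hxy⟩ := h
    have h2 : ε ≤ 2 * dist x0 z := by
      calc ε ≤ dist x y := hxy
        _ ≤ dist x z + dist z y := dist_triangle _ _ _
        _ ≤ _ := by rw [dist_comm z y]; linarith [hm x hx, hm y hy]
    refine ⟨2 * dist x0 z, ⟨hz, hε.trans_le h2, ?_, ⟨x0, hx0, ?_⟩, Or.inr ?_⟩, Or.inl h2⟩
    · linarith [h1 x0 hx0]
    · linarith
    · intro x hx
      rw [Metric.mem_closedBall]
      linarith [hm x hx, dist_nonneg (x := x0) (y := z)]

theorem circle_hits {K : Set ℂ} (hK : IsPreconnected K) {z : ℂ} {d ρ : ℝ} (hS : Size K z d ρ)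
    {r : ℝ} (hr : 0 ≤ r) (h : r ≤ ρ / 2) : ∃ x ∈ K, dist x z = r := by
  obtain ⟨x, hx, hd⟩ := hS.far
  have hc : ContinuousOn (fun x : ℂ => dist x z) K :=
    (continuous_id.dist continuous_const).continuousOn
  have h1 := hK.intermediate_value hS.mem hx hc
  have h2 : r ∈ Icc (dist z z) (dist x z) := by
    rw [dist_self]; exact ⟨hr, h.trans hd⟩
  obtain ⟨y, hy, hy2⟩ := h1 h2
  exact ⟨y, hy, hy2⟩

/-- every small circle about `z` meets `K` -/
def Hits (K : Set ℂ) (z : ℂ) (ρ : ℝ) : Prop :=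
  ∀ r : ℝ, 0 ≤ r → r ≤ ρ / 2 → ∃ x ∈ K, dist x z = r

theorem en_energy (u : ℂ → ℝ) : en u univ = energy u := by
  unfold en energy
  rw [withDensity_apply _ MeasurableSet.univ, Measure.restrict_univ]

theorem log_div_nonneg {a b : ℝ} (ha : 0 < a) (h : a ≤ b) : 0 ≤ Real.log (b / a) :=
  Real.log_nonneg (by rw [le_div_iff₀ ha]; linarith)

/-- the capacity from below -/
theorem cap_ge {K L : Set ℂ} {z w : ℂ} {ρ σ : ℝ} (hK : Hits K z ρ) (hL : Hits L w σ)
    (h1 : Size K z (dist z w) ρ) (h2 : Size L w (dist z w) σ) :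
    ENNReal.ofReal (1 / (220 + (Real.log (dist z w / ρ) + Real.log (dist z w / σ)) /
      (2 * Real.pi))) ≤ capacity K L := by
  have hpi := Real.pi_pos
  obtain ⟨d, hd⟩ : ∃ d, d = dist z w := ⟨_, rfl⟩
  rw [← hd] at h1 h2 ⊢
  have hd0 : 0 < d := h1.pos.trans_le h1.le
  have l1 := log_div_nonneg h1.pos h1.le
  have l2 := log_div_nonneg h2.pos h2.le
  obtain ⟨B, hB⟩ : ∃ B, B = 220 + (Real.log (d / ρ) + Real.log (d / σ)) / (2 * Real.pi) := ⟨_, rfl⟩
  have hB0 : 0 < B := by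
    rw [hB]
    have : 0 ≤ (Real.log (d / ρ) + Real.log (d / σ)) / (2 * Real.pi) :=
      div_nonneg (add_nonneg l1 l2) (by positivity)
    linarith
  rw [← hB]
  unfold capacity
  refine le_iInf fun u => le_iInf fun hu => ?_
  obtain ⟨hu, hu0, hu1⟩ := hu
  by_cases hfin : energy u = ⊤
  · rw [hfin]; exact le_top
  rw [← en_energy] at hfin
  have key : ∀ r : ℝ, 0 < r → r ≤ d → Real.log (d / 8 / min (r / 2) (d / 8)) ≤ Real.log (d / r) := by
    intro r hr hrd
    have hm : 0 < min (r / 2) (d / 8) := lt_min (by positivity) (by positivity)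
    apply Real.log_le_log (by positivity)
    rw [div_le_div_iff₀ hm hr]
    rcases le_total (r / 2) (d / 8) with h | h
    · rw [min_eq_left h]; nlinarith
    · rw [min_eq_right h]; nlinarith
  have hσ1 : 0 < min (ρ / 2) (d / 8) := lt_min (by linarith [h1.pos]) (by positivity)
  have hσ2 : 0 < min (σ / 2) (d / 8) := lt_min (by linarith [h2.pos]) (by positivity)
  have hl := energy_lower hu hfin (z1 := z) (z2 := w) (δ := d / 8) (σ1 := min (ρ / 2) (d / 8))
    (σ2 := min (σ / 2) (d / 8)) (κ1 := 0) (κ2 := 1) hσ1 hσ2 (min_le_right _ _) (min_le_right _ _)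
    (by rw [← hd]; ring)
    (by
      intro r hr
      obtain ⟨x, hx, hxr⟩ := hK r (by linarith [hr.1]) (hr.2.trans (min_le_left _ _))
      exact ⟨x, hxr, hu0 x hx⟩)
    (by
      intro r hr
      obtain ⟨x, hx, hxr⟩ := hL r (by linarith [hr.1]) (hr.2.trans (min_le_left _ _))
      exact ⟨x, hxr, hu1 x hx⟩)
  have hE0 : 0 ≤ (en u).real univ := measureReal_nonneg
  have h3 : (1:ℝ) ≤ B * (en u).real univ := by
    calc (1:ℝ) = (0 - 1) ^ 2 := by norm_num
      _ ≤ _ := hl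
      _ ≤ B * (en u).real univ := by
          apply mul_le_mul_of_nonneg_right _ hE0
          rw [hB]
          have k1 := key ρ h1.pos h1.le
          have k2 := key σ h2.pos h2.le
          gcongr
  rw [← en_energy]
  refine ENNReal.ofReal_le_of_le_toReal ?_
  rw [← measureReal_def, div_le_iff₀ hB0, mul_comm]
  exact h3


theorem modulus_le {K L : Set ℂ} {z w : ℂ} {ρ σ : ℝ} (hK : Hits K z ρ) (hL : Hits L w σ)
    (h1 : Size K z (dist z w) ρ) (h2 : Size L w (dist z w) σ) :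
    modulus K L ≤ 220 + (Real.log (dist z w / ρ) + Real.log (dist z w / σ)) / (2 * Real.pi) := by
  have hpi := Real.pi_pos
  have h := cap_ge hK hL h1 h2
  have l1 := log_div_nonneg h1.pos h1.le
  have l2 := log_div_nonneg h2.pos h2.le
  obtain ⟨B, hB⟩ : ∃ B, B = 220 + (Real.log (dist z w / ρ) + Real.log (dist z w / σ)) /
    (2 * Real.pi) := ⟨_, rfl⟩
  have hB0 : 0 < B := by
    rw [hB]
    have : 0 ≤ (Real.log (dist z w / ρ) + Real.log (dist z w / σ)) / (2 * Real.pi) :=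
      div_nonneg (add_nonneg l1 l2) (by positivity)
    linarith
  rw [← hB] at h ⊢
  unfold modulus
  by_cases hfin : capacity K L = ⊤
  · rw [hfin, ENNReal.toReal_top, inv_zero]; exact hB0.le
  · have h3 := (ENNReal.ofReal_le_iff_le_toReal hfin).mp h
    have h4 : 0 < 1 / B := by positivity
    calc ((capacity K L).toReal)⁻¹ ≤ (1 / B)⁻¹ := inv_anti₀ h4 h3
      _ = B := by rw [one_div, inv_inv]

theorem modulus_ge {K L : Set ℂ} {z w : ℂ} {ρ σ : ℝ} (hK : Hits K z ρ) (hL : Hits L w σ)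
    (h1 : Size K z (dist z w) ρ) (h2 : Size L w (dist z w) σ)
    (hmin : ∀ x ∈ K, ∀ y ∈ L, dist z w ≤ dist x y) :
    (Real.log (dist z w / ρ) + Real.log (dist z w / σ)) / (2 * Real.pi) - 1 ≤ modulus K L := by
  have hpi := Real.pi_pos
  have hpi3 := Real.pi_gt_three
  have hcap := cap_ge hK hL h1 h2
  have l1 := log_div_nonneg h1.pos h1.le
  have l2 := log_div_nonneg h2.pos h2.le
  obtain ⟨d, hd⟩ : ∃ d, d = dist z w := ⟨_, rfl⟩
  rw [← hd] at h1 h2 hmin l1 l2 hcap ⊢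
  have hd0 : 0 < d := h1.pos.trans_le h1.le
  have hB0 : 0 < 220 + (Real.log (d / ρ) + Real.log (d / σ)) / (2 * Real.pi) := by
    have : 0 ≤ (Real.log (d / ρ) + Real.log (d / σ)) / (2 * Real.pi) :=
      div_nonneg (add_nonneg l1 l2) (by positivity)
    linarith
  have hpos : 0 < capacity K L := lt_of_lt_of_le (ENNReal.ofReal_pos.mpr (by positivity)) hcap
  have ex : ∀ r : ℝ, 0 < r → r * Real.exp (Real.log (d / (2 * r))) = d / 2 := by
    intro r hr
    rw [Real.exp_log (by positivity)]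
    field_simp
  have lg : ∀ r : ℝ, 0 < r → Real.log (d / r) - 1 ≤ Real.log (d / (2 * r)) := by
    intro r hr
    have e : d / (2 * r) = d / r / 2 := by field_simp
    have hdr : d / r ≠ 0 := (div_pos hd0 hr).ne'
    rw [e, Real.log_div hdr (by norm_num)]
    linarith [Real.log_two_lt_d9]
  obtain ⟨W, hW⟩ : ∃ W, W = HH (Real.log (d / (2 * ρ))) (Real.log (d / (2 * ρ))) +
    HH (Real.log (d / (2 * σ))) (Real.log (d / (2 * σ))) := ⟨_, rfl⟩
  have hW0 : 0 ≤ W := by rw [hW]; exact add_nonneg (HH_nonneg _) (HH_nonneg _)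
  have hW1 : Real.log (d / ρ) + Real.log (d / σ) - 6 ≤ W := by
    rw [hW]
    have a1 := HH_tot (Real.log (d / (2 * ρ)))
    have a2 := HH_tot (Real.log (d / (2 * σ)))
    have a3 := lg ρ h1.pos
    have a4 := lg σ h2.pos
    linarith
  have hm0 : 0 ≤ modulus K L := by unfold modulus; positivity
  have hmain : W / (2 * Real.pi) ≤ modulus K L := by
    rcases hW0.eq_or_lt with h0 | h0
    · rw [← h0, zero_div]; exact hm0
    · obtain ⟨u, hu1, hu2, hu3, hu4⟩ := test_fun (K := K) (L := L) hd.symm h1.pos h2.pos hd0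
        h1.bd h2.bd (fun x hx => hmin x hx w h2.mem)
        (fun x hx => by rw [dist_comm]; exact hmin z h1.mem x hx)
        (ex ρ h1.pos) (ex σ h2.pos) (by rw [← hW]; exact h0)
      rw [← hW] at hu4
      have h5 : capacity K L ≤ ENNReal.ofReal (2 * Real.pi / W) :=
        (iInf₂_le u ⟨hu1, hu2, hu3⟩).trans hu4
      have h6 : capacity K L ≠ ⊤ := ne_top_of_le_ne_top ENNReal.ofReal_ne_top h5
      have h7 : (capacity K L).toReal ≤ 2 * Real.pi / W := by
        rw [← ENNReal.toReal_ofReal (show 0 ≤ 2 * Real.pi / W by positivity)]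
        exact ENNReal.toReal_mono ENNReal.ofReal_ne_top h5
      have h8 : 0 < (capacity K L).toReal := ENNReal.toReal_pos hpos.ne' h6
      unfold modulus
      calc W / (2 * Real.pi) = (2 * Real.pi / W)⁻¹ := by rw [inv_div]
        _ ≤ _ := inv_anti₀ h8 h7
  refine le_trans ?_ hmain
  rw [div_sub_one (by positivity)]
  apply div_le_div_of_nonneg_right _ (by positivity)
  linarith

/-- the closest points -/
theorem closest {K L : Set ℂ} (hK : IsCompact K) (hK' : K.Nonempty) (hL : IsClosed L)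
    (hL' : L.Nonempty) :
    ∃ z ∈ K, ∃ w ∈ L, ∀ x ∈ K, ∀ y ∈ L, dist z w ≤ dist x y := by
  obtain ⟨z, hz, hmin⟩ := hK.exists_isMinOn hK' (Metric.continuous_infDist_pt L).continuousOn
  obtain ⟨w, hw, hzw⟩ := hL.exists_infDist_eq_dist hL' z
  refine ⟨z, hz, w, hw, fun x hx y hy => ?_⟩
  rw [← hzw]
  exact (hmin hx : Metric.infDist z L ≤ Metric.infDist x L).trans (Metric.infDist_le_dist_of_mem hy)

theorem pow_exp {d ρ σ : ℝ} (hd : 0 < d) (hρ : 0 < ρ) (hσ : 0 < σ) :
    (ρ / d * (σ / d)) ^ ((5:ℝ) / 48) = Real.exp (-(5 * Real.pi / 24) *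
      ((Real.log (d / ρ) + Real.log (d / σ)) / (2 * Real.pi))) := by
  have hpi := Real.pi_pos
  rw [Real.rpow_def_of_pos (by positivity), Real.log_mul (by positivity) (by positivity)]
  congr 1
  have e1 : Real.log (ρ / d) = -Real.log (d / ρ) := by rw [← Real.log_inv, inv_div]
  have e2 : Real.log (σ / d) = -Real.log (d / σ) := by rw [← Real.log_inv, inv_div]
  rw [e1, e2]
  field_simp
  ring

/-- what is needed of a set -/
structure Good (ε : ℝ) (K : Set ℂ) (z : ℂ) (d ρ : ℝ) : Prop where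
  size : Size K z d ρ
  chain : Chain ε K z ρ
  hits : Hits K z ρ
  mesh : ε ≤ ρ ∨ ρ = d

theorem good_fin {K : Set ℂ} (hK : IsClosed K) (hK' : IsPreconnected K) {z : ℂ} (hz : z ∈ K)
    {d ε : ℝ} (hd : 0 < d) (hε : 0 < ε) (h : ∃ x ∈ K, ∃ y ∈ K, ε ≤ dist x y) :
    ∃ ρ, Good ε K z d ρ := by
  obtain ⟨ρ, h1, h2⟩ := size_exists hK hz hd hε h
  exact ⟨ρ, h1, chain_conn hε hK' h1, fun r hr hr2 => circle_hits hK' h1 hr hr2, h2⟩

/-- the finite part of a subset of the sphere -/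
def tr (B : Set (OnePoint ℂ)) : Set ℂ := {z | (z : OnePoint ℂ) ∈ B}

theorem tr_closed {B : Set (OnePoint ℂ)} (hB : IsClosed B) : IsClosed (tr B) :=
  hB.preimage OnePoint.continuous_coe

theorem tr_image {B : Set (OnePoint ℂ)} (h : OnePoint.infty ∉ B) :
    ((↑) : ℂ → OnePoint ℂ) '' tr B = B := by
  ext b
  induction b using OnePoint.rec with
  | infty => simp [h]
  | coe z => simp [tr]

theorem tr_compact {B : Set (OnePoint ℂ)} (hB : IsClosed B) (h : OnePoint.infty ∉ B) :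
    IsCompact (tr B) := by
  rw [← tr_image h, OnePoint.isClosed_image_coe] at hB
  exact hB.2

theorem tr_conn {B : Set (OnePoint ℂ)} (hB : IsPreconnected B) (h : OnePoint.infty ∉ B) :
    IsPreconnected (tr B) := by
  rw [← tr_image h] at hB
  exact OnePoint.isOpenEmbedding_coe.isInducing.isPreconnected_image.mp hB

theorem hits_inf {B : Set (OnePoint ℂ)} (hB : IsPreconnected B) (h : OnePoint.infty ∈ B) {z : ℂ}
    (hz : z ∈ tr B) {r : ℝ} (hr : 0 ≤ r) : ∃ x ∈ tr B, dist x z = r := by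
  have hc1 : IsClosed (((↑) : ℂ → OnePoint ℂ) '' Metric.closedBall z r) :=
    OnePoint.isClosed_image_coe.mpr ⟨Metric.isClosed_closedBall, isCompact_closedBall z r⟩
  have hc2 : IsClosed ((((↑) : ℂ → OnePoint ℂ) '' Metric.ball z r)ᶜ) :=
    (OnePoint.isOpenMap_coe _ Metric.isOpen_ball).isClosed_compl
  obtain ⟨b, hb, hb1, hb2⟩ := isPreconnected_closed_iff.mp hB _ _ hc1 hc2
    (by
      intro b _
      by_cases hb : b ∈ ((↑) : ℂ → OnePoint ℂ) '' Metric.ball z r
      · exact Or.inl (Set.image_mono Metric.ball_subset_closedBall hb)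
      · exact Or.inr hb)
    ⟨(z : OnePoint ℂ), hz, ⟨z, Metric.mem_closedBall_self hr, rfl⟩⟩
    ⟨OnePoint.infty, h, by
      rintro ⟨x, _, hx⟩
      exact OnePoint.coe_ne_infty x hx⟩
  obtain ⟨x, hx, rfl⟩ := hb1
  refine ⟨x, hb, le_antisymm (Metric.mem_closedBall.mp hx) ?_⟩
  by_contra hcon
  exact hb2 ⟨x, Metric.mem_ball.mpr (not_le.mp hcon), rfl⟩

theorem chain_inf {ε : ℝ} (hε : 0 < ε) {B : Set (OnePoint ℂ)} (hBc : IsClosed B)
    (hB : IsPreconnected B) (h : OnePoint.infty ∈ B) {z : ℂ} (hz : z ∈ tr B) (ρ : ℝ) :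
    Chain ε (tr B) z ρ := by
  by_contra hcon
  unfold Chain at hcon
  push Not at hcon
  have hL := tr_closed hBc
  have step : ∀ x ∈ tr B, ∀ y ∈ tr B, dist x y < ε / 10 →
      Reach (NE ε (tr B)) (nv ε x) (nv ε y) := by
    intro x hx y hy hxy
    exact reach_nv hε hy (nv_close hε x y hxy)
  obtain ⟨U, hU⟩ : ∃ U : Set ℂ, U = {x | x ∈ tr B ∧ Reach (NE ε (tr B)) (nv ε z) (nv ε x)} :=
    ⟨_, rfl⟩
  obtain ⟨V, hV⟩ : ∃ V : Set ℂ, V = {x | x ∈ tr B ∧ ¬ Reach (NE ε (tr B)) (nv ε z) (nv ε x)} :=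
    ⟨_, rfl⟩
  have hUc : IsClosed U := by
    rw [← closure_subset_iff_isClosed]
    intro x hx
    have hxL : x ∈ tr B := hL.closure_subset_iff.mpr (by rw [hU]; exact fun y hy => hy.1) hx
    obtain ⟨y, hy, hxy⟩ := Metric.mem_closure_iff.mp hx (ε / 10) (by positivity)
    rw [hU] at hy ⊢
    exact ⟨hxL, hy.2.trans (step y hy.1 x hxL (by rw [dist_comm]; exact hxy))⟩
  have hVc : IsClosed V := by
    rw [← closure_subset_iff_isClosed]
    intro x hx
    have hxL : x ∈ tr B := hL.closure_subset_iff.mpr (by rw [hV]; exact fun y hy => hy.1) hx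
    obtain ⟨y, hy, hxy⟩ := Metric.mem_closure_iff.mp hx (ε / 10) (by positivity)
    rw [hV] at hy ⊢
    refine ⟨hxL, fun hr => hy.2 (hr.trans (step x hxL y hy.1 hxy))⟩
  have hUk : IsCompact U := by
    apply (isCompact_closedBall z (ρ / 2)).of_isClosed_subset hUc
    intro x hx
    rw [hU] at hx
    rw [Metric.mem_closedBall]
    by_contra hlt
    exact hcon x hx.1 (not_le.mp hlt).le hx.2
  have hc1 : IsClosed (((↑) : ℂ → OnePoint ℂ) '' U) :=
    OnePoint.isClosed_image_coe.mpr ⟨hUc, hUk⟩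
  have hc2 : IsClosed ((((↑) : ℂ → OnePoint ℂ) '' Vᶜ)ᶜ) :=
    (OnePoint.isOpenMap_coe _ hVc.isOpen_compl).isClosed_compl
  obtain ⟨b, hb, hb1, hb2⟩ := isPreconnected_closed_iff.mp hB _ _ hc1 hc2
    (by
      intro b hb
      induction b using OnePoint.rec with
      | infty =>
        right
        rintro ⟨x, _, hx⟩
        exact OnePoint.coe_ne_infty x hx
      | coe x =>
        by_cases hr : Reach (NE ε (tr B)) (nv ε z) (nv ε x)
        · left
          exact ⟨x, by rw [hU]; exact ⟨hb, hr⟩, rfl⟩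
        · right
          rintro ⟨y, hy, hyx⟩
          rw [OnePoint.coe_eq_coe] at hyx
          subst hyx
          apply hy
          rw [hV]
          exact ⟨hb, hr⟩)
    ⟨(z : OnePoint ℂ), hz, ⟨z, by rw [hU]; exact ⟨hz, Reach.refl _ _⟩, rfl⟩⟩
    ⟨OnePoint.infty, h, by
      rintro ⟨x, _, hx⟩
      exact OnePoint.coe_ne_infty x hx⟩
  obtain ⟨x, hx, rfl⟩ := hb1
  apply hb2
  refine ⟨x, ?_, rfl⟩
  intro hxV
  rw [hU] at hx
  rw [hV] at hxV
  exact hxV.2 hx.2

theorem good_inf {ε : ℝ} (hε : 0 < ε) {B : Set (OnePoint ℂ)} (hBc : IsClosed B)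
    (hB : IsPreconnected B) (h : OnePoint.infty ∈ B) {z : ℂ} (hz : z ∈ tr B) {d : ℝ}
    (hd : 0 < d) : Good ε (tr B) z d d := by
  obtain ⟨x, hx, hxd⟩ := hits_inf hB h hz (r := d / 2) (by positivity)
  exact ⟨⟨hz, hd, le_rfl, ⟨x, hx, hxd.ge⟩, Or.inl rfl⟩, chain_inf hε hBc hB h hz d,
    fun r hr _ => hits_inf hB h hz hr, Or.inr rfl⟩

theorem cross_symm (ε : ℝ) (K L : Set ℂ) : cross ε K L = cross ε L K := by
  unfold cross
  congr 1
  ext ω
  constructor
  · rintro ⟨u, hu, v, hv, h⟩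
    exact ⟨v, hv, u, hu, h.symm⟩
  · rintro ⟨u, hu, v, hv, h⟩
    exact ⟨v, hv, u, hu, h.symm⟩

theorem capacity_symm_le (K L : Set ℂ) : capacity K L ≤ capacity L K := by
  unfold capacity
  refine le_iInf fun u => le_iInf fun hu => ?_
  have h1 : ContDiff ℝ 1 (fun z => 1 - u z) := contDiff_const.sub hu.1
  have h2 : ∀ z ∈ K, (fun z => 1 - u z) z = 0 := by
    intro z hz
    simp only [hu.2.2 z hz, sub_self]
  have h3 : ∀ z ∈ L, (fun z => 1 - u z) z = 1 := by
    intro z hz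
    simp only [hu.2.1 z hz, sub_zero]
  refine (iInf₂_le (fun z => 1 - u z) ⟨h1, h2, h3⟩).trans (le_of_eq ?_)
  unfold energy
  apply lintegral_congr
  intro z
  have : fderiv ℝ (fun z => 1 - u z) z = - fderiv ℝ u z := by
    rw [fderiv_const_sub]
  rw [this, norm_neg]

theorem modulus_symm (K L : Set ℂ) : modulus K L = modulus L K := by
  unfold modulus
  rw [le_antisymm (capacity_symm_le K L) (capacity_symm_le L K)]

/-- **The crossing probability of a doubly connected domain of the sphere.** -/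
theorem main : ∃ c C : ℝ, 0 < c ∧ 0 < C ∧ ∀ (A B : Set (OnePoint ℂ)) (ε : ℝ),
    IsClosed A → IsPreconnected A → IsClosed B → IsPreconnected B → Disjoint A B → 0 < ε →
    (∃ x ∈ tr A, ∃ y ∈ tr A, ε ≤ dist x y) → (∃ x ∈ tr B, ∃ y ∈ tr B, ε ≤ dist x y) →
    c * Real.exp (-(5 * Real.pi / 24) * modulus (tr A) (tr B)) ≤ cross ε (tr A) (tr B) ∧
    cross ε (tr A) (tr B) ≤ C * Real.exp (-(5 * Real.pi / 24) * modulus (tr A) (tr B)) := by
  obtain ⟨c, C, hc, hC, hs⟩ := sharp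
  obtain ⟨c', hc', hlow⟩ := cross_lower hc hC hs
  obtain ⟨C', hC', hup⟩ := cross_upper hc hC hs
  have hpi := Real.pi_pos
  refine ⟨c' * Real.exp (-(5 * Real.pi / 24)), C' * Real.exp (5 * Real.pi / 24 * 220),
    by positivity, by positivity, ?_⟩
  have key : ∀ (A B : Set (OnePoint ℂ)) (ε : ℝ), OnePoint.infty ∉ A →
      IsClosed A → IsPreconnected A → IsClosed B → IsPreconnected B → Disjoint A B → 0 < ε →
      (∃ x ∈ tr A, ∃ y ∈ tr A, ε ≤ dist x y) → (∃ x ∈ tr B, ∃ y ∈ tr B, ε ≤ dist x y) →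
      c' * Real.exp (-(5 * Real.pi / 24)) * Real.exp (-(5 * Real.pi / 24) *
        modulus (tr A) (tr B)) ≤ cross ε (tr A) (tr B) ∧
      cross ε (tr A) (tr B) ≤ C' * Real.exp (5 * Real.pi / 24 * 220) *
        Real.exp (-(5 * Real.pi / 24) * modulus (tr A) (tr B)) := by
    intro A B ε hinf hA hA' hB hB' hdis hε hAd hBd
    have hAd' := hAd
    have hBd' := hBd
    obtain ⟨x0, hx0, -⟩ := hAd'
    obtain ⟨y0, hy0, -⟩ := hBd'
    obtain ⟨z, hz, w, hw, hmin⟩ := closest (tr_compact hA hinf) ⟨x0, hx0⟩ (tr_closed hB)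
      ⟨y0, hy0⟩
    have hne : z ≠ w := by
      intro h
      rw [h] at hz
      exact Set.disjoint_left.mp hdis hz hw
    have hd0 : 0 < dist z w := dist_pos.mpr hne
    obtain ⟨ρ, h1⟩ := good_fin (tr_closed hA) (tr_conn hA' hinf) hz hd0 hε hAd
    obtain ⟨σ, h2⟩ : ∃ σ, Good ε (tr B) w (dist z w) σ := by
      by_cases hb : OnePoint.infty ∈ B
      · exact ⟨_, good_inf hε hB hB' hb hw hd0⟩
      · exact good_fin (tr_closed hB) (tr_conn hB' hb) hw hd0 hε hBd
    have a1 := hlow ε (tr A) (tr B) z w ρ σ hε h1.chain h2.chain h1.size h2.size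
    have a2 := hup ε (tr A) (tr B) z w ρ σ hε h1.size h2.size hmin h1.mesh h2.mesh
    have m1 := modulus_le h1.hits h2.hits h1.size h2.size
    have m2 := modulus_ge h1.hits h2.hits h1.size h2.size hmin
    rw [pow_exp hd0 h1.size.pos h2.size.pos] at a1 a2
    obtain ⟨Λ, hΛ⟩ : ∃ Λ, Λ = (Real.log (dist z w / ρ) + Real.log (dist z w / σ)) /
      (2 * Real.pi) := ⟨_, rfl⟩
    rw [← hΛ] at a1 a2 m1 m2
    constructor
    · refine le_trans ?_ a1
      rw [mul_assoc, ← Real.exp_add]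
      apply mul_le_mul_of_nonneg_left _ hc'.le
      apply Real.exp_le_exp.mpr
      nlinarith
    · refine a2.trans ?_
      rw [mul_assoc, ← Real.exp_add]
      apply mul_le_mul_of_nonneg_left _ hC'.le
      apply Real.exp_le_exp.mpr
      nlinarith
  intro A B ε hA hA' hB hB' hdis hε hAd hBd
  by_cases hinf : OnePoint.infty ∈ A
  · have hinfB : OnePoint.infty ∉ B := fun h => Set.disjoint_left.mp hdis hinf h
    have := key B A ε hinfB hB hB' hA hA' hdis.symm hε hBd hAd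
    rw [cross_symm ε (tr A), modulus_symm (tr A)]
    exact this
  · exact key A B ε hinf hA hA' hB hB' hdis hε hAd hBd

end Pool.Agent.Y996.RD
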